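import Pool.Agent.Lib.MP_d439b2_co.P41N.Final
import Pool.Agent.Lib.MP_d439b2_co.F9.BaseP

/-!
# MP_d439b2_co: the pair of `P_4 + P_1` and `co(P_3 + 4 P_2)` (helper88, helper26)
-/

set_option autoImplicit false

namespace Pool.Agent.MPd439b2.P41N

open Pool.Agent.MPd439b2 Pool.Agent.MPd439b2.Rep Pool.Agent.MPd439b2.P41

/-- `KF 2 3 ![∅, {0}, {1}]` is `P_4 + P_1` -/
theorem kf41 : IsIndSub (F9.KF 2 3 ![∅, {0}, {1}]) H41 := by
  refine ⟨Sum.elim Sum.inl fun q => Sum.inr (![2, 0, 1] q), ?_, ?_⟩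
  · rintro (i | i) (j | j) h
    · exact congrArg Sum.inl (Sum.inl_injective h)
    · exact absurd h (by simp)
    · exact absurd h (by simp)
    · have h1 := Sum.inr_injective h
      fin_cases i <;> fin_cases j <;> simp at h1 ⊢
  · rintro (i | i) (j | j)
    · fin_cases i <;> fin_cases j <;> simp [F9.KF, KA, H41]
    · fin_cases i <;> fin_cases j <;> simp [F9.KF, KA, H41]
    · fin_cases i <;> fin_cases j <;> simp [F9.KF, KA, H41]
    · fin_cases i <;> fin_cases j <;> simp [F9.KF, KA, H41]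

/-- **the pair `(P_4 + P_1, co(P_3 + 4 P_2))`** -/
theorem pair41 : BoundedCW (F9.KF 2 3 ![∅, {0}, {1}]) (F9.JS ![0, 1, 1] 4) :=
  fD.2 _ _ _ _ _ _ H41 (F9.JS ![0, 1, 1] 4) (fD.1 _ _ _ _ kf41)
    (fD.1 _ _ _ _ ⟨id, Function.injective_id, fun _ _ => Iff.rfl⟩) (F9.bcw_of_bl bl41F)

end Pool.Agent.MPd439b2.P41N
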