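import Pool.Agent.Lib.MP_d439b2_co.P41N.SpecB

/-!
# MP_d439b2_co, P41N: statement (alpha) of the note (helper17)
-/

set_option autoImplicit false

namespace Pool.Agent.MPd439b2.P41N

open Pool.Agent.MPd439b2 Pool.Agent.MPd439b2.Rep Pool.Agent.MPd439b2.P41 Pool.Agent.MPd439b2.NK

theorem uAl : S_Al := by
  classical
  intro hW0 hCe hGc hPa hT N n₁
  obtain ⟨m₀, hm₀⟩ := hT n₁
  refine ⟨max (m₀ + N) n₁, ?_⟩
  intro V _ G B b q C w y hE hC hD
  obtain ⟨m, hm⟩ : ∃ m, m = max (m₀ + N) n₁ := ⟨_, rfl⟩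
  rw [← hm] at hC hD
  have h5 := hE.hN
  have h1 := hE.h1
  have hmn : n₁ ≤ m := hm ▸ le_max_right _ _
  have hmN : m₀ + N ≤ m := hm ▸ le_max_left _ _
  -- the letters
  have hx : ∀ i, ∃ p : V × V, i < m → p.1 ∈ C i ∧ p.2 ∈ C i ∧ G.Adj p.1 p.2 := by
    intro i
    by_cases hi : i < m
    · obtain ⟨_, _, _, _, u, hu, v, hv, huv⟩ :=
        hGc hW0 hCe V G B b N n₁ q (C i) hE (hC i hi).1.1
      exact ⟨(u, v), fun _ => ⟨hu, hv, huv⟩⟩
    · exact ⟨(w i, w i), fun h => absurd h hi⟩
  choose p hp using hx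
  obtain ⟨e, he⟩ : ∃ e : Bool → ℕ → V, e = fun s i => if s = true then (p i).2 else (p i).1 :=
    ⟨_, rfl⟩
  have hef : ∀ i, e false i = (p i).1 := fun i => by rw [he]; simp
  have het : ∀ i, e true i = (p i).2 := fun i => by rw [he]; simp
  have heC : ∀ i < m, ∀ s, e s i ∈ C i := by
    intro i hi s
    cases s
    · rw [hef]; exact (hp i hi).1
    · rw [het]; exact (hp i hi).2.1
  have heA : ∀ i < m, G.Adj (e false i) (e true i) := by
    intro i hi
    rw [hef, het]
    exact (hp i hi).2.2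
  have hLS : LS G e (Finset.range m) := by
    intro i hi j hj s t
    rw [Finset.mem_range] at hi hj
    constructor
    · intro hadj
      by_contra hcon
      by_cases hij : i = j
      · subst hij
        have hst : s = t := by
          by_contra hst
          exact hcon ⟨rfl, hst⟩
        subst hst
        exact G.loopless.irrefl _ hadj
      · exact (hD i hi j hj hij).1 _ (heC i hi s) _ (heC j hj t) hadj
    · rintro ⟨rfl, hst⟩
      have h := heA i hi
      cases s <;> cases t
      · exact absurd rfl hst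
      · exact h
      · exact h.symm
      · exact absurd rfl hst
  have hcS : (Finset.range m).card = m := Finset.card_range m
  have hce : Ce G e (Finset.range m) := hCe V G e _ hE.fp hLS (by omega)
  -- the good letters
  obtain ⟨T, hTd⟩ : ∃ T : Finset ℕ, T = (Finset.range m).filter
    (fun i => Gi G B b e (Finset.range m) i) := ⟨_, rfl⟩
  have hTS : T ⊆ Finset.range m := by
    rw [hTd]
    exact Finset.filter_subset _ _
  have hTc : m₀ ≤ T.card := by
    by_contra hcon
    push Not at hcon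
    have h2 : N ≤ (Finset.range m \ T).card := by
      have h3 := Finset.card_sdiff_add_card_eq_card hTS
      omega
    obtain ⟨i, hi, hg⟩ := hE.gd e (Finset.range m \ T) (hLS.mono Finset.sdiff_subset) h2
    have h3 := hce.gi Finset.sdiff_subset (by omega) hi hg
    rw [Finset.mem_sdiff] at hi
    exact hi.2 (by rw [hTd, Finset.mem_filter]; exact ⟨hi.1, h3⟩)
  have hPaS : ∀ i ∈ T, Kc G e (Finset.range m) i = C i := by
    intro i hi
    rw [hTd, Finset.mem_filter] at hi
    refine hPa hW0 hCe hGc V G B b N n₁ q e (Finset.range m) C hE hLS (by omega) ?_ ?_ i hi.1 hi.2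
    · intro j hj
      rw [Finset.mem_range] at hj
      exact ⟨(hC j hj).1, heC j hj⟩
    · intro j hj k hk hjk
      rw [Finset.mem_range] at hj hk
      exact (hD j hj k hk hjk).1
  obtain ⟨T', hT'T, hT'c, hT'⟩ := hm₀ V G e (Finset.range m) T w y hE.nj hce hTS hTc
    (by
      intro i hi
      have him := Finset.mem_range.1 (hTS hi)
      have hK := hPaS i hi
      obtain ⟨-, c1, c2, c3, c4⟩ := hC i him
      have hw : w i ∈ Mi G (Kc G e (Finset.range m) i) := by rw [hK]; exact c1
      refine ⟨hw, ?_, by rw [hK]; exact c3, c4⟩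
      intro hyR
      exact c4 ((hce.mx i (hTS hi) (w i) hw).2 (y i) hyR (by rw [hK]; exact c2)))
    (by
      intro i hi j hj hij
      by_contra hne
      exact (hD i (Finset.mem_range.1 (hTS hi)) j (Finset.mem_range.1 (hTS hj)) hne).2 hij)
  have hT'S : T' ⊆ Finset.range m := hT'T.trans hTS
  have hLS' := hLS.mono hT'S
  have hce' : Ce G e T' := hCe V G e _ hE.fp hLS' (by omega)
  obtain ⟨i, hi, hg⟩ := hE.gd e T' hLS' (by omega)
  have hK' : Kc G e T' i = C i := by
    refine hPa hW0 hCe hGc V G B b N n₁ q e T' C hE hLS' (by omega) ?_ ?_ i hi hg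
    · intro j hj
      have hj := Finset.mem_range.1 (hT'S hj)
      exact ⟨(hC j hj).1, heC j hj⟩
    · intro j hj k hk hjk
      exact (hD j (Finset.mem_range.1 (hT'S hj)) k (Finset.mem_range.1 (hT'S hk)) hjk).1
  obtain ⟨hy1, hy2⟩ := hT' i hi
  have hTcy : ∀ j ∈ T', Tc G e (y i) j → j = i := by
    intro j hj hTj
    by_contra hji
    obtain ⟨s, hs⟩ := hTj
    exact hy2 j hj hji (e s j) (hLS.mem_K (hT'S hj) s) hs
  have hyR : y i ∈ Rr G e T' := fun j hj k hk h2 h3 => by
    rw [hTcy j hj h2, hTcy k hk h3]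
  have hyK : y i ∈ Kc G e T' i := hce'.cl i hi (e false i) (hLS'.mem_K hi false) (y i) hyR
    (hy1 _ (hLS.mem_K (hT'S hi) false))
  rw [hK'] at hyK
  exact (hC i (Finset.mem_range.1 (hT'S hi))).2.2.1 hyK

end Pool.Agent.MPd439b2.P41N
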