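import Pool.Agent.Lib.MP_d439b2_co.P41.Spec
import Pool.Agent.Lib.MP_d439b2_co.NK.Base

/-!
# MP_d439b2_co, P41N: removing large induced matchings from `(P_4 + P_1)`-free graphs (helper26, note 3069), basics

A matching is `e : Bool → ℕ → V` with a finite set `S` of indices (LETTERS): `LS G e S`.  `NK.Tc G e v i`: `v` touches the letter `i` (the
vertices of the letter `i` touch it).  `Rr G e S`: the vertices which touch at most one letter of `S`; `Kc G e S i`: the cell of the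
letter `i` = the vertices of `Rr` which touch the letter `i` or are adjacent to a vertex of `Rr` touching it.  `Mi G K`: the
vertices which are mixed on `K`.  `Wf G b`: the vertices with at most `b` non-neighbours (the vertex itself counts).
`Ce G e S`: the basic facts on the cells.  `Gi G B b e S i`: the letter `i` is good.
-/

set_option autoImplicit false

namespace Pool.Agent.MPd439b2.P41N

open Pool.Agent.MPd439b2 Pool.Agent.MPd439b2.Rep Pool.Agent.MPd439b2.P41 Pool.Agent.MPd439b2.NK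

variable {V : Type}

/-- an induced matching with the index set `S` -/
def LS (G : SimpleGraph V) (e : Bool → ℕ → V) (S : Finset ℕ) : Prop :=
  ∀ i ∈ S, ∀ j ∈ S, ∀ s t : Bool, (G.Adj (e s i) (e t j) ↔ i = j ∧ s ≠ t)

/-- the vertices which touch at most one letter of `S` -/
def Rr (G : SimpleGraph V) (e : Bool → ℕ → V) (S : Finset ℕ) : Set V :=
  {v | ∀ i ∈ S, ∀ j ∈ S, Tc G e v i → Tc G e v j → i = j}

/-- the cell of the letter `i` -/
def Kc (G : SimpleGraph V) (e : Bool → ℕ → V) (S : Finset ℕ) (i : ℕ) : Set V :=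
  {v | v ∈ Rr G e S ∧ (Tc G e v i ∨ ∃ u ∈ Rr G e S, Tc G e u i ∧ G.Adj v u)}

/-- the vertices which are mixed on `K` -/
def Mi (G : SimpleGraph V) (K : Set V) : Set V :=
  {v | v ∉ K ∧ (∃ x ∈ K, G.Adj v x) ∧ ∃ x ∈ K, ¬ G.Adj v x}

/-- the vertices with at most `b` non-neighbours -/
def Wf (G : SimpleGraph V) (b : ℕ) : Set V := {v | {u | ¬ G.Adj v u}.ncard ≤ b}

/-- the basic facts on the cells -/
structure Ce (G : SimpleGraph V) (e : Bool → ℕ → V) (S : Finset ℕ) : Prop where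
  ls : LS G e S
  cn : ∀ i ∈ S, Conn G (Kc G e S i)
  cl : ∀ i ∈ S, ∀ x ∈ Kc G e S i, ∀ v ∈ Rr G e S, G.Adj v x → v ∈ Kc G e S i
  tc : ∀ i ∈ S, ∀ x ∈ Kc G e S i, ∀ j ∈ S, Tc G e x j → j = i
  mx : ∀ i ∈ S, ∀ v ∈ Mi G (Kc G e S i), v ∉ Rr G e S ∧
    ∀ z ∈ Rr G e S, z ∉ Kc G e S i → G.Adj v z
  fa : ∀ i ∈ S, ∀ f ∈ Mi G (Kc G e S i), ∀ y, y ∉ Rr G e S → (∀ x ∈ Kc G e S i, ¬ G.Adj y x) →
    ¬ G.Adj y f → ∀ j ∈ S, j ≠ i → ∀ x ∈ Kc G e S j, G.Adj y x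

/-- the letter `i` of `S` is good: its cell with the mixed vertices is small, and the mixed vertices have few
non-neighbours -/
def Gi (G : SimpleGraph V) (B b : ℕ) (e : Bool → ℕ → V) (S : Finset ℕ) (i : ℕ) : Prop :=
  (Kc G e S i ∪ Mi G (Kc G e S i)).ncard ≤ B ∧ Mi G (Kc G e S i) ⊆ Wf G b

/-- the environment: `P_4 + P_1`-free, `J_4`-free, and every matching with `N` letters has a good letter; `n₁` and `q` are
large -/
structure En (G : SimpleGraph V) (B b N n₁ q : ℕ) : Prop where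
  fp : FP G
  nj : ¬ IMS J4 G Set.univ
  hN : 5 ≤ N
  gd : ∀ (e : Bool → ℕ → V) (S : Finset ℕ), LS G e S → N ≤ S.card → ∃ i ∈ S, Gi G B b e S i
  h1 : N ≤ n₁
  h2 : b + 3 ≤ n₁
  h3 : 2 * q + 3 ≤ n₁
  h4 : 4 * b + 8 ≤ q

/-- `K` is a good cell of a matching with at least `n₁` letters -/
def GC (G : SimpleGraph V) (B b n₁ : ℕ) (K : Set V) : Prop :=
  ∃ (e : Bool → ℕ → V) (S : Finset ℕ), LS G e S ∧ n₁ ≤ S.card ∧
    ∃ i ∈ S, Gi G B b e S i ∧ K = Kc G e S i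

/-- `K` is a maximal good cell -/
def MG (G : SimpleGraph V) (B b n₁ : ℕ) (K : Set V) : Prop :=
  GC G B b n₁ K ∧ ∀ K', GC G B b n₁ K' → K ⊆ K' → K' ⊆ K

/-- the letter `i` is good for `S \ D` for all `D` with at most `q` letters -/
def Rb (G : SimpleGraph V) (B b q : ℕ) (e : Bool → ℕ → V) (S : Finset ℕ) (i : ℕ) : Prop :=
  ∀ D ⊆ S, D.card ≤ q → i ∉ D → Gi G B b e (S \ D) i

/-- `C` is a maximal good cell which contains the cell of a robust letter -/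
def RC (G : SimpleGraph V) (B b n₁ q : ℕ) (C : Set V) : Prop :=
  MG G B b n₁ C ∧ ∃ (e : Bool → ℕ → V) (S : Finset ℕ), LS G e S ∧ n₁ + q ≤ S.card ∧
    ∃ i ∈ S, Rb G B b q e S i ∧ Kc G e S i ⊆ C

/-! ### matchings -/

namespace LS

variable {G : SimpleGraph V} {e : Bool → ℕ → V} {S : Finset ℕ}

theorem mono (h : LS G e S) {S' : Finset ℕ} (hS : S' ⊆ S) : LS G e S' :=
  fun i hi j hj => h i (hS hi) j (hS hj)

theorem adj (h : LS G e S) {i : ℕ} (hi : i ∈ S) (s : Bool) : G.Adj (e s i) (e (!s) i) :=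
  (h i hi i hi s (!s)).2 ⟨rfl, by cases s <;> decide⟩

theorem nadj (h : LS G e S) {i j : ℕ} (hi : i ∈ S) (hj : j ∈ S) (hij : i ≠ j) (s t : Bool) :
    ¬ G.Adj (e s i) (e t j) := fun h1 => hij ((h i hi j hj s t).1 h1).1

theorem ne (h : LS G e S) {i j : ℕ} (hi : i ∈ S) (hj : j ∈ S) (hij : i ≠ j) (s t : Bool) :
    e s i ≠ e t j := by
  intro h1
  have h2 := h.adj hi s
  rw [h1] at h2
  exact h.nadj hj hi hij.symm _ _ h2

/-- a vertex of a letter touches exactly this letter -/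
theorem tc (h : LS G e S) {i j : ℕ} (hi : i ∈ S) (hj : j ∈ S) (s : Bool) :
    Tc G e (e s i) j ↔ i = j := by
  constructor
  · rintro ⟨t, h1⟩
    exact ((h i hi j hj s t).1 h1).1
  · rintro rfl
    exact ⟨!s, h.adj hi s⟩

theorem mem_R (h : LS G e S) {i : ℕ} (hi : i ∈ S) (s : Bool) : e s i ∈ Rr G e S :=
  fun _ hj _ hk h1 h2 => ((h.tc hi hj s).1 h1).symm.trans ((h.tc hi hk s).1 h2)

theorem mem_K (h : LS G e S) {i : ℕ} (hi : i ∈ S) (s : Bool) : e s i ∈ Kc G e S i :=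
  ⟨h.mem_R hi s, Or.inl ((h.tc hi hi s).2 rfl)⟩

end LS

variable {G : SimpleGraph V} {e : Bool → ℕ → V} {S : Finset ℕ}

theorem Kc_sub {i : ℕ} : Kc G e S i ⊆ Rr G e S := fun _ h => h.1

theorem Rr_mono {S' : Finset ℕ} (hS : S' ⊆ S) : Rr G e S ⊆ Rr G e S' :=
  fun _ h i hi j hj => h i (hS hi) j (hS hj)

theorem Kc_mono {S' : Finset ℕ} (hS : S' ⊆ S) (i : ℕ) : Kc G e S i ⊆ Kc G e S' i := by
  rintro v ⟨h1, h2 | ⟨u, h2, h3⟩⟩
  · exact ⟨Rr_mono hS h1, Or.inl h2⟩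
  · exact ⟨Rr_mono hS h1, Or.inr ⟨u, Rr_mono hS h2, h3⟩⟩

/-- a vertex outside `Rr` touches two letters -/
theorem two {v : V} (hv : v ∉ Rr G e S) :
    ∃ i ∈ S, ∃ j ∈ S, i ≠ j ∧ Tc G e v i ∧ Tc G e v j := by
  by_contra hcon
  push Not at hcon
  exact hv fun i hi j hj h1 h2 => by_contra fun h3 => hcon i hi j hj h3 h1 h2

/-- four vertices of `Rr` miss a letter -/
theorem fifth (hc : 5 ≤ S.card) {v₀ v₁ v₂ v₃ : V} (h₀ : v₀ ∈ Rr G e S) (h₁ : v₁ ∈ Rr G e S)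
    (h₂ : v₂ ∈ Rr G e S) (h₃ : v₃ ∈ Rr G e S) :
    ∃ i ∈ S, ¬ Tc G e v₀ i ∧ ¬ Tc G e v₁ i ∧ ¬ Tc G e v₂ i ∧ ¬ Tc G e v₃ i := by
  classical
  have key : ∀ v ∈ Rr G e S, ({i ∈ S | Tc G e v i}).card ≤ 1 := by
    intro v hv
    rw [Finset.card_le_one]
    intro a ha b hb
    rw [Finset.mem_filter] at ha hb
    exact hv a ha.1 b hb.1 ha.2 hb.2
  by_contra hcon
  push Not at hcon
  have h : S ⊆ {i ∈ S | Tc G e v₀ i} ∪ {i ∈ S | Tc G e v₁ i} ∪ {i ∈ S | Tc G e v₂ i} ∪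
      {i ∈ S | Tc G e v₃ i} := by
    intro i hi
    simp only [Finset.mem_union, Finset.mem_filter]
    by_cases a₀ : Tc G e v₀ i
    · exact Or.inl (Or.inl (Or.inl ⟨hi, a₀⟩))
    by_cases a₁ : Tc G e v₁ i
    · exact Or.inl (Or.inl (Or.inr ⟨hi, a₁⟩))
    by_cases a₂ : Tc G e v₂ i
    · exact Or.inl (Or.inr ⟨hi, a₂⟩)
    · exact Or.inr ⟨hi, hcon i hi a₀ a₁ a₂⟩
  have h1 := Finset.card_le_card h
  have h2 := Finset.card_union_le ({i ∈ S | Tc G e v₀ i} ∪ {i ∈ S | Tc G e v₁ i} ∪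
    {i ∈ S | Tc G e v₂ i}) {i ∈ S | Tc G e v₃ i}
  have h3 := Finset.card_union_le ({i ∈ S | Tc G e v₀ i} ∪ {i ∈ S | Tc G e v₁ i})
    {i ∈ S | Tc G e v₂ i}
  have h4 := Finset.card_union_le {i ∈ S | Tc G e v₀ i} {i ∈ S | Tc G e v₁ i}
  have k₀ := key v₀ h₀
  have k₁ := key v₁ h₁
  have k₂ := key v₂ h₂
  have k₃ := key v₃ h₃
  omega

/-- `P_4 + P_1`-free, for vertices of `Rr`: no induced `P_4` -/
theorem noP4 (hG : FP G) (hL : LS G e S) (hc : 5 ≤ S.card) {a b c d : V} (ha : a ∈ Rr G e S)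
    (hb : b ∈ Rr G e S) (hc' : c ∈ Rr G e S) (hd : d ∈ Rr G e S) (h1 : G.Adj a b)
    (h2 : G.Adj b c) (h3 : G.Adj c d) (h4 : ¬ G.Adj a c) (h5 : ¬ G.Adj a d)
    (h6 : ¬ G.Adj b d) (hac : a ≠ c) (hbd : b ≠ d) : False := by
  obtain ⟨i, _, n1, n2, n3, n4⟩ := fifth hc ha hb hc' hd
  exact hG a b c d (e false i) h1 h2 h3 hac hbd h4 h5 h6 (fun h => n1 ⟨false, h.symm⟩)
    (fun h => n2 ⟨false, h.symm⟩) (fun h => n3 ⟨false, h.symm⟩) fun h => n4 ⟨false, h.symm⟩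

/-- two stable rails with a co-matching contain `J4` -/
theorem noR (hJ : ¬ IMS J4 G Set.univ) : NoTP G 10 false false true := fun _ _ h =>
  hJ (ims_J4 (HC.chkG_sp (L := [[0, 11], [1], [10], [2, 13], [3, 12], [4, 15], [5, 14], [6, 17],
    [7, 16], [8, 19], [9, 18]]) (sp_of_tp h) (by decide)))

/-- a mixed vertex of a connected set distinguishes two adjacent vertices -/
theorem mi_edge {K : Set V} (hK : Conn G K) {v : V} (hv : v ∈ Mi G K) :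
    ∃ x ∈ K, ∃ x' ∈ K, G.Adj x x' ∧ ¬ G.Adj v x ∧ G.Adj v x' := by
  obtain ⟨_, ⟨x₁, h1, h2⟩, x₀, h3, h4⟩ := hv
  obtain ⟨a, ha, b, hb, hab⟩ := hK.2 {x | x ∈ K ∧ G.Adj v x} (fun _ h => h.1) ⟨x₁, h1, h2⟩
    (fun h => h4 (by
      have h5 : x₀ ∈ {x | x ∈ K ∧ G.Adj v x} := by
        rw [h]
        exact h3
      exact h5.2))
  exact ⟨b, hb.1, a, ha.1, hab.symm, fun h => hb.2 ⟨hb.1, h⟩, ha.2⟩

/-- a connected subset of `Rr` which meets a cell is contained in it -/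
theorem Ce.sub_of (h : Ce G e S) {i : ℕ} (hi : i ∈ S) {A : Set V} (hA : Conn G A)
    (hR : A ⊆ Rr G e S) (hm : (A ∩ Kc G e S i).Nonempty) : A ⊆ Kc G e S i := by
  by_contra hcon
  obtain ⟨b, hb, a, ha, hab⟩ := hA.2 (A ∩ Kc G e S i) Set.inter_subset_left hm
    (fun h' => hcon (by rw [← h']; exact Set.inter_subset_right))
  exact ha.2 ⟨ha.1, h.cl i hi b hb.2 a (hR ha.1) hab.symm⟩

theorem Ce.dj (h : Ce G e S) {i j : ℕ} (hi : i ∈ S) (hj : j ∈ S) (hij : i ≠ j) :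
    Disjoint (Kc G e S i) (Kc G e S j) := by
  rw [Set.disjoint_left]
  intro x hx hx'
  have h1 := h.sub_of hi (h.cn j hj) Kc_sub ⟨x, hx', hx⟩ (h.ls.mem_K hj false)
  exact hij (h.tc i hi _ h1 j hj ((h.ls.tc hj hj false).2 rfl)).symm

/-- different cells are anticomplete -/
theorem Ce.an (h : Ce G e S) {i j : ℕ} (hi : i ∈ S) (hj : j ∈ S) (hij : i ≠ j) {x y : V}
    (hx : x ∈ Kc G e S i) (hy : y ∈ Kc G e S j) : ¬ G.Adj x y := fun hxy =>
  Set.disjoint_left.1 (h.dj hi hj hij) (h.cl i hi x hx y (Kc_sub hy) hxy.symm) hy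

/-- a vertex outside a cell which is not mixed on it -/
theorem ho {K : Set V} {y : V} (h1 : y ∉ K) (h2 : y ∉ Mi G K) :
    (∀ x ∈ K, G.Adj y x) ∨ ∀ x ∈ K, ¬ G.Adj y x := by
  by_contra hcon
  push Not at hcon
  obtain ⟨⟨a, ha, hya⟩, b, hb, hyb⟩ := hcon
  exact h2 ⟨h1, ⟨b, hb, hyb⟩, a, ha, hya⟩

/-- a mixed vertex of one cell is complete to the other cells -/
theorem Ce.co (h : Ce G e S) {i j : ℕ} (hi : i ∈ S) (hj : j ∈ S) (hij : i ≠ j) {v x : V}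
    (hv : v ∈ Mi G (Kc G e S i)) (hx : x ∈ Kc G e S j) : G.Adj v x :=
  (h.mx i hi v hv).2 x (Kc_sub hx) fun h' => Set.disjoint_left.1 (h.dj hi hj hij) h' hx

/-- a mixed vertex of one cell is not mixed on another one -/
theorem Ce.mdj (h : Ce G e S) {i j : ℕ} (hi : i ∈ S) (hj : j ∈ S) (hij : i ≠ j) {v : V}
    (hv : v ∈ Mi G (Kc G e S i)) : v ∉ Mi G (Kc G e S j) := by
  rintro ⟨_, _, x, hx, hvx⟩
  exact hvx (h.co hi hj hij hv hx)

/-- a vertex outside `Rr` which is not mixed on the cell `i` is complete to it if it touches the letter `i`, and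
anticomplete otherwise -/
theorem Ce.hom (h : Ce G e S) {i : ℕ} (hi : i ∈ S) {y : V} (hy : y ∉ Rr G e S)
    (hm : y ∉ Mi G (Kc G e S i)) : (Tc G e y i → ∀ x ∈ Kc G e S i, G.Adj y x) ∧
      (¬ Tc G e y i → ∀ x ∈ Kc G e S i, ¬ G.Adj y x) := by
  rcases ho (fun h' => hy (Kc_sub h')) hm with h1 | h1
  · exact ⟨fun _ => h1, fun h2 => absurd ⟨false, h1 _ (h.ls.mem_K hi false)⟩ h2⟩
  · refine ⟨?_, fun _ => h1⟩
    rintro ⟨s, h2⟩
    exact absurd h2 (h1 _ (h.ls.mem_K hi s))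

/-- monotonicity -/
theorem Ce.mono (h : Ce G e S) {S' : Finset ℕ} (hS : S' ⊆ S) (hc : 3 ≤ S'.card) {i : ℕ}
    (hi : i ∈ S') : Mi G (Kc G e S i) ⊆ Mi G (Kc G e S' i) := by
  classical
  rintro v hv
  obtain ⟨hv1, ⟨x, hx, hvx⟩, y, hy, hvy⟩ := id hv
  refine ⟨fun h' => ?_, ⟨x, Kc_mono hS i hx, hvx⟩, y, Kc_mono hS i hy, hvy⟩
  have h1 : 2 ≤ (S'.erase i).card := by
    rw [Finset.card_erase_of_mem hi]
    omega
  obtain ⟨a, ha, b, hb, hab⟩ := Finset.one_lt_card.1 h1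
  rw [Finset.mem_erase] at ha hb
  have key : ∀ j ∈ S', j ≠ i → Tc G e v j := fun j hj hji => ⟨false,
    h.co (hS hi) (hS hj) (Ne.symm hji) hv (h.ls.mem_K (hS hj) false)⟩
  exact hab (h'.1 a ha.2 b hb.2 (key a ha.2 ha.1) (key b hb.2 hb.1))

/-- a good letter of a part of the matching is good for the matching -/
theorem Ce.gi [Finite V] (h : Ce G e S) {S' : Finset ℕ} (hS : S' ⊆ S) (hc : 3 ≤ S'.card) {B b i : ℕ}
    (hi : i ∈ S') (hg : Gi G B b e S' i) : Gi G B b e S i :=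
  ⟨(Set.ncard_le_ncard (Set.union_subset_union (Kc_mono hS i) (h.mono hS hc hi))
    (Set.toFinite _)).trans hg.1, (h.mono hS hc hi).trans hg.2⟩

end Pool.Agent.MPd439b2.P41N
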