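import Pool.Agent.Lib.MP_d439b2_co.P41N.SpecA

/-! # MP_d439b2_co, P41N: the cells are closed, touch only their own letter, and are connected -/

set_option autoImplicit false

namespace Pool.Agent.MPd439b2.P41N

open Pool.Agent.MPd439b2 Pool.Agent.MPd439b2.Rep Pool.Agent.MPd439b2.P41 Pool.Agent.MPd439b2.NK

namespace C1x

variable {V : Type} {G : SimpleGraph V} {e : Bool → ℕ → V} {S : Finset ℕ}

theorem second (hG : FP G) (hL : LS G e S) (hc : 5 ≤ S.card) {i : ℕ} (hi : i ∈ S) {x : V}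
    (hx : x ∈ Kc G e S i) {j : ℕ} (hj : j ∈ S) (hxj : Tc G e x j) : j = i := by
  by_contra hne
  obtain ⟨hxR, hxi | ⟨u, huR, ⟨s, hup⟩, hxu⟩⟩ := hx
  · exact hne (hxR j hj i hi hxj hxi)
  · obtain ⟨t, hxq⟩ := hxj
    have hxi : ¬ Tc G e x i := fun h => hne (hxR j hj i hi ⟨t, hxq⟩ h)
    have huj : ¬ Tc G e u j := fun h => hne (huR j hj i hi h ⟨s, hup⟩)
    have hqp : ¬ G.Adj (e t j) (e s i) := hL.nadj hj hi hne t s
    exact noP4 hG hL hc (hL.mem_R hj t) hxR huR (hL.mem_R hi s) hxq.symm hxu hup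
      (fun h => huj ⟨t, h.symm⟩) hqp (fun h => hxi ⟨s, h⟩)
      (fun h => hqp (by rw [h]; exact hup)) (fun h => hqp (by rw [← h]; exact hxq.symm))

theorem first (hG : FP G) (hL : LS G e S) (hc : 5 ≤ S.card) {i : ℕ} (hi : i ∈ S) {x : V}
    (hx : x ∈ Kc G e S i) {v : V} (hv : v ∈ Rr G e S) (hvx : G.Adj v x) : v ∈ Kc G e S i := by
  by_contra hvK
  have hvi : ¬ Tc G e v i := fun h => hvK ⟨hv, Or.inl h⟩
  have hK : ∀ u ∈ Rr G e S, Tc G e u i → ¬ G.Adj v u := fun u hu h1 h2 =>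
    hvK ⟨hv, Or.inr ⟨u, hu, h1, h2⟩⟩
  obtain ⟨hxR, hxi | ⟨u, huR, ⟨s, hup⟩, hxu⟩⟩ := hx
  · exact hK x hxR hxi hvx
  · have hxi : ¬ Tc G e x i := fun h => hK x hxR h hvx
    have hvu : ¬ G.Adj v u := hK u huR ⟨s, hup⟩
    exact noP4 hG hL hc hv hxR huR (hL.mem_R hi s) hvx hxu hup hvu
      (fun h => hvi ⟨s, h⟩) (fun h => hxi ⟨s, h⟩) (fun h => hvi ⟨s, by rw [h]; exact hup⟩)
      (fun h => hxi (by rw [h]; exact (hL.tc hi hi s).2 rfl))

theorem conn_of {K : Set V} {z : V} (hz : z ∈ K)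
    (h : ∀ v ∈ K, ∃ A ⊆ K, v ∈ A ∧ z ∈ A ∧ Conn G A) : Conn G K := by
  refine ⟨⟨z, hz⟩, fun B hB hne hne' => ?_⟩
  by_cases hzB : z ∈ B
  · obtain ⟨c, hc, hcB⟩ : ∃ c ∈ K, c ∉ B := by
      by_contra h
      push Not at h
      exact hne' (Set.Subset.antisymm hB h)
    obtain ⟨A, hA, hcA, hzA, hAc⟩ := h c hc
    obtain ⟨b, hb, a, ha, hab⟩ := hAc.2 (B ∩ A) Set.inter_subset_right ⟨z, hzB, hzA⟩
      (fun h => hcB (show c ∈ B from (by rw [← h] at hcA; exact hcA.1)))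
    exact ⟨b, hb.1, a, ⟨hA ha.1, fun h => ha.2 ⟨h, ha.1⟩⟩, hab⟩
  · obtain ⟨b₀, hb₀⟩ := hne
    obtain ⟨A, hA, hbA, hzA, hAc⟩ := h b₀ (hB hb₀)
    obtain ⟨b, hb, a, ha, hab⟩ := hAc.2 (B ∩ A) Set.inter_subset_right ⟨b₀, hb₀, hbA⟩
      (fun h => hzB (show z ∈ B from (by rw [← h] at hzA; exact hzA.1)))
    exact ⟨b, hb.1, a, ⟨hA ha.1, fun h => ha.2 ⟨h, ha.1⟩⟩, hab⟩

theorem third (hL : LS G e S) {i : ℕ} (hi : i ∈ S) : Conn G (Kc G e S i) := by
  have hf : G.Adj (e false i) (e true i) := hL.adj hi false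
  have hP : Conn G {e false i, e true i} := Conn.pair hf
  have hPK : ({e false i, e true i} : Set V) ⊆ Kc G e S i := by
    rintro v (rfl | rfl)
    · exact hL.mem_K hi false
    · exact hL.mem_K hi true
  have hPs : ∀ s, e s i ∈ ({e false i, e true i} : Set V) := by
    intro s
    cases s
    · exact Or.inl rfl
    · exact Or.inr rfl
  have hone : ∀ v ∈ Rr G e S, Tc G e v i → Conn G (insert v {e false i, e true i}) := by
    rintro v hv ⟨s, hvs⟩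
    exact hP.insert ⟨e s i, hPs s, hvs.symm⟩
  refine conn_of (hL.mem_K hi false) fun v hv => ?_
  rcases id hv with ⟨hvR, hvi | ⟨u, huR, hui, hvu⟩⟩
  · exact ⟨insert v {e false i, e true i}, Set.insert_subset hv hPK, Set.mem_insert _ _,
      Set.mem_insert_of_mem _ (hPs false), hone v hvR hvi⟩
  · refine ⟨insert v (insert u {e false i, e true i}),
      Set.insert_subset hv (Set.insert_subset ⟨huR, Or.inl hui⟩ hPK), Set.mem_insert _ _,
      Set.mem_insert_of_mem _ (Set.mem_insert_of_mem _ (hPs false)),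
      (hone u huR hui).insert ⟨u, Set.mem_insert _ _, hvu.symm⟩⟩

end C1x

theorem uC1 : S_C1 := fun _ _ _ _ hG hL hc =>
  ⟨fun _ hi _ hx _ hv h => C1x.first hG hL hc hi hx hv h,
    fun _ hi _ hx _ hj h => C1x.second hG hL hc hi hx hj h, fun _ hi => C1x.third hL hi⟩

end Pool.Agent.MPd439b2.P41N
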