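import Pool.Agent.Lib.MP_d439b2_co.P41N.SpecA

/-! # MP_d439b2_co, P41N: the vertices which are mixed on a cell -/

set_option autoImplicit false

namespace Pool.Agent.MPd439b2.P41N

open Pool.Agent.MPd439b2 Pool.Agent.MPd439b2.Rep Pool.Agent.MPd439b2.P41 Pool.Agent.MPd439b2.NK

theorem uC2 : S_C2 := by
  intro h1 V G e S hG hL hc i hi v hv
  obtain ⟨hcl, htc, hcn⟩ := h1 V G e S hG hL hc
  have hvR : v ∉ Rr G e S := by
    intro h
    obtain ⟨_, ⟨x, hx, hvx⟩, _⟩ := id hv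
    exact hv.1 (hcl i hi x hx v h hvx)
  refine ⟨hvR, ?_⟩
  obtain ⟨x, hx, x', hx', hxx, hvx, hvx'⟩ := mi_edge (hcn i hi) hv
  obtain ⟨k, hk, hki, s, hvk⟩ : ∃ k ∈ S, k ≠ i ∧ Tc G e v k := by
    obtain ⟨a, ha, b, hb, hab, h2, h3⟩ := two hvR
    by_cases hai : a = i
    · exact ⟨b, hb, fun h => hab (hai.trans h.symm), h3⟩
    · exact ⟨a, ha, hai, h2⟩
  have claim : ∀ k ∈ S, k ≠ i → ∀ s, G.Adj v (e s k) → ∀ z ∈ Rr G e S, z ∉ Kc G e S i →
      ¬ G.Adj z (e s k) → G.Adj v z := by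
    intro k hk hki s hvk z hz hzK hzk
    by_contra hvz
    exact hG x x' v (e s k) z hxx hvx'.symm hvk (fun h => hv.1 (by rw [← h]; exact hx))
      (fun h => hki (htc i hi x' hx' k hk (by rw [h]; exact (hL.tc hk hk s).2 rfl)))
      (fun h => hvx h.symm) (fun h => hki (htc i hi x hx k hk ⟨s, h⟩))
      (fun h => hki (htc i hi x' hx' k hk ⟨s, h⟩)) (fun h => hzK (hcl i hi x hx z hz h))
      (fun h => hzK (hcl i hi x' hx' z hz h)) (fun h => hvz h.symm) hzk
  obtain ⟨j, hj, hji, hjk⟩ : ∃ j ∈ S, j ≠ i ∧ j ≠ k := by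
    classical
    by_contra hcon
    push Not at hcon
    have h2 : S ⊆ {i, k} := fun j hj => by
      rw [Finset.mem_insert, Finset.mem_singleton]
      by_cases h : j = i
      · exact Or.inl h
      · exact Or.inr (hcon j hj h)
    have h3 := Finset.card_le_card h2
    have h4 := Finset.card_le_two (a := i) (b := k)
    omega
  have hvj : G.Adj v (e false j) := claim k hk hki s hvk (e false j) (hL.mem_R hj false)
    (fun h => hji (htc i hi _ h j hj ((hL.tc hj hj false).2 rfl))) (hL.nadj hj hk hjk false s)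
  intro z hz hzK
  by_cases hzk : G.Adj z (e s k)
  · exact claim j hj hji false hvj z hz hzK
      (fun h => hjk (hz j hj k hk ⟨false, h⟩ ⟨s, hzk⟩))
  · exact claim k hk hki s hvk z hz hzK hzk

end Pool.Agent.MPd439b2.P41N
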