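import Pool.Agent.Lib.MP_d439b2_co.P41N.SpecA

/-! # MP_d439b2_co, P41N: all basic facts on the cells -/

set_option autoImplicit false

namespace Pool.Agent.MPd439b2.P41N

open Pool.Agent.MPd439b2 Pool.Agent.MPd439b2.Rep Pool.Agent.MPd439b2.P41 Pool.Agent.MPd439b2.NK

theorem uCe : S_Ce := by
  intro h1 h2 V G e S hG hL hc
  obtain ⟨hcl, htc, hcn⟩ := h1 V G e S hG hL hc
  have hmx := h2 h1 V G e S hG hL hc
  have hdj : ∀ i ∈ S, ∀ j ∈ S, i ≠ j → ∀ x ∈ Kc G e S i, x ∉ Kc G e S j := by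
    intro i hi j hj hij x hx hx'
    obtain ⟨_, hxi | ⟨u, hu, hui, hxu⟩⟩ := hx
    · exact hij (htc j hj x hx' i hi hxi)
    · exact hij (htc j hj u (hcl j hj x hx' u hu hxu.symm) i hi hui)
  refine ⟨hL, hcn, hcl, htc, hmx, ?_⟩
  intro i hi f hf y hy hyK hyf j hj hji
  obtain ⟨k, hk, _, _, _, ⟨s, hyk⟩, _⟩ := two hy
  have hki : k ≠ i := fun h => by
    subst h
    exact hyK _ (hL.mem_K hi s) hyk
  have hfR := (hmx i hi f hf).2
  have hfo : ∀ k ∈ S, k ≠ i → ∀ s, G.Adj f (e s k) := fun k hk hki s =>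
    hfR _ (hL.mem_R hk s) (hdj k hk i hi hki _ (hL.mem_K hk s))
  have hym : y ∉ Mi G (Kc G e S j) := fun h =>
    hyK _ (hL.mem_K hi false) ((hmx j hj y h).2 _ (hL.mem_R hi false)
      (hdj i hi j hj (Ne.symm hji) _ (hL.mem_K hi false)))
  rcases ho (fun h => hy (Kc_sub h)) hym with h3 | h3
  · exact h3
  · exfalso
    have hkj : k ≠ j := fun h => by
      subst h
      exact h3 _ (hL.mem_K hj s) hyk
    obtain ⟨_, ⟨x₁, hx₁, hfx₁⟩, x, hx, hfx⟩ := id hf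
    refine hG y (e s k) f (e false j) x hyk (hfo k hk hki s).symm (hfo j hj hji false)
      ?_ (hL.ne hk hj hkj s false) hyf (h3 _ (hL.mem_K hj false)) (hL.nadj hk hj hkj s false)
      (fun h => hyK x hx h.symm) (fun h => hki (htc i hi x hx k hk ⟨s, h⟩))
      (fun h => hfx h.symm) (fun h => hji (htc i hi x hx j hj ⟨false, h⟩))
    rintro rfl
    exact hyK x₁ hx₁ hfx₁

end Pool.Agent.MPd439b2.P41N
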