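import Pool.Agent.Lib.MP_d439b2_co.P41N.SpecB

/-!
# MP_d439b2_co, P41N, module `Di`: independent sets in digraphs with small outdegrees
-/

set_option autoImplicit false

namespace Pool.Agent.MPd439b2.P41N

open Pool.Agent.MPd439b2 Pool.Agent.MPd439b2.Rep Pool.Agent.MPd439b2.P41 Pool.Agent.MPd439b2.NK

theorem uDi : S_Di := by
  classical
  intro d n
  induction n with
  | zero =>
    intro T D _ _
    exact ⟨∅, Finset.empty_subset _, rfl, by simp⟩
  | succ n ih =>
    intro T D hD hc
    have hT : T.Nonempty := by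
      rw [← Finset.card_pos]
      have : 0 < (2 * d + 1) * (n + 1) := by positivity
      omega
    obtain ⟨j₀, hj₀, hj⟩ := Finset.exists_le_of_sum_le (s := T)
      (f := fun j => (T.filter fun i => j ∈ D i).card) (g := fun _ => d) hT (by
        calc ∑ j ∈ T, (T.filter fun i => j ∈ D i).card =
              ∑ j ∈ T, ∑ i ∈ T, (if j ∈ D i then 1 else 0) :=
              Finset.sum_congr rfl fun j _ => by rw [Finset.card_filter]
          _ = ∑ i ∈ T, ∑ j ∈ T, (if j ∈ D i then 1 else 0) := Finset.sum_comm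
          _ = ∑ i ∈ T, (T.filter fun j => j ∈ D i).card :=
              Finset.sum_congr rfl fun j _ => by rw [Finset.card_filter]
          _ ≤ ∑ _i ∈ T, d := by
              refine Finset.sum_le_sum fun i hi => ?_
              refine le_trans (Finset.card_le_card fun j hj => ?_) (hD i hi).1
              exact (Finset.mem_filter.1 hj).2)
    have hcard : T.card ≤ (T.filter fun i => i ≠ j₀ ∧ i ∉ D j₀ ∧ j₀ ∉ D i).card + (2 * d + 1) := by
      have h1 : T ⊆ (T.filter fun i => i ≠ j₀ ∧ i ∉ D j₀ ∧ j₀ ∉ D i) ∪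
          ({j₀} ∪ (D j₀ ∪ T.filter fun i => j₀ ∈ D i)) := by
        intro i hi
        simp only [Finset.mem_union, Finset.mem_filter, Finset.mem_singleton]
        tauto
      have h2 := Finset.card_le_card h1
      have h3 := Finset.card_union_le (T.filter fun i => i ≠ j₀ ∧ i ∉ D j₀ ∧ j₀ ∉ D i)
        ({j₀} ∪ (D j₀ ∪ T.filter fun i => j₀ ∈ D i))
      have h4 := Finset.card_union_le {j₀} (D j₀ ∪ T.filter fun i => j₀ ∈ D i)
      have h5 := Finset.card_union_le (D j₀) (T.filter fun i => j₀ ∈ D i)
      have h6 := (hD j₀ hj₀).1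
      have h7 : ({j₀} : Finset ℕ).card = 1 := Finset.card_singleton _
      have h8 : (T.filter fun i => j₀ ∈ D i).card ≤ d := hj
      omega
    obtain ⟨T', hT', hc', hi'⟩ := ih (T.filter fun i => i ≠ j₀ ∧ i ∉ D j₀ ∧ j₀ ∉ D i) D
      (fun i hi => hD i (Finset.mem_filter.1 hi).1) (by
        have : (2 * d + 1) * (n + 1) = (2 * d + 1) * n + (2 * d + 1) := by ring
        omega)
    have hj₀T : j₀ ∉ T' := fun h => (Finset.mem_filter.1 (hT' h)).2.1 rfl
    refine ⟨insert j₀ T', ?_, ?_, ?_⟩
    · intro i hi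
      rcases Finset.mem_insert.1 hi with rfl | h
      · exact hj₀
      · exact (Finset.mem_filter.1 (hT' h)).1
    · rw [Finset.card_insert_of_notMem hj₀T, hc']
    · intro i hi j hj2
      rcases Finset.mem_insert.1 hi with rfl | h
      · rcases Finset.mem_insert.1 hj2 with rfl | h'
        · exact (hD _ hj₀).2
        · exact (Finset.mem_filter.1 (hT' h')).2.2.1
      · rcases Finset.mem_insert.1 hj2 with rfl | h'
        · exact (Finset.mem_filter.1 (hT' h)).2.2.2
        · exact hi' i h j h'

end Pool.Agent.MPd439b2.P41N
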