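import Pool.Agent.Lib.MP_d439b2_co.P41N.SpecB

/-!
# MP_d439b2_co, `P41N/Dm`: cells with their mixed vertices are disjoint
-/

set_option autoImplicit false

namespace Pool.Agent.MPd439b2.P41N

open Pool.Agent.MPd439b2 Pool.Agent.MPd439b2.Rep Pool.Agent.MPd439b2.P41 Pool.Agent.MPd439b2.NK

theorem uDm : S_Dm := by
  intro hW0 hCe hGc hNe hMg V _ G B b N n₁ q Y EX hEn hY hX C C' hC hC' hE hE' hne
  obtain ⟨-, mg⟩ := hMg hW0 hCe hGc hNe V G B b N n₁ q hEn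
  have hd := (mg C C' hC.1 hC'.1 hne).1
  obtain ⟨-, -, g1, g2, -⟩ := hGc hW0 hCe V G B b N n₁ q C hEn hC.1.1
  obtain ⟨-, -, g1', g2', -⟩ := hGc hW0 hCe V G B b N n₁ q C' hEn hC'.1.1
  rw [Set.disjoint_left]
  rintro w (hw | hw) (hw' | hw')
  · exact Set.disjoint_left.1 hd hw hw'
  · exact Set.disjoint_left.1 g2 hw (g1' hw')
  · exact Set.disjoint_left.1 g2' hw' (g1 hw)
  · obtain ⟨-, -, x, hx, hwx⟩ := hw'
    rcases hX C hC hE w hw x hwx with h | h | h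
    · exact Set.disjoint_left.1 hd h hx
    · exact Set.disjoint_left.1 g2' hx (g1 h)
    · exact Set.disjoint_left.1 (hY C' hC' hE') hx h

end Pool.Agent.MPd439b2.P41N
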