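import Pool.Agent.Lib.MP_d439b2_co.P41N.SpecB

/-!
# MP_d439b2_co, P41N: the exceptional vertices and cells (statement `S_Ex`)
-/

set_option autoImplicit false

namespace Pool.Agent.MPd439b2.P41N

open Pool.Agent.MPd439b2 Pool.Agent.MPd439b2.Rep Pool.Agent.MPd439b2.P41 Pool.Agent.MPd439b2.NK

theorem uEx : S_Ex := by
  classical
  intro hF hW hCe hGc hNe hMg b N n₁ q
  obtain ⟨R₀, hR⟩ := hF b N n₁ q
  refine ⟨R₀, fun V _ G B hE => ?_⟩
  rcases isEmpty_or_nonempty V with hV | hV
  · exact ⟨∅, ∅, by simp, by simp, fun C _ _ => Set.disjoint_empty C,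
      fun C _ _ w => hV.elim w⟩
  obtain ⟨v₀⟩ := hV
  have hP0 : ∃ (C : ℕ → Set V) (w y : ℕ → V), Fy G B b n₁ q 0 C w y :=
    ⟨fun _ => ∅, fun _ => v₀, fun _ => v₀, ⟨fun i hi => absurd hi (Nat.not_lt_zero i),
      fun i hi => absurd hi (Nat.not_lt_zero i), fun i hi => absurd hi (Nat.not_lt_zero i),
      fun i hi => absurd hi (Nat.not_lt_zero i)⟩⟩
  have hmax : ∃ n, (∃ (C : ℕ → Set V) (w y : ℕ → V), Fy G B b n₁ q n C w y) ∧
      ¬ ∃ (C : ℕ → Set V) (w y : ℕ → V), Fy G B b n₁ q (n + 1) C w y := by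
    by_contra hcon
    have h : ∀ n, ∃ (C : ℕ → Set V) (w y : ℕ → V), Fy G B b n₁ q n C w y := by
      intro n
      induction n with
      | zero => exact hP0
      | succ n ih => exact by_contra fun h => hcon ⟨n, ih, h⟩
    obtain ⟨C, w, y, h⟩ := h R₀
    exact lt_irrefl _ (hR V G B R₀ C w y hE h)
  obtain ⟨n, ⟨C, w, y, hFy⟩, hno⟩ := hmax
  have hn : n ≤ R₀ := (hR V G B n C w y hE hFy).le
  set Y : Set V := ⋃ i ∈ Finset.range n, insert (y i) {u | ¬ G.Adj (w i) u} with hY
  have hmY : ∀ i < n, y i ∈ Y ∧ ∀ u, ¬ G.Adj (w i) u → u ∈ Y := by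
    intro i hi
    rw [hY]
    refine ⟨Set.mem_iUnion₂.2 ⟨i, Finset.mem_range.2 hi, Set.mem_insert _ _⟩, fun u hu =>
      Set.mem_iUnion₂.2 ⟨i, Finset.mem_range.2 hi, Set.mem_insert_of_mem _ hu⟩⟩
  have hYc : Y.ncard ≤ R₀ * (b + 1) := by
    have h1 : Y.ncard ≤ ∑ i ∈ Finset.range n, (insert (y i) {u | ¬ G.Adj (w i) u}).ncard :=
      Finset.set_ncard_biUnion_le _ _
    have h2 : ∑ i ∈ Finset.range n, (insert (y i) {u | ¬ G.Adj (w i) u}).ncard ≤
        ∑ i ∈ Finset.range n, (b + 1) := by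
      refine Finset.sum_le_sum fun i hi => ?_
      have hi' := Finset.mem_range.1 hi
      refine (Set.ncard_insert_le _ _).trans (Nat.succ_le_succ ?_)
      exact (hGc hW hCe V G B b N n₁ q (C i) hE (hFy.rc i hi').1.1).2.2.1 (hFy.wm i hi')
    rw [Finset.sum_const, Finset.card_range, smul_eq_mul] at h2
    exact h1.trans (h2.trans (Nat.mul_le_mul_right _ hn))
  have hEX : (C '' (Finset.range n : Set ℕ) ∪
      {K | RC G B b n₁ q K ∧ ¬ Disjoint K Y}).ncard ≤ R₀ + R₀ * (b + 1) := by
    refine (Set.ncard_union_le _ _).trans (add_le_add ?_ (le_trans ?_ hYc))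
    · refine (Set.ncard_image_le (Finset.finite_toSet _)).trans ?_
      rw [Set.ncard_coe_finset, Finset.card_range]
      exact hn
    · have h1 : ∀ K : Set V, ∃ x, ¬ Disjoint K Y → x ∈ K ∧ x ∈ Y := by
        intro K
        by_cases h : Disjoint K Y
        · exact ⟨v₀, fun h' => absurd h h'⟩
        · obtain ⟨x, hx⟩ := Set.not_disjoint_iff.1 h
          exact ⟨x, fun _ => hx⟩
      choose f hf using h1
      refine Set.ncard_le_ncard_of_injOn f (fun K hK => (hf K hK.2).2) ?_ (Set.toFinite _)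
      intro K hK K' hK' h
      by_contra hne
      have h2 := ((hMg hW hCe hGc hNe V G B b N n₁ q hE).2 K K' hK.1.1 hK'.1.1 hne).1
      exact Set.disjoint_left.1 h2 (hf K hK.2).1 (h ▸ (hf K' hK'.2).1)
  refine ⟨Y, _, hYc, hEX, ?_, ?_⟩
  · intro K hK hK'
    by_contra h
    exact hK' (Or.inr ⟨hK, h⟩)
  · intro K hK hK' w' hw' u hu
    by_contra hcon
    push Not at hcon
    obtain ⟨hu1, hu2, hu3⟩ := hcon
    have hCK : ∀ i < n, C i ≠ K := fun i hi h => hK' (Or.inl ⟨i, by simpa using hi, h⟩)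
    have hwK : ∀ i < n, w i ≠ w' := fun i hi h => hu3 ((hmY i hi).2 u (h ▸ hu))
    have hyK : ∀ i < n, y i ≠ u := fun i hi h => hu3 (h ▸ (hmY i hi).1)
    refine hno ⟨fun i => if i < n then C i else K, fun i => if i < n then w i else w',
      fun i => if i < n then y i else u, ⟨?_, ?_, ?_, ?_⟩⟩
    · intro i _
      by_cases h : i < n
      · simp only [if_pos h]
        exact hFy.rc i h
      · simp only [if_neg h]
        exact hK
    · intro i _
      by_cases h : i < n
      · simp only [if_pos h]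
        exact hFy.wm i h
      · simp only [if_neg h]
        exact hw'
    · intro i _
      by_cases h : i < n
      · simp only [if_pos h]
        exact hFy.yo i h
      · simp only [if_neg h]
        exact ⟨hu1, hu2, hu⟩
    · intro i hi j hj hij
      by_cases h : i < n
      · by_cases h' : j < n
        · simp only [if_pos h, if_pos h']
          exact hFy.df i h j h' hij
        · simp only [if_pos h, if_neg h']
          exact ⟨hCK i h, hwK i h, hyK i h⟩
      · by_cases h' : j < n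
        · simp only [if_neg h, if_pos h']
          exact ⟨(hCK j h').symm, (hwK j h').symm, (hyK j h').symm⟩
        · exact absurd (by omega) hij

end Pool.Agent.MPd439b2.P41N
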