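import Pool.Agent.Lib.MP_d439b2_co.P41N.SpecB

/-!
# MP_d439b2_co, P41N, `Fb`: families of cells with non-adjacent pairs are short
-/

set_option autoImplicit false

namespace Pool.Agent.MPd439b2.P41N

open Pool.Agent.MPd439b2 Pool.Agent.MPd439b2.Rep Pool.Agent.MPd439b2.P41 Pool.Agent.MPd439b2.NK

private theorem fb_cp {V : Type} {G : SimpleGraph V} {X Y : Set V} (h : Cp G X Y) : Cp G Y X :=
  fun x hx y hy => (h y hy x hx).symm

private theorem fb_an {V : Type} {G : SimpleGraph V} {X Y : Set V} (h : An G X Y) : An G Y X :=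
  fun x hx y hy hh => h y hy x hx hh.symm

theorem uFb : S_Fb := by
  intro hAl hPc hR hW0 hCe hGc hNe hMg b N n₁ q
  classical
  obtain ⟨m₁, hm₁⟩ := hAl N n₁
  obtain ⟨m₂, hm₂⟩ := hPc b q
  obtain ⟨R₀, hR₀⟩ := hR Bool (max m₁ m₂)
  refine ⟨R₀, fun V _ G B n C w y hE hF => ?_⟩
  by_contra hn
  rw [not_lt] at hn
  obtain ⟨s, c, hs, hsN, hc⟩ := hR₀ fun i j => decide (Cp G (C i) (C j))
  have hsn : ∀ k < max m₁ m₂, s k < n := fun k hk => lt_of_lt_of_le (hsN k hk) hn
  have hne : ∀ i < max m₁ m₂, ∀ j < max m₁ m₂, i ≠ j → s i ≠ s j := by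
    intro i hi j hj hij
    rcases lt_or_gt_of_ne hij with h | h
    · exact (hs i j h hj).ne
    · exact (hs j i h hi).ne'
  cases c with
  | true =>
    have h1 : ∀ k < m₂, k < max m₁ m₂ := fun k hk => lt_of_lt_of_le hk (le_max_right _ _)
    have hcp : ∀ i < max m₁ m₂, ∀ j < max m₁ m₂, i ≠ j → Cp G (C (s i)) (C (s j)) := by
      intro i hi j hj hij
      rcases lt_or_gt_of_ne hij with h | h
      · exact of_decide_eq_true (hc i j h hj)
      · exact fb_cp (of_decide_eq_true (hc j i h hi))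
    refine hm₂ V G B N n₁ (fun i => C (s i)) (fun i => w (s i)) hE
      (fun i hi => ⟨hF.rc _ (hsn i (h1 i hi)), hF.wm _ (hsn i (h1 i hi))⟩) ?_
    intro i hi j hj hij
    exact ⟨hcp i (h1 i hi) j (h1 j hj) hij,
      (hF.df _ (hsn i (h1 i hi)) _ (hsn j (h1 j hj)) (hne i (h1 i hi) j (h1 j hj) hij)).2.1⟩
  | false =>
    have h1 : ∀ k < m₁, k < max m₁ m₂ := fun k hk => lt_of_lt_of_le hk (le_max_left _ _)
    have hmg : ∀ i < max m₁ m₂, MG G B b n₁ (C (s i)) := fun i hi => (hF.rc _ (hsn i hi)).1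
    have han1 : ∀ i j, i < j → j < max m₁ m₂ → An G (C (s i)) (C (s j)) := by
      intro i j hij hj
      have hi := hij.trans hj
      have h2 : ¬ Cp G (C (s i)) (C (s j)) := of_decide_eq_false (hc i j hij hj)
      have h3 := ((hMg hW0 hCe hGc hNe V G B b N n₁ q hE).2 _ _ (hmg i hi) (hmg j hj)
        (hF.df _ (hsn i hi) _ (hsn j hj) (hne i hi j hj hij.ne)).1).2
      exact h3.resolve_left h2
    have han : ∀ i < max m₁ m₂, ∀ j < max m₁ m₂, i ≠ j → An G (C (s i)) (C (s j)) := by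
      intro i hi j hj hij
      rcases lt_or_gt_of_ne hij with h | h
      · exact han1 i j h hj
      · exact fb_an (han1 j i h hi)
    refine hm₁ V G B b q (fun i => C (s i)) (fun i => w (s i)) (fun i => y (s i)) hE
      (fun i hi => ⟨hmg i (h1 i hi), hF.wm _ (hsn i (h1 i hi)), hF.yo _ (hsn i (h1 i hi))⟩) ?_
    intro i hi j hj hij
    exact ⟨han i (h1 i hi) j (h1 j hj) hij,
      (hF.df _ (hsn i (h1 i hi)) _ (hsn j (h1 j hj)) (hne i (h1 i hi) j (h1 j hj) hij)).2.2⟩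

end Pool.Agent.MPd439b2.P41N
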