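import Pool.Agent.Lib.MP_d439b2_co.P41N.SpecB

/-! # MP_d439b2_co, P41N: properties of a good cell -/

set_option autoImplicit false

namespace Pool.Agent.MPd439b2.P41N

open Pool.Agent.MPd439b2 Pool.Agent.MPd439b2.Rep Pool.Agent.MPd439b2.P41 Pool.Agent.MPd439b2.NK

theorem uGc : S_Gc := by
  intro h0 hCe V _ G B b N n₁ q K hE hK
  obtain ⟨e, S, hL, hS, i, hi, hg, rfl⟩ := hK
  have h5 : 5 ≤ S.card := hE.hN.trans (hE.h1.trans hS)
  have hC : Ce G e S := hCe V G e S hE.fp hL h5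
  refine ⟨hC.cn i hi, hg.1, hg.2, ?_, e false i, hL.mem_K hi false, e true i, hL.mem_K hi true,
    hL.adj hi false⟩
  rw [Set.disjoint_left]
  intro x hx hxw
  exact h0 V G B b N n₁ q e S hE hL hS x (Kc_sub hx) hxw

end Pool.Agent.MPd439b2.P41N
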