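import Pool.Agent.Lib.MP_d439b2_co.P41N.SpecA

/-! # MP_d439b2_co, P41N/Gh: a homogeneous matching has a good letter -/

set_option autoImplicit false

namespace Pool.Agent.MPd439b2.P41N

open Pool.Agent.MPd439b2 Pool.Agent.MPd439b2.Rep Pool.Agent.MPd439b2.P41 Pool.Agent.MPd439b2.NK

private theorem gh_three (T : Finset ℕ) (hT : T.card = 3) :
    ∃ a ∈ T, ∃ i ∈ T, ∃ b ∈ T, a < i ∧ i < b :=
  ⟨_, T.orderEmbOfFin_mem hT ⟨0, by omega⟩, _, T.orderEmbOfFin_mem hT ⟨1, by omega⟩,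
    _, T.orderEmbOfFin_mem hT ⟨2, by omega⟩, (T.orderEmbOfFin hT).lt_iff_lt.2 (by simp),
    (T.orderEmbOfFin hT).lt_iff_lt.2 (by simp)⟩

theorem uGh : S_Gh := by
  intro hCT hSg hTr hQm hRa
  obtain ⟨m, hm⟩ := hCT 3
  refine ⟨max m 1, ?_⟩
  set m₁ := max m 1 with hm₁
  have hmm : m ≤ m₁ := le_max_left _ _
  have hm1 : 1 ≤ m₁ := le_max_right _ _
  clear_value m₁
  intro β V _ G e H hFP hJ hLink hCe hcard hHm
  have hNCr : NCr (Tc G e) H := hTr V G e H hFP hCe.ls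
  set Q : ℕ → V → Prop := fun i y => y ∉ Rr G e H ∧ y ∉ Mi G (Kc G e H i) ∧
    ∃ f ∈ Mi G (Kc G e H i), ¬ G.Adj f y with hQ
  obtain ⟨I₀, hI₀, hI₀c, Y₀, hY₀c, hY₀⟩ := hQm V Q H m₁ hm1 (by
    intro T hT hTc y hy
    by_contra hcon
    push Not at hcon
    have hex : ∀ i, ∃ w : V, i ∈ T → w ∈ Mi G (Kc G e H i) ∧ ¬ G.Adj w (y i) := by
      intro i
      by_cases hi : i ∈ T
      · obtain ⟨-, -, w, hw1, hw2⟩ := hcon i hi
        exact ⟨w, fun _ => ⟨hw1, hw2⟩⟩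
      · exact ⟨y i, fun h => absurd h hi⟩
    choose f hf using hex
    obtain ⟨T', hT', hT'c, hT'2⟩ := hm V G e H T f y hJ hCe hT (by omega)
      (fun i hi => ⟨(hf i hi).1, (hcon i hi).1, (hcon i hi).2.1, (hf i hi).2⟩) hy
    obtain ⟨a, ha, i, hi, b, hb, hai, hib⟩ := gh_three T' hT'c
    have hsub : ∀ j ∈ T', j ∈ H := fun j hj => hT (hT' hj)
    have hnt : ∀ j ∈ T', j ≠ i → ¬ Tc G e (y i) j := by
      rintro j hj hji ⟨s, hs⟩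
      exact (hT'2 i hi).2 j hj hji _ (hCe.ls.mem_K (hsub j hj) s) hs
    have hti : Tc G e (y i) i := ⟨false, (hT'2 i hi).1 _ (hCe.ls.mem_K (hsub i hi) false)⟩
    have h1 := hSg V (Tc G e) H (by omega) hHm hNCr (y i) a (hsub a ha) i (hsub i hi) b
      (hsub b hb) hai hib (hnt a ha hai.ne) hti (hnt b hb hib.ne')
    exact (hcon i (hT' hi)).1 fun j hj k hk hj2 hk2 => (h1 j hj hj2).trans (h1 k hk hk2).symm)
  have hle : ∀ i ∈ H, i ∉ I₀ → ((Kc G e H i ∪ Mi G (Kc G e H i)).ncard ≤ β (2 ^ m₁ + 1) ∨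
      (Kc G e H i ∪ Mi G (Kc G e H i))ᶜ.ncard ≤ β (2 ^ m₁ + 1)) ∧
      ∀ f ∈ Mi G (Kc G e H i), {u | ¬ G.Adj f u} ⊆
        (Kc G e H i ∪ Mi G (Kc G e H i)) ∪ (Y₀ : Set V) := by
    intro i hi hi0
    obtain ⟨h1, h2⟩ := hRa V G e H i Y₀ hCe hi (fun f hf y hy1 hy2 hy3 =>
      hY₀ i hi hi0 y ⟨hy1, hy2, f, hf, hy3⟩)
    refine ⟨hLink _ le_rfl _ (h1.trans ?_), h2⟩
    have : 2 ^ Y₀.card ≤ 2 ^ m₁ := Nat.pow_le_pow_right (by decide) hY₀c.le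
    omega
  have hdis : ∀ i ∈ H, ∀ j ∈ H, i ≠ j → Disjoint (Kc G e H i ∪ Mi G (Kc G e H i))
      (Kc G e H j ∪ Mi G (Kc G e H j)) := by
    intro i hi j hj hij
    rw [Set.disjoint_left]
    rintro x (h1 | h1) (h2 | h2)
    · exact Set.disjoint_left.1 (hCe.dj hi hj hij) h1 h2
    · exact (hCe.mx j hj x h2).1 (Kc_sub h1)
    · exact (hCe.mx i hi x h1).1 (Kc_sub h2)
    · exact hCe.mdj hi hj hij h1 h2
  obtain ⟨i, hi, hi0, hsmall⟩ : ∃ i ∈ H, i ∉ I₀ ∧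
      (Kc G e H i ∪ Mi G (Kc G e H i)).ncard ≤ β (2 ^ m₁ + 1) := by
    have h1 : 1 < (H \ I₀).card := by
      have := Finset.card_sdiff_add_card_eq_card hI₀
      omega
    obtain ⟨i, hi, j, hj, hij⟩ := Finset.one_lt_card.1 h1
    rw [Finset.mem_sdiff] at hi hj
    rcases (hle i hi.1 hi.2).1 with h2 | h2
    · exact ⟨i, hi.1, hi.2, h2⟩
    · refine ⟨j, hj.1, hj.2, le_trans (Set.ncard_le_ncard ?_ (Set.toFinite _)) h2⟩
      exact Set.subset_compl_iff_disjoint_left.2 (hdis i hi.1 j hj.1 hij)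
  refine ⟨i, hi, hsmall, fun f hf => ?_⟩
  show {u | ¬ G.Adj f u}.ncard ≤ _
  refine (Set.ncard_le_ncard ((hle i hi hi0).2 f hf) (Set.toFinite _)).trans ?_
  refine (Set.ncard_union_le _ _).trans ?_
  rw [Set.ncard_coe_finset]
  omega

end Pool.Agent.MPd439b2.P41N
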