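import Pool.Agent.Lib.MP_d439b2_co.P41N.SpecA

/-!
# MP_d439b2_co, P41N/Gn: part A, every large matching has a good letter
-/

set_option autoImplicit false

namespace Pool.Agent.MPd439b2.P41N

open Pool.Agent.MPd439b2 Pool.Agent.MPd439b2.Rep Pool.Agent.MPd439b2.P41 Pool.Agent.MPd439b2.NK

theorem uGn : S_Gn := by
  intro hT hSg hTr hQm hRa hGh hSr hC1 hC2 hCe
  obtain ⟨m₁, hm₁⟩ := hGh hT hSg hTr hQm hRa
  obtain ⟨N, hN⟩ := hSr (m₁ + 8)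
  refine ⟨2 ^ m₁ + 1, max 5 N, m₁, le_max_left _ _, ?_⟩
  intro β V _ G hF hJ hL e S hS hc
  obtain ⟨H, hHS, hHc, hH4⟩ := hN V (Tc G e) S ((le_max_right _ _).trans hc)
  have h5 : 5 ≤ H.card := by omega
  have hCS : Ce G e S := hCe hC1 hC2 V G e S hF hS ((le_max_left _ _).trans hc)
  have hCH : Ce G e H := hCe hC1 hC2 V G e H hF (hS.mono hHS) h5
  obtain ⟨i, hi, hg⟩ := hm₁ β V G e H hF hJ hL hCH hHc.ge hH4
  exact ⟨i, hHS hi, hCS.gi hHS (by omega) hi hg⟩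

end Pool.Agent.MPd439b2.P41N
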