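import Pool.Agent.Lib.MP_d439b2_co.P41N.SpecA

/-! # MP_d439b2_co, P41N/JM: a model of `J4` from sets -/

set_option autoImplicit false

namespace Pool.Agent.MPd439b2.P41N

open Pool.Agent.MPd439b2 Pool.Agent.MPd439b2.Rep Pool.Agent.MPd439b2.P41 Pool.Agent.MPd439b2.NK

private def jmS {V : Type} (c a b : V) (P Q : ℕ → Set V) : ℕ → Set V
  | 0 => {c}
  | 1 => {a}
  | 2 => {b}
  | n + 3 => if n % 2 = 0 then P (n / 2) else Q (n / 2)

private theorem jm_tab : ∀ n < 8, ∀ m < n, (rJ4 (n + 3) (m + 3) = true ↔ ¬ (n % 2 = 1 ∧ m + 1 = n)) := by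
  decide

private theorem jm_tab0 : ∀ n < 8, rJ4 (n + 3) 0 = true ∧ rJ4 (n + 3) 1 = true ∧ rJ4 (n + 3) 2 = true := by
  decide

theorem uJM : S_JM := by
  intro V G c a b P Q hC hca hcb nca ncb hab hne hdj hdPQ hnt ht hts
  have he : ∀ n, n % 2 = 0 → jmS c a b P Q (n + 3) = P (n / 2) := fun n hn => if_pos hn
  have ho : ∀ n, n % 2 = 1 → jmS c a b P Q (n + 3) = Q (n / 2) := fun n hn => if_neg (by omega)
  have e0 : jmS c a b P Q 0 = {c} := rfl
  have e1 : jmS c a b P Q 1 = {a} := rfl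
  have e2 : jmS c a b P Q 2 = {b} := rfl
  have hlow : ∀ n < 8, (c ∉ jmS c a b P Q (n + 3) ∧ a ∉ jmS c a b P Q (n + 3) ∧
      b ∉ jmS c a b P Q (n + 3)) ∧ Tch G {c} (jmS c a b P Q (n + 3)) ∧
      Tch G {a} (jmS c a b P Q (n + 3)) ∧ Tch G {b} (jmS c a b P Q (n + 3)) ∧
      Conn G (jmS c a b P Q (n + 3)) := by
    intro n hn
    have h4 : n / 2 < 4 := by omega
    obtain ⟨n1, n2, n3, n4, n5, n6⟩ := hne _ h4
    obtain ⟨t1, t2, t3, t4, t5, t6⟩ := hts _ h4
    rcases Nat.mod_two_eq_zero_or_one n with h | h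
    · rw [he n h]; exact ⟨⟨n1, n2, n3⟩, t1, t2, t3, (hC _ h4).1⟩
    · rw [ho n h]; exact ⟨⟨n4, n5, n6⟩, t4, t5, t6, (hC _ h4).2⟩
  have hhigh : ∀ n < 8, ∀ m < n, Disjoint (jmS c a b P Q (n + 3)) (jmS c a b P Q (m + 3)) ∧
      (Tch G (jmS c a b P Q (n + 3)) (jmS c a b P Q (m + 3)) ↔ rJ4 (n + 3) (m + 3) = true) := by
    intro n hn m hm
    rw [jm_tab n hn m hm]
    have h4 : n / 2 < 4 := by omega
    have h4' : m / 2 < 4 := by omega
    rcases Nat.mod_two_eq_zero_or_one n with h | h <;> rcases Nat.mod_two_eq_zero_or_one m with h' | h'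
    · have hne : n / 2 ≠ m / 2 := by omega
      rw [he n h, he m h']
      exact ⟨(hdj _ h4 _ h4' hne).1, fun _ => by omega, fun _ => (ht _ h4 _ h4' hne).1⟩
    · have hne : n / 2 ≠ m / 2 := by omega
      rw [he n h, ho m h']
      exact ⟨hdPQ _ h4 _ h4', fun _ => by omega, fun _ => (ht _ h4 _ h4' hne).2.1⟩
    · rw [ho n h, he m h']
      refine ⟨(hdPQ _ h4' _ h4).symm, ?_⟩
      by_cases hmn : m + 1 = n
      · have e : n / 2 = m / 2 := by omega
        rw [e]
        exact ⟨fun h1 => absurd h1.symm (hnt _ h4'), fun h1 => absurd ⟨h, hmn⟩ h1⟩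
      · exact ⟨fun _ => by omega, fun _ => (ht _ h4' _ h4 (by omega)).2.1.symm⟩
    · have hne : n / 2 ≠ m / 2 := by omega
      rw [ho n h, ho m h']
      exact ⟨(hdj _ h4 _ h4' hne).2, fun _ => by omega, fun _ => (ht _ h4 _ h4' hne).2.2⟩
  refine ims_J4 (S := jmS c a b P Q) ⟨fun _ _ => Set.subset_univ _, ?_, ?_, ?_⟩
  · intro i hi
    rcases i with _ | _ | _ | i
    · exact Conn.singleton G c
    · exact Conn.singleton G a
    · exact Conn.singleton G b
    · exact (hlow i (by omega)).2.2.2.2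
  · intro i hi j hj
    rcases i with _ | _ | _ | i
    · omega
    · rcases j with _ | j
      · exact Set.disjoint_singleton.2 hca.symm
      · omega
    · rcases j with _ | _ | j
      · exact Set.disjoint_singleton.2 hcb.symm
      · exact Set.disjoint_singleton.2 hab.ne'
      · omega
    · obtain ⟨⟨n1, n2, n3⟩, -⟩ := hlow i (by omega)
      rcases j with _ | _ | _ | j
      · exact Set.disjoint_singleton_right.2 n1
      · exact Set.disjoint_singleton_right.2 n2
      · exact Set.disjoint_singleton_right.2 n3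
      · exact (hhigh i (by omega) j (by omega)).1
  · intro i hi j hj
    rcases i with _ | _ | _ | i
    · omega
    · rcases j with _ | j
      · show Tch G {a} {c} ↔ _
        rw [BU.tch_single]
        exact ⟨fun h => absurd h.symm nca, fun h => absurd h (by decide)⟩
      · omega
    · rcases j with _ | _ | j
      · show Tch G {b} {c} ↔ _
        rw [BU.tch_single]
        exact ⟨fun h => absurd h.symm ncb, fun h => absurd h (by decide)⟩
      · show Tch G {b} {a} ↔ _
        rw [BU.tch_single]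
        exact ⟨fun _ => by decide, fun _ => hab.symm⟩
      · omega
    · obtain ⟨-, t1, t2, t3, -⟩ := hlow i (by omega)
      obtain ⟨r1, r2, r3⟩ := jm_tab0 i (by omega)
      rcases j with _ | _ | _ | j
      · exact ⟨fun _ => r1, fun _ => t1.symm⟩
      · exact ⟨fun _ => r2, fun _ => t2.symm⟩
      · exact ⟨fun _ => r3, fun _ => t3.symm⟩
      · exact (hhigh i (by omega) j (by omega)).2

end Pool.Agent.MPd439b2.P41N
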