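import Pool.Agent.Lib.MP_d439b2_co.P41N.SpecA

/-!
# MP_d439b2_co, P41N: Lemma T
-/

set_option autoImplicit false

namespace Pool.Agent.MPd439b2.P41N

open Pool.Agent.MPd439b2 Pool.Agent.MPd439b2.Rep Pool.Agent.MPd439b2.P41 Pool.Agent.MPd439b2.NK

theorem uLT : S_LT := by
  intro hRam hJM hT1 hT2 hT3 hTH s
  obtain ⟨m, hm⟩ := hTH hRam (max s 10)
  refine ⟨m, fun V G e S T f y hJ hCe hTS hmT hfy hinj => ?_⟩
  obtain ⟨σ, x, x', εf, εy, c, a, b, hσT, hσm, hHs⟩ := hm V G e S T f y hCe hTS hmT hfy hinj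
  have h10 : 10 ≤ max s 10 := le_max_right _ _
  have hεf := hT1 V G _ _ _ _ _ _ _ _ _ _ _ _ hHs h10 hJ
  have hc := hT2 hJM V G _ _ _ _ _ _ _ _ _ _ _ _ hHs h10 hJ
  obtain ⟨ha, hb⟩ := hT3 hJM V G _ _ _ _ _ _ _ _ _ _ _ _ hHs h10 hJ hεf hc
  have hs : ∀ p, p < s → p < max s 10 := fun p hp => lt_of_lt_of_le hp (le_max_left _ _)
  have hσi : ∀ p < s, ∀ q < s, σ p = σ q → p = q := by
    intro p hp q hq h
    rcases lt_trichotomy p q with h1 | h1 | h1
    · exact absurd h (hσm p q h1 (hs q hq)).ne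
    · exact h1
    · exact absurd h (hσm q p h1 (hs p hp)).ne'
  refine ⟨(Finset.range s).image σ, ?_, ?_, ?_⟩
  · intro i hi
    obtain ⟨p, hp, rfl⟩ := Finset.mem_image.1 hi
    exact hσT p (hs p (Finset.mem_range.1 hp))
  · rw [Finset.card_image_of_injOn, Finset.card_range]
    intro p hp q hq h
    exact hσi p (Finset.mem_range.1 hp) q (Finset.mem_range.1 hq) h
  · intro i hi
    obtain ⟨p, hp, rfl⟩ := Finset.mem_image.1 hi
    have hp' := hs p (Finset.mem_range.1 hp)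
    refine ⟨fun u hu => (hHs.yc p hp' u hu).2 hc, ?_⟩
    intro j hj hji u hu hadj
    obtain ⟨q, hq, rfl⟩ := Finset.mem_image.1 hj
    have hq' := hs q (Finset.mem_range.1 hq)
    rcases lt_trichotomy p q with h1 | h1 | h1
    · have := (hHs.ya p hp' q hq' h1 u hu).1 hadj
      rw [ha] at this
      exact Bool.false_ne_true this
    · exact hji (by rw [h1])
    · have := (hHs.yb p hp' q hq' h1 u hu).1 hadj
      rw [hb] at this
      exact Bool.false_ne_true this

end Pool.Agent.MPd439b2.P41N
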