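import Pool.Agent.Lib.MP_d439b2_co.P41N.SpecB

/-! # MP_d439b2_co, P41N: maximal good cells -/

set_option autoImplicit false

namespace Pool.Agent.MPd439b2.P41N

open Pool.Agent.MPd439b2 Pool.Agent.MPd439b2.Rep Pool.Agent.MPd439b2.P41 Pool.Agent.MPd439b2.NK

theorem uMg : S_Mg := by
  intro h0 hCe hGc hNe V _ G B b N n₁ q hE
  constructor
  · intro K hK
    obtain ⟨C, hKC, hC⟩ := Set.Finite.exists_le_maximal
      (Set.toFinite {K | GC G B b n₁ K}) hK
    exact ⟨C, ⟨hC.1, fun K' hK' h => hC.2 hK' h⟩, hKC⟩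
  · intro C C' hC hC' hne
    have hdj : Disjoint C C' := by
      rcases hNe h0 hCe hGc V G B b N n₁ q C C' hE hC.1 hC'.1 with h | h | h
      · exact absurd (Set.Subset.antisymm h (hC.2 C' hC'.1 h)) hne
      · exact absurd (Set.Subset.antisymm (hC'.2 C hC.1 h) h) hne
      · exact h
    refine ⟨hdj, ?_⟩
    obtain ⟨-, -, hMi, hw, -⟩ := hGc h0 hCe V G B b N n₁ q C hE hC.1
    obtain ⟨-, -, hMi', hw', -⟩ := hGc h0 hCe V G B b N n₁ q C' hE hC'.1
    have h1 : ∀ x ∈ C, (∀ y ∈ C', G.Adj x y) ∨ ∀ y ∈ C', ¬ G.Adj x y := fun x hx =>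
      ho (Set.disjoint_left.1 hdj hx) (fun h => Set.disjoint_left.1 hw hx (hMi' h))
    have h2 : ∀ y ∈ C', (∀ x ∈ C, G.Adj y x) ∨ ∀ x ∈ C, ¬ G.Adj y x := fun y hy =>
      ho (Set.disjoint_right.1 hdj hy) (fun h => Set.disjoint_left.1 hw' hy (hMi h))
    by_cases h3 : ∃ x ∈ C, ∃ y ∈ C', G.Adj x y
    · left
      obtain ⟨x, hx, y, hy, hxy⟩ := h3
      intro x' hx' y' hy'
      have h4 : ∀ y ∈ C', G.Adj x y := (h1 x hx).resolve_right fun h => h y hy hxy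
      have h5 : ∀ x ∈ C, G.Adj y' x := (h2 y' hy').resolve_right fun h => h x hx (h4 y' hy').symm
      exact (h5 x' hx').symm
    · right
      intro x hx y hy hxy
      exact h3 ⟨x, hx, y, hy, hxy⟩

end Pool.Agent.MPd439b2.P41N
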