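import Pool.Agent.Lib.MP_d439b2_co.P41N.SpecB

/-! # MP_d439b2_co, P41N: good cells are nested or disjoint -/

set_option autoImplicit false

namespace Pool.Agent.MPd439b2.P41N

open Pool.Agent.MPd439b2 Pool.Agent.MPd439b2.Rep Pool.Agent.MPd439b2.P41 Pool.Agent.MPd439b2.NK

theorem uNe : S_Ne := by
  intro h0 hCe hGc V _ G B b N n₁ q K K' hE hK hK'
  obtain ⟨hcn, -, hMi, hdj, -⟩ := hGc h0 hCe V G B b N n₁ q K hE hK
  obtain ⟨hcn', -, hMi', hdj', -⟩ := hGc h0 hCe V G B b N n₁ q K' hE hK'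
  obtain ⟨e, S, hL, hS, i, hi, hg, hKe⟩ := hK
  have hC : Ce G e S := hCe V G e S hE.fp hL (hE.hN.trans (hE.h1.trans hS))
  by_contra hcon
  push Not at hcon
  obtain ⟨hn1, hn2, hn3⟩ := hcon
  rw [Set.not_disjoint_iff_nonempty_inter] at hn3
  have hd : ∀ x ∈ K, x ∉ Wf G b := fun x hx => Set.disjoint_left.1 hdj hx
  have hd' : ∀ x ∈ K', x ∉ Wf G b := fun x hx => Set.disjoint_left.1 hdj' hx
  -- adjacent u ∈ K ∩ K', z ∈ K' \ K
  obtain ⟨u, hu, z, hz, huz⟩ := hcn'.2 (K ∩ K') Set.inter_subset_right hn3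
    (fun h => hn2 (by rw [← h]; exact Set.inter_subset_left))
  have hzK : z ∉ K := fun h => hz.2 ⟨h, hz.1⟩
  have hzc : ∀ x ∈ K, G.Adj z x := by
    rcases ho hzK (fun h => hd' z hz.1 (hMi h)) with h | h
    · exact h
    · exact absurd huz.symm (h u hu.1)
  have hzR : z ∉ Rr G e S := by
    intro h
    have h1 := hC.cl i hi u (hKe ▸ hu.1) z h huz.symm
    exact hzK (hKe ▸ h1)
  obtain ⟨j₁, hj₁, j₂, hj₂, hj12, ht1, ht2⟩ := two hzR
  obtain ⟨j, hj, hji, s, hzp⟩ : ∃ j ∈ S, j ≠ i ∧ Tc G e z j := by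
    by_cases h : j₁ = i
    · exact ⟨j₂, hj₂, fun h' => hj12 (h.trans h'.symm), ht2⟩
    · exact ⟨j₁, hj₁, h, ht1⟩
  have hKt : ∀ x ∈ K, ¬ G.Adj x (e s j) := fun x hx h =>
    hji (hC.tc i hi x (hKe ▸ hx) j hj ⟨s, h⟩)
  have hpK' : e s j ∈ K' := by
    by_contra hp
    have hpw : e s j ∉ Wf G b := h0 V G B b N n₁ q e S hE hL hS _ (hL.mem_R hj s)
    rcases ho hp (fun h => hpw (hMi' h)) with h | h
    · exact hKt u hu.1 (h u hu.2).symm
    · exact h z hz.1 hzp.symm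
  obtain ⟨u', hu', k, hk, huk⟩ := hcn.2 (K ∩ K') Set.inter_subset_left hn3
    (fun h => hn1 (by rw [← h]; exact Set.inter_subset_right))
  have hkK' : k ∉ K' := fun h => hk.2 ⟨hk.1, h⟩
  rcases ho hkK' (fun h => hd k hk.1 (hMi' h)) with h | h
  · exact hKt k hk.1 (h _ hpK')
  · exact h u' hu'.2 huk.symm

end Pool.Agent.MPd439b2.P41N
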