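import Pool.Agent.Lib.MP_d439b2_co.P41N.SpecB

/-!
# MP_d439b2_co, P41N/Nk: Theorem N as a reduction (helper88)
-/

set_option autoImplicit false

namespace Pool.Agent.MPd439b2.P41N

open Pool.Agent.MPd439b2 Pool.Agent.MPd439b2.Rep Pool.Agent.MPd439b2.P41 Pool.Agent.MPd439b2.NK

theorem uNk : S_Nk := by
  rintro ⟨c, N, m₁, hN, hGn⟩ hSv hSa hFp T hB
  refine blt_replace (false, false, false) (fun m _ β => ?_) hB
  obtain ⟨R₀, hR⟩ := hSv (β c + m₁) N (N + (β c + m₁ + 3) + (2 * (4 * (β c + m₁) + 8) + 3))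
    (4 * (β c + m₁) + 8)
  refine ⟨max (max (N + (β c + m₁ + 3) + (2 * (4 * (β c + m₁) + 8) + 3) +
    (4 * (β c + m₁) + 8)) ((2 * (4 * (β c + m₁) + 8) + 1) * N)) m, fun k => ?_⟩
  refine ⟨c, 2 ^ (k + 2 * (2 ^ (R₀ * (β c + m₁ + 1)) + (R₀ + R₀ * (β c + m₁ + 1)) * β c)) +
    (β c + 1), fun V _ G hF hT hL => ?_⟩
  have hFP : FP G := hFp.1 V G hF.1
  have env : En G (β c) (β c + m₁) N (N + (β c + m₁ + 3) + (2 * (4 * (β c + m₁) + 8) + 3))
      (4 * (β c + m₁) + 8) :=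
    { fp := hFP
      nj := hF.2
      hN := hN
      gd := fun e S hS hc => hGn β V G hFP hF.2 hL e S hS hc
      h1 := by omega
      h2 := by omega
      h3 := by omega
      h4 := le_rfl }
  obtain ⟨S, h1, h2⟩ := hR V G (β c) env
  refine ⟨S, inferInstance, G.induce S, fr_induce S hF, ?_, h2 k⟩
  rintro τ (rfl | hτ)
  · exact (hSa V G (β c) (β c + m₁) N _ _ S env h1).mono (le_max_left _ _)
  · exact (noT_induce S hT τ hτ).mono (le_max_right _ _)

end Pool.Agent.MPd439b2.P41N
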