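import Pool.Agent.Lib.MP_d439b2_co.P41N.SpecB

set_option autoImplicit false

namespace Pool.Agent.MPd439b2.P41N

open Pool.Agent.MPd439b2 Pool.Agent.MPd439b2.Rep Pool.Agent.MPd439b2.P41 Pool.Agent.MPd439b2.NK

theorem uP0 : S_P0 := by
  intro hW0 hCe hGc V _ G B b N n₁ q e S i₀ C hE hLS hn hi₀ hC hCp l hl hli s
  have h1 : e s l ∉ C := fun h =>
    hLS.nadj hi₀ hl (Ne.symm hli) false s (hCp _ (hLS.mem_K hi₀ false) _ h)
  have h2 : e s l ∉ Mi G C := fun h =>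
    hW0 V G B b N n₁ q e S hE hLS hn _ (hLS.mem_R hl s)
      ((hGc hW0 hCe V G B b N n₁ q C hE hC.1).2.2.1 h)
  refine ⟨h1, ?_⟩
  rcases ho h1 h2 with h3 | h3
  · exact Or.inl fun y hy => (h3 y hy).symm
  · exact Or.inr fun y hy h4 => h3 y hy h4.symm

end Pool.Agent.MPd439b2.P41N
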