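import Pool.Agent.Lib.MP_d439b2_co.P41N.SpecB

set_option autoImplicit false

namespace Pool.Agent.MPd439b2.P41N

open Pool.Agent.MPd439b2 Pool.Agent.MPd439b2.Rep Pool.Agent.MPd439b2.P41 Pool.Agent.MPd439b2.NK

theorem uP1 : S_P1 := by
  intro hW0 hCe hGc hNe hMg V _ G B b N n₁ q e S D i₀ C₁ C hE hLS hn hi₀ hRb hsub hC₁ hC hne hCp hD
  by_contra hcon
  have hDq : D.card ≤ q := not_lt.1 hcon
  have hDS : D ⊆ S := fun l hl => ((hD l).1 hl).1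
  have hiD : i₀ ∉ D := fun h => ((hD i₀).1 h).2.1 rfl
  have hcard : n₁ ≤ (S \ D).card := by
    rw [Finset.card_sdiff_of_subset hDS]
    omega
  have hi' : i₀ ∈ S \ D := Finset.mem_sdiff.2 ⟨hi₀, hiD⟩
  have hLS' : LS G e (S \ D) := hLS.mono Finset.sdiff_subset
  have hce : Ce G e (S \ D) := hCe V G e (S \ D) hE.fp hLS' (by
    have h1 := hE.hN
    have h2 := hE.h1
    omega)
  have hGC : GC G B b n₁ (Kc G e (S \ D) i₀) :=
    ⟨e, S \ D, hLS', hcard, i₀, hi', hRb D hDS hDq hiD, rfl⟩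
  obtain ⟨hM1, hM2⟩ := hMg hW0 hCe hGc hNe V G B b N n₁ q hE
  obtain ⟨C'', hC'', hK''⟩ := hM1 _ hGC
  have hmem : e false i₀ ∈ Kc G e S i₀ := hLS.mem_K hi₀ false
  have hmem' : e false i₀ ∈ Kc G e (S \ D) i₀ := Kc_mono Finset.sdiff_subset i₀ hmem
  have heq : C'' = C₁ := by
    by_contra h
    exact Set.disjoint_left.1 (hM2 C'' C₁ hC'' hC₁ h).1 (hK'' hmem') (hsub hmem)
  rw [heq] at hK''
  obtain ⟨_, _, _, _, y, hy, _⟩ := hGc hW0 hCe V G B b N n₁ q C hE hC.1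
  have key : ∀ l ∈ S \ D, Tc G e y l → l = i₀ := by
    intro l hl hT
    rw [Finset.mem_sdiff] at hl
    by_contra hli
    exact hl.2 ((hD l).2 ⟨hl.1, hli, y, hy, hT⟩)
  have hyR : y ∈ Rr G e (S \ D) := by
    intro j hj k hk h1 h2
    rw [key j hj h1, key k hk h2]
  have hyK : y ∈ Kc G e (S \ D) i₀ :=
    hce.cl i₀ hi' _ hmem' y hyR (hCp _ (hsub hmem) y hy).symm
  exact Set.disjoint_left.1 (hM2 C C₁ hC hC₁ hne).1 hy (hK'' hyK)

end Pool.Agent.MPd439b2.P41N
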