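import Pool.Agent.Lib.MP_d439b2_co.P41N.SpecB

/-!
# MP_d439b2_co, P41N, P2: the touched letters of two cells
-/

set_option autoImplicit false

namespace Pool.Agent.MPd439b2.P41N

open Pool.Agent.MPd439b2 Pool.Agent.MPd439b2.Rep Pool.Agent.MPd439b2.P41 Pool.Agent.MPd439b2.NK

theorem uP2 : S_P2 := by
  intro hW0 hCe hGc hP0 hTr V _ G B b N n₁ q e S D D' i₀ C C' hEn hLS hc hi₀ hC hC' hcp hcp' hD hD'
  by_contra hcon
  push Not at hcon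
  obtain ⟨h1, h2, d, hdS, hdi, hd⟩ := hcon
  obtain ⟨a, haD, haD'⟩ := Finset.not_subset.1 h1
  obtain ⟨c, hcD', hcD⟩ := Finset.not_subset.1 h2
  rw [Finset.mem_union, not_or] at hd
  obtain ⟨-, -, -, -, y, hy, -⟩ := hGc hW0 hCe V G B b N n₁ q C hEn hC.1
  obtain ⟨-, -, -, -, y', hy', -⟩ := hGc hW0 hCe V G B b N n₁ q C' hEn hC'.1
  have key : ∀ (C : Set V), MG G B b n₁ C → Cp G (Kc G e S i₀) C → ∀ y ∈ C, ∀ l ∈ S, l ≠ i₀ →
      (∃ z ∈ C, Tc G e z l) → Tc G e y l := by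
    rintro C hC hcp y hy l hl hli ⟨z, hz, s, hzs⟩
    rcases (hP0 hW0 hCe hGc V G B b N n₁ q e S i₀ C hEn hLS hc hi₀ hC hcp l hl hli s).2 with h | h
    · exact ⟨s, h y hy⟩
    · exact absurd hzs (h z hz)
  have hi : ∀ (C : Set V), Cp G (Kc G e S i₀) C → ∀ y ∈ C, Tc G e y i₀ := fun C hcp y hy =>
    ⟨false, (hcp _ (hLS.mem_K hi₀ false) y hy).symm⟩
  obtain ⟨haS, hai, haz⟩ := (hD a).1 haD
  obtain ⟨hcS, hci, hcz⟩ := (hD' c).1 hcD'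
  refine hTr V G e S hEn.fp hLS a haS i₀ hi₀ c hcS d hdS hai ?_ ?_ (Ne.symm hci) (Ne.symm hdi) ?_
    y y' (key C hC hcp y hy a haS hai haz) (hi C hcp y hy) ?_ ?_ (hi C' hcp' y' hy')
    (key C' hC' hcp' y' hy' c hcS hci hcz) ?_ ?_
  · rintro rfl
    exact hcD haD
  · rintro rfl
    exact hd.1 haD
  · rintro rfl
    exact hd.2 hcD'
  · intro h
    exact hcD ((hD c).2 ⟨hcS, hci, y, hy, h⟩)
  · intro h
    exact hd.1 ((hD d).2 ⟨hdS, hdi, y, hy, h⟩)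
  · intro h
    exact haD' ((hD' a).2 ⟨haS, hai, y', hy', h⟩)
  · intro h
    exact hd.2 ((hD' d).2 ⟨hdS, hdi, y', hy', h⟩)

end Pool.Agent.MPd439b2.P41N
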