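import Pool.Agent.Lib.MP_d439b2_co.P41N.SpecB

/-!
# MP_d439b2_co, P41N: four of the sets have many common elements (statement `S_P3`)
-/

set_option autoImplicit false

namespace Pool.Agent.MPd439b2.P41N

open Pool.Agent.MPd439b2 Pool.Agent.MPd439b2.Rep Pool.Agent.MPd439b2.P41 Pool.Agent.MPd439b2.NK

private theorem P3_half (q : ℕ) (U : Finset ℕ) (D : ℕ → Finset ℕ) (hU : 2 * q + 2 ≤ U.card)
    (σ : ℕ → ℕ) (h : 2 * ∑ i ∈ Finset.range 4, (U \ D (σ i)).card ≤ U.card) :
    ∃ X : Finset ℕ, q < X.card ∧ ∀ i < 4, X ⊆ D (σ i) := by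
  classical
  refine ⟨U \ (Finset.range 4).biUnion (fun i => U \ D (σ i)), ?_, ?_⟩
  · have h1 : ((Finset.range 4).biUnion (fun i => U \ D (σ i))).card ≤
        ∑ i ∈ Finset.range 4, (U \ D (σ i)).card := Finset.card_biUnion_le
    have h2 := Finset.le_card_sdiff ((Finset.range 4).biUnion (fun i => U \ D (σ i))) U
    omega
  · intro i hi x hx
    rw [Finset.mem_sdiff, Finset.mem_biUnion] at hx
    by_contra hcon
    exact hx.2 ⟨i, Finset.mem_range.2 hi, Finset.mem_sdiff.2 ⟨hx.1, hcon⟩⟩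

theorem uP3 : S_P3 := by
  classical
  intro hR q
  obtain ⟨M, hM⟩ := hR (Bool × Bool) 8
  refine ⟨M, fun U D hD hU hC => ?_⟩
  obtain ⟨s, c, hs1, hs2, hs3⟩ := hM fun i j => (decide (D i ⊆ D j), decide (D j ⊆ D i))
  have hne : ∀ i < 8, ∀ j < 8, i ≠ j → s i ≠ s j := by
    intro i hi j hj hij
    rcases lt_or_gt_of_ne hij with h | h
    · exact (hs1 i j h hj).ne
    · exact (hs1 j i h hi).ne'
  have h1 : ∀ i j, i < j → j < 8 → (D (s i) ⊆ D (s j) ↔ c.1 = true) := by
    intro i j hij hj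
    have h := congrArg Prod.fst (hs3 i j hij hj)
    simp only at h
    rw [← h, decide_eq_true_eq]
  have h2 : ∀ i j, i < j → j < 8 → (D (s j) ⊆ D (s i) ↔ c.2 = true) := by
    intro i j hij hj
    have h := congrArg Prod.snd (hs3 i j hij hj)
    simp only at h
    rw [← h, decide_eq_true_eq]
  by_cases hc1 : c.1 = true
  · refine ⟨s, D (s 0), fun i hi => hs2 i (by omega), fun i hi j hj hij =>
      hne i (by omega) j (by omega) hij, (hD _ (hs2 0 (by omega))).2, fun i hi => ?_⟩
    rcases Nat.eq_zero_or_pos i with rfl | h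
    · exact subset_rfl
    · exact (h1 0 i h (by omega)).2 hc1
  by_cases hc2 : c.2 = true
  · refine ⟨s, D (s 3), fun i hi => hs2 i (by omega), fun i hi j hj hij =>
      hne i (by omega) j (by omega) hij, (hD _ (hs2 3 (by omega))).2, fun i hi => ?_⟩
    rcases eq_or_lt_of_le (Nat.lt_succ_iff.1 hi) with rfl | h
    · exact subset_rfl
    · exact (h2 i 3 h (by omega)).2 hc2
  have h3 : ∀ i j, i < j → j < 8 → U ⊆ D (s i) ∪ D (s j) := by
    intro i j hij hj
    rcases hC (s i) (hs2 i (by omega)) (s j) (hs2 j hj) (hne i (by omega) j hj hij.ne) with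
      h | h | h
    · exact absurd ((h1 i j hij hj).1 h) hc1
    · exact absurd ((h2 i j hij hj).1 h) hc2
    · exact h
  have h4 : ∀ i ∈ Finset.range 8, ∀ j ∈ Finset.range 8, i ≠ j →
      Disjoint (U \ D (s i)) (U \ D (s j)) := by
    intro i hi j hj hij
    rw [Finset.mem_range] at hi hj
    have h5 : U ⊆ D (s i) ∪ D (s j) := by
      rcases lt_or_gt_of_ne hij with h | h
      · exact h3 i j h hj
      · rw [Finset.union_comm]
        exact h3 j i h hi
    rw [Finset.disjoint_left]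
    intro x hx hx'
    rw [Finset.mem_sdiff] at hx hx'
    rcases Finset.mem_union.1 (h5 hx.1) with h | h
    · exact hx.2 h
    · exact hx'.2 h
  have h5 : ∑ i ∈ Finset.range 8, (U \ D (s i)).card ≤ U.card := by
    rw [← Finset.card_biUnion h4]
    refine Finset.card_le_card ?_
    rw [Finset.biUnion_subset]
    exact fun i _ => Finset.sdiff_subset
  have h6 : ∑ i ∈ Finset.range 8, (U \ D (s i)).card =
      ∑ i ∈ Finset.range 4, (U \ D (s i)).card +
        ∑ i ∈ Finset.range 4, (U \ D (s (4 + i))).card :=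
    Finset.sum_range_add (fun i => (U \ D (s i)).card) 4 4
  by_cases h7 : 2 * ∑ i ∈ Finset.range 4, (U \ D (s i)).card ≤ U.card
  · obtain ⟨X, hX, hX'⟩ := P3_half q U D hU s h7
    exact ⟨s, X, fun i hi => hs2 i (by omega), fun i hi j hj hij =>
      hne i (by omega) j (by omega) hij, hX, hX'⟩
  · obtain ⟨X, hX, hX'⟩ := P3_half q U D hU (fun i => s (4 + i)) (by
      show 2 * ∑ i ∈ Finset.range 4, (U \ D (s (4 + i))).card ≤ U.card
      omega)
    exact ⟨fun i => s (4 + i), X, fun i hi => hs2 _ (by omega), fun i hi j hj hij =>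
      hne _ (by omega) _ (by omega) (by omega), hX, hX'⟩

end Pool.Agent.MPd439b2.P41N
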