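import Pool.Agent.Lib.MP_d439b2_co.P41N.SpecB

/-!
# MP_d439b2_co, P41N: a letter on which four cells and four vertices are full (statement `S_P4`)
-/

set_option autoImplicit false

namespace Pool.Agent.MPd439b2.P41N

open Pool.Agent.MPd439b2 Pool.Agent.MPd439b2.Rep Pool.Agent.MPd439b2.P41 Pool.Agent.MPd439b2.NK

theorem uP4 : S_P4 := by
  classical
  intro hW hCe hGc hP V _ G B b N n₁ q e S X i₀ C w hE hL hn hi₀ hC hq hX
  have hA : ∀ i < 4, ({l ∈ X | ¬ ∀ s, ∀ y ∈ C i, G.Adj y (e s l)}).card ≤ 1 := by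
    intro i hi
    obtain ⟨hM, hCp, -⟩ := hC i hi
    rw [Finset.card_le_one]
    intro l hl l' hl'
    rw [Finset.mem_filter] at hl hl'
    by_contra hne
    obtain ⟨hlS, hl₀, hl1⟩ := hX l hl.1
    obtain ⟨hlS', hl₀', -⟩ := hX l' hl'.1
    have hP0 := hP hW hCe hGc V G B b N n₁ q e S i₀ (C i) hE hL hn hi₀ hM hCp
    have key : ∀ m ∈ S, m ≠ i₀ → (¬ ∀ s, ∀ y ∈ C i, G.Adj y (e s m)) →
        ∃ s, ∀ y ∈ C i, ¬ G.Adj y (e s m) := by
      intro m hm hm₀ h
      push Not at h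
      obtain ⟨s, y, hy, hys⟩ := h
      rcases (hP0 m hm hm₀ s).2 with h1 | h1
      · exact absurd (h1 y hy) hys
      · exact ⟨s, h1⟩
    obtain ⟨s, hs⟩ := key l hlS hl₀ hl.2
    obtain ⟨s', hs'⟩ := key l' hlS' hl₀' hl'.2
    obtain ⟨y, hy, t, ht⟩ := hl1 i hi
    have hty : ¬ G.Adj y (e (!t) l) := by
      have h1 : (!t) = s := by
        by_contra h2
        have h3 : t = s := by
          cases t <;> cases s <;> simp_all
        rw [h3] at ht
        exact hs y hy ht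
      rw [h1]
      exact hs y hy
    exact hE.fp (e (!t) l) (e t l) y (e false i₀) (e s' l') (hL.adj hlS t).symm ht.symm
      (hCp _ (hL.mem_K hi₀ false) y hy).symm
      (fun h => (hP0 l hlS hl₀ (!t)).1 (h ▸ hy)) (hL.ne hlS hi₀ hl₀ t false)
      (fun h => hty h.symm) (hL.nadj hlS hi₀ hl₀ _ _) (hL.nadj hlS hi₀ hl₀ _ _)
      (hL.nadj hlS' hlS (Ne.symm hne) _ _) (hL.nadj hlS' hlS (Ne.symm hne) _ _)
      (fun h => hs' y hy h.symm) (hL.nadj hlS' hi₀ hl₀' _ _)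
  have hB : ∀ i < 4, ({l ∈ X | ∃ s, ¬ G.Adj (w i) (e s l)}).card ≤ b := by
    intro i hi
    have hw : ({u | ¬ G.Adj (w i) u}).ncard ≤ b := (hC i hi).2.2
    refine le_trans ?_ hw
    have h1 : ∀ l : ℕ, ∃ s, (∃ s, ¬ G.Adj (w i) (e s l)) → ¬ G.Adj (w i) (e s l) := by
      intro l
      by_cases h : ∃ s, ¬ G.Adj (w i) (e s l)
      · obtain ⟨s, hs⟩ := h
        exact ⟨s, fun _ => hs⟩
      · exact ⟨false, fun h' => absurd h' h⟩
    choose f hf using h1
    rw [← Set.ncard_coe_finset]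
    refine Set.ncard_le_ncard_of_injOn (fun l => e (f l) l) ?_ ?_ (Set.toFinite _)
    · intro l hl
      rw [Finset.mem_coe, Finset.mem_filter] at hl
      exact hf l hl.2
    · intro l hl l' hl' h
      rw [Finset.mem_coe, Finset.mem_filter] at hl hl'
      by_contra hne
      exact hL.ne (hX l hl.1).1 (hX l' hl'.1).1 hne _ _ h
  by_contra hcon
  push Not at hcon
  have hsub : X ⊆ (Finset.range 4).biUnion fun i =>
      {l ∈ X | ¬ ∀ s, ∀ y ∈ C i, G.Adj y (e s l)} ∪ {l ∈ X | ∃ s, ¬ G.Adj (w i) (e s l)} := by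
    intro l hl
    obtain ⟨i, hi, s, hs⟩ := hcon l hl
    rw [Finset.mem_biUnion]
    refine ⟨i, Finset.mem_range.2 hi, ?_⟩
    rw [Finset.mem_union, Finset.mem_filter, Finset.mem_filter]
    by_cases h1 : G.Adj (w i) (e s l)
    · obtain ⟨y, hy, hys⟩ := hs h1
      exact Or.inl ⟨hl, fun h => hys (h s y hy)⟩
    · exact Or.inr ⟨hl, s, h1⟩
  have h1 := Finset.card_le_card hsub
  have h2 : ((Finset.range 4).biUnion fun i =>
      {l ∈ X | ¬ ∀ s, ∀ y ∈ C i, G.Adj y (e s l)} ∪ {l ∈ X | ∃ s, ¬ G.Adj (w i) (e s l)}).card ≤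
        ∑ i ∈ Finset.range 4, (1 + b) := by
    refine Finset.card_biUnion_le.trans (Finset.sum_le_sum fun i hi => ?_)
    refine (Finset.card_union_le _ _).trans ?_
    exact add_le_add (hA i (Finset.mem_range.1 hi)) (hB i (Finset.mem_range.1 hi))
  rw [Finset.sum_const, Finset.card_range, smul_eq_mul] at h2
  have h3 := hE.h4
  omega

end Pool.Agent.MPd439b2.P41N
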