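import Pool.Agent.Lib.MP_d439b2_co.P41N.SpecB

set_option autoImplicit false

namespace Pool.Agent.MPd439b2.P41N

open Pool.Agent.MPd439b2 Pool.Agent.MPd439b2.Rep Pool.Agent.MPd439b2.P41 Pool.Agent.MPd439b2.NK

theorem uPa : S_Pa := by
  intro hW0 hCe hGc V _ G B b N n₁ q e S C hE hLS hn hC hAn i hi hGi
  have hce : Ce G e S := hCe V G e S hE.fp hLS (by
    have h1 := hE.hN
    have h2 := hE.h1
    omega)
  have hcn : Conn G (C i) := (hGc hW0 hCe V G B b N n₁ q (C i) hE (hC i hi).1.1).1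
  have hR : C i ⊆ Rr G e S := by
    have key : ∀ x ∈ C i, ∀ j ∈ S, Tc G e x j → j = i := by
      intro x hx j hj hT
      by_contra hji
      obtain ⟨s, hs⟩ := hT
      exact hAn i hi j hj (Ne.symm hji) x hx (e s j) ((hC j hj).2 s) hs
    intro x hx j hj k hk h1 h2
    rw [key x hx j hj h1, key x hx k hk h2]
  have hsub : C i ⊆ Kc G e S i :=
    hce.sub_of hi hcn hR ⟨e false i, (hC i hi).2 false, hLS.mem_K hi false⟩
  exact Set.Subset.antisymm ((hC i hi).1.2 _ ⟨e, S, hLS, hn, i, hi, hGi, rfl⟩ hsub) hsub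

end Pool.Agent.MPd439b2.P41N
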