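import Pool.Agent.Lib.MP_d439b2_co.P41N.SpecB

/-!
# MP_d439b2_co, P41N/Pc: no large family of pairwise complete robust cells with different mixed vertices (helper88)
-/

set_option autoImplicit false

namespace Pool.Agent.MPd439b2.P41N

open Pool.Agent.MPd439b2 Pool.Agent.MPd439b2.Rep Pool.Agent.MPd439b2.P41 Pool.Agent.MPd439b2.NK

namespace PcAux

variable {V : Type} {G : SimpleGraph V}

theorem card_le_inj [Finite V] (D : Finset ℕ) (f : ℕ → V) (X : Set V) (h : ∀ j ∈ D, f j ∈ X)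
    (hi : ∀ j ∈ D, ∀ k ∈ D, f j = f k → j = k) : D.card ≤ X.ncard := by
  classical
  have h1 : (D.image f).card = D.card := Finset.card_image_of_injOn fun j hj k hk h' =>
    hi j hj k hk h'
  rw [← h1, ← Set.ncard_coe_finset]
  refine Set.ncard_le_ncard ?_ (Set.toFinite _)
  intro x hx
  rw [Finset.mem_coe, Finset.mem_image] at hx
  obtain ⟨j, hj, rfl⟩ := hx
  exact h j hj

theorem enum (T : Finset ℕ) (n : ℕ) (h : T.card = n) :
    ∃ φ : ℕ → ℕ, (∀ i < n, φ i ∈ T) ∧ ∀ i < n, ∀ j < n, φ i = φ j → i = j := by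
  refine ⟨fun i => if hi : i < n then T.orderEmbOfFin h ⟨i, hi⟩ else 0, fun i hi => ?_,
    fun i hi j hj hij => ?_⟩
  · simp only [hi, dif_pos]
    exact Finset.orderEmbOfFin_mem T h _
  · simp only [hi, hj, dif_pos] at hij
    have h1 := (T.orderEmbOfFin h).injective hij
    exact congrArg Fin.val h1

theorem tch1 {x y : V} (h : G.Adj x y) : Tch G {x} {y} := ⟨x, rfl, y, rfl, h⟩

theorem tch1_iff {x y : V} : Tch G {x} {y} ↔ G.Adj x y := by
  constructor
  · rintro ⟨a, ha, b, hb, hab⟩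
    rw [Set.mem_singleton_iff] at ha hb
    subst ha hb
    exact hab
  · exact tch1

end PcAux

open PcAux in
theorem uPc : S_Pc := by
  classical
  intro hW hCe hGc hNe hMg hDi hP0 hP1 hP2 hP3 hRam hP4 hTr hJM b q
  obtain ⟨M, hM⟩ := hP3 hRam q
  refine ⟨(2 * (2 * b) + 1) * (max M 4 + 1), ?_⟩
  intro V _ G B N n₁ C w env hC hp
  set m := (2 * (2 * b) + 1) * (max M 4 + 1) with hm
  have gc := fun i (hi : i < m) => hGc hW hCe V G B b N n₁ q (C i) env (hC i hi).1.1.1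
  have hwW : ∀ i < m, w i ∈ Wf G b := fun i hi => (gc i hi).2.2.1 (hC i hi).2
  have hdj : ∀ i < m, ∀ j < m, i ≠ j → Disjoint (C i) (C j) := by
    intro i hi j hj hij
    rw [Set.disjoint_left]
    intro x hx hx'
    exact G.irrefl ((hp i hi j hj hij).1 x hx x hx')
  have hne : ∀ i < m, (C i).Nonempty := fun i hi => by
    obtain ⟨x, hx, -⟩ := (gc i hi).2.2.2.2
    exact ⟨x, hx⟩
  -- step 1
  obtain ⟨T', hT', hcard, hT⟩ := hDi (2 * b) (max M 4 + 1) (Finset.range m)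
    (fun i => (Finset.range m).filter fun j => j ≠ i ∧ (¬ G.Adj (w i) (w j) ∨
      ∃ x ∈ C j, ¬ G.Adj (w i) x)) (by
    intro i hi
    rw [Finset.mem_range] at hi
    refine ⟨?_, by simp⟩
    have h1 : (Finset.range m).filter (fun j => j ≠ i ∧ (¬ G.Adj (w i) (w j) ∨
        ∃ x ∈ C j, ¬ G.Adj (w i) x)) ⊆ (Finset.range m).filter (fun j => ¬ G.Adj (w i) (w j)) ∪
        (Finset.range m).filter (fun j => ∃ x ∈ C j, ¬ G.Adj (w i) x) := by
      intro j hj
      rw [Finset.mem_union, Finset.mem_filter, Finset.mem_filter]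
      rw [Finset.mem_filter] at hj
      rcases hj.2.2 with h2 | h2
      · exact Or.inl ⟨hj.1, h2⟩
      · exact Or.inr ⟨hj.1, h2⟩
    have h2 : ((Finset.range m).filter (fun j => ¬ G.Adj (w i) (w j))).card ≤ b := by
      refine (card_le_inj _ w {u | ¬ G.Adj (w i) u} ?_ ?_).trans (hwW i hi)
      · intro j hj
        exact (Finset.mem_filter.1 hj).2
      · intro j hj k hk hjk
        rw [Finset.mem_filter, Finset.mem_range] at hj hk
        by_contra hne'
        exact (hp j hj.1 k hk.1 hne').2 hjk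
    have h3 : ((Finset.range m).filter (fun j => ∃ x ∈ C j, ¬ G.Adj (w i) x)).card ≤ b := by
      have h4 : ∀ j, ∃ x : V, (j ∈ (Finset.range m).filter
          (fun j => ∃ x ∈ C j, ¬ G.Adj (w i) x) → x ∈ C j ∧ ¬ G.Adj (w i) x) := by
        intro j
        by_cases h5 : j ∈ (Finset.range m).filter (fun j => ∃ x ∈ C j, ¬ G.Adj (w i) x)
        · obtain ⟨x, hx⟩ := (Finset.mem_filter.1 h5).2
          exact ⟨x, fun _ => hx⟩
        · exact ⟨w i, fun h6 => (h5 h6).elim⟩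
      choose f hf using h4
      refine (card_le_inj _ f {u | ¬ G.Adj (w i) u} ?_ ?_).trans (hwW i hi)
      · intro j hj
        exact (hf j hj).2
      · intro j hj k hk hjk
        have hj' := (hf j hj).1
        have hk' := (hf k hk).1
        rw [Finset.mem_filter, Finset.mem_range] at hj hk
        by_contra hne'
        rw [hjk] at hj'
        exact Set.disjoint_left.1 (hdj j hj.1 k hk.1 hne') hj' hk'
    have h4 := Finset.card_le_card h1
    have h5 := Finset.card_union_le ((Finset.range m).filter (fun j => ¬ G.Adj (w i) (w j)))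
      ((Finset.range m).filter (fun j => ∃ x ∈ C j, ¬ G.Adj (w i) x))
    show ((Finset.range m).filter (fun j => j ≠ i ∧ (¬ G.Adj (w i) (w j) ∨
        ∃ x ∈ C j, ¬ G.Adj (w i) x))).card ≤ 2 * b
    omega) (by rw [Finset.card_range])
  obtain ⟨φ, hφ, hφi⟩ := enum T' (max M 4 + 1) hcard
  have hφm : ∀ i < max M 4 + 1, φ i < m := fun i hi => Finset.mem_range.1 (hT' (hφ i hi))
  have hww : ∀ i < max M 4 + 1, ∀ j < max M 4 + 1, i ≠ j → G.Adj (w (φ i)) (w (φ j)) ∧
      ∀ x ∈ C (φ j), G.Adj (w (φ i)) x := by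
    intro i hi j hj hij
    have h1 := hT (φ i) (hφ i hi) (φ j) (hφ j hj)
    rw [Finset.mem_filter] at h1
    have h2 : φ j ≠ φ i := fun h => hij (hφi i hi j hj h.symm)
    constructor
    · by_contra h3
      exact h1 ⟨hT' (hφ j hj), h2, Or.inl h3⟩
    · intro x hx
      by_contra h3
      exact h1 ⟨hT' (hφ j hj), h2, Or.inr ⟨x, hx, h3⟩⟩
  -- step 2
  have hlast : max M 4 < max M 4 + 1 := Nat.lt_succ_self _
  obtain ⟨hMG, e, S, hLS, hS, i₀, hi₀, hRb, hK⟩ := (hC _ (hφm _ hlast)).1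
  have hS1 : n₁ ≤ S.card := by omega
  have hcp : ∀ j < max M 4, Cp G (C (φ (max M 4))) (C (φ j)) ∧ C (φ j) ≠ C (φ (max M 4)) := by
    intro j hj
    have h1 : φ j ≠ φ (max M 4) := fun h => by
      have := hφi j (by omega) _ hlast h
      omega
    refine ⟨(hp _ (hφm _ hlast) _ (hφm j (by omega)) h1.symm).1, fun h => ?_⟩
    obtain ⟨x, hx⟩ := hne (φ j) (hφm j (by omega))
    exact Set.disjoint_left.1 (hdj _ (hφm j (by omega)) _ (hφm _ hlast) h1) hx (h ▸ hx)
  have hcpK : ∀ j < max M 4, Cp G (Kc G e S i₀) (C (φ j)) := fun j hj x hx y hy =>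
    (hcp j hj).1 x (hK hx) y hy
  set D : ℕ → Finset ℕ := fun j => S.filter fun l => l ≠ i₀ ∧ ∃ y ∈ C (φ j), Tc G e y l with hD
  have hDm : ∀ j, ∀ l, l ∈ D j ↔ l ∈ S ∧ l ≠ i₀ ∧ ∃ y ∈ C (φ j), Tc G e y l := fun j l =>
    Finset.mem_filter
  have hMle : M ≤ max M 4 := le_max_left _ _
  have h4le : 4 ≤ max M 4 := le_max_right _ _
  obtain ⟨σ, X, hσ, hσi, hX, hXD⟩ := hM (S.erase i₀) D (by
    intro j hj
    refine ⟨?_, ?_⟩
    · intro l hl
      rw [hDm] at hl
      exact Finset.mem_erase.2 ⟨hl.2.1, hl.1⟩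
    · have hj' : j < max M 4 := by omega
      exact hP1 hW hCe hGc hNe hMg V G B b N n₁ q e S (D j) i₀ (C (φ (max M 4))) (C (φ j)) env
        hLS hS hi₀ hRb hK hMG (hC _ (hφm j (by omega))).1.1 (hcp j hj').2 (hcp j hj').1
        (hDm j)) (by
    rw [Finset.card_erase_of_mem hi₀]
    have := env.h3
    omega) (by
    intro i hi j hj _
    have hi' : i < max M 4 := by omega
    have hj' : j < max M 4 := by omega
    rcases hP2 hW hCe hGc hP0 hTr V G B b N n₁ q e S (D i) (D j) i₀ (C (φ i)) (C (φ j)) env hLS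
      hS1 hi₀ (hC _ (hφm i (by omega))).1.1 (hC _ (hφm j (by omega))).1.1 (hcpK i hi')
      (hcpK j hj') (hDm i) (hDm j) with h1 | h1 | h1
    · exact Or.inl h1
    · exact Or.inr (Or.inl h1)
    · refine Or.inr (Or.inr fun l hl => ?_)
      rw [Finset.mem_erase] at hl
      exact h1 l hl.2 hl.1)
  have hσM : ∀ i < 4, σ i < max M 4 := fun i hi => lt_of_lt_of_le (hσ i hi) hMle
  have hσm : ∀ i < 4, φ (σ i) < m := fun i hi => hφm _ (by have := hσM i hi; omega)
  have hσne : ∀ i < 4, ∀ j < 4, i ≠ j → φ (σ i) ≠ φ (σ j) := fun i hi j hj hij h =>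
    hσi i hi j hj hij (hφi _ (by have := hσM i hi; omega) _ (by have := hσM j hj; omega) h)
  obtain ⟨l, hl, hfull⟩ := hP4 hW hCe hGc hP0 V G B b N n₁ q e S X i₀ (fun i => C (φ (σ i)))
    (fun i => w (φ (σ i))) env hLS hS1 hi₀ (fun i hi => ⟨(hC _ (hσm i hi)).1.1,
      hcpK _ (hσM i hi), hwW _ (hσm i hi)⟩) hX (by
    intro l hl
    have h1 := fun i (hi : i < 4) => (hDm (σ i) l).1 (hXD i hi hl)
    exact ⟨(h1 0 (by omega)).1, (h1 0 (by omega)).2.1, fun i hi => (h1 i hi).2.2⟩)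
  have hlS : l ∈ S ∧ l ≠ i₀ := by
    have h1 := (hDm (σ 0) l).1 (hXD 0 (by omega) hl)
    exact ⟨h1.1, h1.2.1⟩
  -- step 3
  have hx : ∀ i, ∃ x : V, i < 4 → x ∈ C (φ (σ i)) ∧ ¬ G.Adj (w (φ (σ i))) x := by
    intro i
    by_cases hi : i < 4
    · obtain ⟨-, -, x, hx, hx'⟩ := (hC _ (hσm i hi)).2
      exact ⟨x, fun _ => ⟨hx, hx'⟩⟩
    · exact ⟨w 0, fun h => (hi h).elim⟩
  choose x hx using hx
  have hcW : e false i₀ ∉ Wf G b := hW V G B b N n₁ q e S env hLS hS1 _ (hLS.mem_R hi₀ false)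
  have haW : ∀ s, e s l ∉ Wf G b := fun s =>
    hW V G B b N n₁ q e S env hLS hS1 _ (hLS.mem_R hlS.1 s)
  have hxW : ∀ i < 4, x i ∉ Wf G b := fun i hi h =>
    Set.disjoint_left.1 (gc _ (hσm i hi)).2.2.2.1 (hx i hi).1 h
  have hcC : e false i₀ ∈ C (φ (max M 4)) := hK (hLS.mem_K hi₀ false)
  have hcn : ∀ i < 4, e false i₀ ∉ C (φ (σ i)) := fun i hi h => by
    have h1 := (hcp _ (hσM i hi)).1 _ hcC _ h
    exact G.irrefl h1
  have han : ∀ i < 4, ∀ s, e s l ∉ C (φ (σ i)) := fun i hi s =>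
    (hP0 hW hCe hGc V G B b N n₁ q e S i₀ (C (φ (σ i))) env hLS hS1 hi₀ (hC _ (hσm i hi)).1.1
      (hcpK _ (hσM i hi)) l hlS.1 hlS.2 s).1
  refine env.nj (hJM V G (e false i₀) (e false l) (e true l) (fun i => {w (φ (σ i))})
    (fun i => {x i}) (fun i _ => ⟨Conn.singleton G _, Conn.singleton G _⟩)
    (hLS.ne hi₀ hlS.1 hlS.2.symm _ _) (hLS.ne hi₀ hlS.1 hlS.2.symm _ _)
    (hLS.nadj hi₀ hlS.1 hlS.2.symm _ _) (hLS.nadj hi₀ hlS.1 hlS.2.symm _ _)
    (hLS.adj hlS.1 false) ?_ ?_ ?_ ?_ ?_ ?_)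
  · intro i hi
    refine ⟨?_, ?_, ?_, ?_, ?_, ?_⟩
    · intro h
      exact hcW (Set.mem_singleton_iff.1 h ▸ hwW _ (hσm i hi))
    · intro h
      exact haW false (Set.mem_singleton_iff.1 h ▸ hwW _ (hσm i hi))
    · intro h
      exact haW true (Set.mem_singleton_iff.1 h ▸ hwW _ (hσm i hi))
    · intro h
      exact hcn i hi (Set.mem_singleton_iff.1 h ▸ (hx i hi).1)
    · intro h
      exact han i hi false (Set.mem_singleton_iff.1 h ▸ (hx i hi).1)
    · intro h
      exact han i hi true (Set.mem_singleton_iff.1 h ▸ (hx i hi).1)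
  · intro i hi j hj hij
    refine ⟨?_, ?_⟩
    · rw [Set.disjoint_singleton]
      exact (hp _ (hσm i hi) _ (hσm j hj) (hσne i hi j hj hij)).2
    · rw [Set.disjoint_singleton]
      intro h
      exact Set.disjoint_left.1 (hdj _ (hσm i hi) _ (hσm j hj) (hσne i hi j hj hij))
        (hx i hi).1 (h ▸ (hx j hj).1)
  · intro i hi j hj
    rw [Set.disjoint_singleton]
    intro h
    exact hxW j hj (h ▸ hwW _ (hσm i hi))
  · intro i hi h
    rw [tch1_iff] at h
    exact (hx i hi).2 h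
  · intro i hi j hj hij
    have h1 := hww (σ i) (by have := hσM i hi; omega) (σ j) (by have := hσM j hj; omega)
      (hσi i hi j hj hij)
    exact ⟨tch1 h1.1, tch1 (h1.2 _ (hx j hj).1), tch1 ((hp _ (hσm i hi) _ (hσm j hj)
      (hσne i hi j hj hij)).1 _ (hx i hi).1 _ (hx j hj).1)⟩
  · intro i hi
    have h1 := hww (σ i) (by have := hσM i hi; omega) (max M 4) hlast
      (by have := hσM i hi; omega)
    exact ⟨tch1 (h1.2 _ hcC).symm, tch1 (hfull i hi false).1.symm, tch1 (hfull i hi true).1.symm,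
      tch1 ((hcp _ (hσM i hi)).1 _ hcC _ (hx i hi).1), tch1 ((hfull i hi false).2 _ (hx i hi).1).symm,
      tch1 ((hfull i hi true).2 _ (hx i hi).1).symm⟩

end Pool.Agent.MPd439b2.P41N
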