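import Pool.Agent.Lib.MP_d439b2_co.P41N.SpecA

/-!
# MP_d439b2_co, P41N/Qm: a small cover instead of a large matching
-/

set_option autoImplicit false

namespace Pool.Agent.MPd439b2.P41N

open Pool.Agent.MPd439b2 Pool.Agent.MPd439b2.Rep Pool.Agent.MPd439b2.P41 Pool.Agent.MPd439b2.NK

namespace QmAux

theorem aux (V : Type) (Q : ℕ → V → Prop) (H : Finset ℕ) (m : ℕ) (hm : 0 < m)
    (h : ∀ T ⊆ H, T.card = m → ∀ y : ℕ → V, Set.InjOn y (T : Set ℕ) → ∃ i ∈ T, ¬ Q i (y i)) :
    ∃ I₀ ⊆ H, I₀.card < m ∧ ∃ Y₀ : Finset V, Y₀.card < m ∧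
      ∀ i ∈ H, i ∉ I₀ → ∀ y, Q i y → y ∈ Y₀ := by
  classical
  rcases isEmpty_or_nonempty V with hV | hV
  · exact ⟨∅, Finset.empty_subset H, by simpa using hm, ∅, by simpa using hm,
      fun i _ _ y _ => (hV.false y).elim⟩
  · set P : Finset (Finset ℕ) := H.powerset.filter fun T =>
      ∃ y : ℕ → V, Set.InjOn y (T : Set ℕ) ∧ ∀ i ∈ T, Q i (y i) with hP
    have hne : P.Nonempty := by
      refine ⟨∅, Finset.mem_filter.2 ⟨Finset.empty_mem_powerset H, fun _ => Classical.arbitrary V,
        by simp, by simp⟩⟩
    obtain ⟨T, hT, hmax⟩ := Finset.exists_max_image P Finset.card hne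
    obtain ⟨hTH, y, hy, hQ⟩ := Finset.mem_filter.1 hT
    rw [Finset.mem_powerset] at hTH
    have hTm : T.card < m := by
      by_contra hcon
      push Not at hcon
      obtain ⟨T', hT', hc⟩ := Finset.exists_subset_card_eq hcon
      obtain ⟨i, hi, hni⟩ := h T' (hT'.trans hTH) hc y (hy.mono (by exact_mod_cast hT'))
      exact hni (hQ i (hT' hi))
    refine ⟨T, hTH, hTm, T.image y, Finset.card_image_le.trans_lt hTm, ?_⟩
    intro i hi hiT z hz
    by_contra hzY
    have hmem : insert i T ∈ P := by
      refine Finset.mem_filter.2 ⟨Finset.mem_powerset.2 (Finset.insert_subset hi hTH),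
        Function.update y i z, ?_, ?_⟩
      · rw [Finset.coe_insert]
        intro a ha b hb hab
        have key : ∀ c ∈ T, Function.update y i z c = y c := by
          intro c hc
          refine Function.update_of_ne ?_ _ _
          rintro rfl
          exact hiT hc
        rcases ha with ha | ha <;> rcases hb with hb | hb
        · rw [ha, hb]
        · exfalso
          rw [ha, Function.update_self, key b (Finset.mem_coe.1 hb)] at hab
          exact hzY (hab ▸ Finset.mem_image_of_mem y (Finset.mem_coe.1 hb))
        · exfalso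
          rw [hb, Function.update_self, key a (Finset.mem_coe.1 ha)] at hab
          exact hzY (hab ▸ Finset.mem_image_of_mem y (Finset.mem_coe.1 ha))
        · rw [key a (Finset.mem_coe.1 ha), key b (Finset.mem_coe.1 hb)] at hab
          exact hy ha hb hab
      · intro j hj
        rcases Finset.mem_insert.1 hj with hj' | hj'
        · rw [hj', Function.update_self]
          exact hz
        · have hji : j ≠ i := fun h' => hiT (by rw [← h']; exact hj')
          rw [Function.update_of_ne hji]
          exact hQ j hj'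
    have := hmax _ hmem
    rw [Finset.card_insert_of_notMem hiT] at this
    omega

end QmAux

theorem uQm : S_Qm := fun V Q H m hm h => QmAux.aux V Q H m hm h

end Pool.Agent.MPd439b2.P41N
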