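import Pool.Agent.Lib.MP_d439b2_co.P41N.SpecA

/-!
# MP_d439b2_co, P41N/Ra: the cut-rank of a cell with its mixed vertices
-/

set_option autoImplicit false

namespace Pool.Agent.MPd439b2.P41N

open Pool.Agent.MPd439b2 Pool.Agent.MPd439b2.Rep Pool.Agent.MPd439b2.P41 Pool.Agent.MPd439b2.NK

theorem uRa : S_Ra := by
  classical
  intro V _ G e S i Y₀ hC hi hY
  set K := Kc G e S i with hK
  set X := K ∪ Mi G K with hX
  have h1 : ∀ f ∈ Mi G K, ∀ u, u ∉ X → ¬ G.Adj f u → u ∈ Y₀ := by
    intro f hf u hu hfu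
    have huK : u ∉ K := fun h => hu (Or.inl h)
    have huM : u ∉ Mi G K := fun h => hu (Or.inr h)
    exact hY f hf u (fun h => hfu ((hC.mx i hi f hf).2 u h huK)) huM hfu
  refine ⟨?_, ?_⟩
  · have h2 : H1T.Rw G X Xᶜ ⊆ insert {b | b ∈ Xᶜ ∧ G.Adj (e false i) b}
        ((fun Z : Finset V => {b | b ∈ Xᶜ ∧ b ∉ Z}) '' (Y₀.powerset : Set (Finset V))) := by
      rintro _ ⟨y, hy, rfl⟩
      rcases hy with hy | hy
      · left
        have key : ∀ b ∈ Xᶜ, (G.Adj y b ↔ G.Adj (e false i) b) := by
          intro b hb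
          rcases ho (fun h => hb (Or.inl h)) (fun h => hb (Or.inr h)) with h3 | h3
          · exact iff_of_true (h3 y hy).symm (h3 _ (hC.ls.mem_K hi false)).symm
          · exact iff_of_false (fun h => h3 y hy h.symm)
              (fun h => h3 _ (hC.ls.mem_K hi false) h.symm)
        ext b
        exact ⟨fun h => ⟨h.1, (key b h.1).1 h.2⟩, fun h => ⟨h.1, (key b h.1).2 h.2⟩⟩
      · right
        refine ⟨Y₀.filter fun u => ¬ G.Adj y u, ?_, ?_⟩
        · rw [Finset.coe_powerset, Set.mem_preimage, Set.mem_powerset_iff, Finset.coe_subset]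
          exact Finset.filter_subset _ _
        · ext b
          constructor
          · rintro ⟨hb, hb2⟩
            refine ⟨hb, ?_⟩
            by_contra hcon
            exact hb2 (Finset.mem_filter.2 ⟨h1 y hy b hb hcon, hcon⟩)
          · rintro ⟨hb, hb2⟩
            exact ⟨hb, fun h => (Finset.mem_filter.1 h).2 hb2⟩
    refine (H1T.rk_le_rows G X Xᶜ).trans ?_
    refine (Set.ncard_le_ncard h2 (Set.toFinite _)).trans ((Set.ncard_insert_le _ _).trans ?_)
    refine Nat.add_le_add_right ((Set.ncard_image_le (Set.toFinite _)).trans ?_) 1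
    rw [Set.ncard_coe_finset, Finset.card_powerset]
  · intro f hf u hu
    by_cases h : u ∈ X
    · exact Or.inl h
    · exact Or.inr (h1 f hf u h hu)

end Pool.Agent.MPd439b2.P41N
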