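import Pool.Agent.Lib.MP_d439b2_co.P41N.SpecB

/-!
# MP_d439b2_co, P41N, Sa: no large induced matching is left
-/

set_option autoImplicit false

namespace Pool.Agent.MPd439b2.P41N

open Pool.Agent.MPd439b2 Pool.Agent.MPd439b2.Rep Pool.Agent.MPd439b2.P41 Pool.Agent.MPd439b2.NK

theorem uSa : S_Sa := by
  intro hCe hDi hRn hW0 hGc hNe hMg V _ G B b N n₁ q S hEn hS a b' hT
  classical
  set n₂ := max (n₁ + q) ((2 * q + 1) * N) with hn₂
  let e : Bool → ℕ → V := fun s i => if s then (b' i : V) else (a i : V)
  have hf : ∀ i, e false i = a i := fun _ => rfl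
  have ht : ∀ i, e true i = b' i := fun _ => rfl
  have hLS : LS G e (Finset.range n₂) := by
    intro i hi j hj s t
    rw [Finset.mem_range] at hi hj
    have haa : G.Adj (a i : V) (a j : V) → False := by
      intro h
      by_cases hij : i = j
      · subst hij
        exact G.loopless.irrefl _ h
      · exact absurd ((hT.aa i hi j hj hij).1 h) (by decide)
    have hbb : G.Adj (b' i : V) (b' j : V) → False := by
      intro h
      by_cases hij : i = j
      · subst hij
        exact G.loopless.irrefl _ h
      · exact absurd ((hT.bb i hi j hj hij).1 h) (by decide)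
    have hab : ∀ i < n₂, ∀ j < n₂, (G.Adj (a i : V) (b' j : V) ↔ i = j) := by
      intro i hi j hj
      have := hT.ab i hi j hj
      simpa using this
    cases s <;> cases t
    · constructor
      · intro h
        exact (haa h).elim
      · rintro ⟨-, h⟩
        exact absurd rfl h
    · rw [hf, ht, hab i hi j hj]
      simp
    · rw [hf, ht, SimpleGraph.adj_comm, hab j hj i hi]
      constructor
      · intro h
        exact ⟨h.symm, by decide⟩
      · rintro ⟨h, -⟩
        exact h.symm
    · constructor
      · intro h
        exact (hbb h).elim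
      · rintro ⟨-, h⟩
        exact absurd rfl h
  have hcard : (Finset.range n₂).card = n₂ := Finset.card_range _
  have hrob : ∃ i ∈ Finset.range n₂, Rb G B b q e (Finset.range n₂) i := by
    by_contra hcon
    push Not at hcon
    have := hRn hCe hDi V G B b N n₁ q e (Finset.range n₂) hEn hLS _ le_rfl hcon
    rw [hcard] at this
    exact absurd (le_max_right (n₁ + q) ((2 * q + 1) * N)) (not_le.2 this)
  obtain ⟨i, hi, hri⟩ := hrob
  have hg : Gi G B b e (Finset.range n₂) i := by
    have := hri ∅ (Finset.empty_subset _) (by simp) (by simp)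
    rwa [Finset.sdiff_empty] at this
  have hle : n₁ + q ≤ (Finset.range n₂).card := by
    rw [hcard]
    exact le_max_left _ _
  obtain ⟨C, hC, hKC⟩ := (hMg hW0 hCe hGc hNe V G B b N n₁ q hEn).1 (Kc G e (Finset.range n₂) i)
    ⟨e, Finset.range n₂, hLS, (Nat.le_add_right _ _).trans hle, i, hi, hg, rfl⟩
  have hRC : RC G B b n₁ q C := ⟨hC, e, Finset.range n₂, hLS, hle, i, hi, hri, hKC⟩
  have h1 := hS C hRC (e false i) (hKC (hLS.mem_K hi false)) (e true i)
    (hKC (hLS.mem_K hi true)) (a i).2 (b' i).2
  have h2 := hLS.adj hi false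
  rw [h1] at h2
  exact G.loopless.irrefl _ h2

end Pool.Agent.MPd439b2.P41N
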