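import Pool.Agent.Lib.MP_d439b2_co.P41N.SpecA

/-! # MP_d439b2_co, P41N/Sg: segments -/

set_option autoImplicit false

namespace Pool.Agent.MPd439b2.P41N

open Pool.Agent.MPd439b2 Pool.Agent.MPd439b2.Rep Pool.Agent.MPd439b2.P41 Pool.Agent.MPd439b2.NK

private theorem sg_five (H : Finset ℕ) (hc : 5 ≤ H.card) : ∃ h0 ∈ H, ∃ h1 ∈ H, ∃ h2 ∈ H, ∃ h3 ∈ H,
    ∃ h4 ∈ H, h0 < h1 ∧ h1 < h2 ∧ h2 < h3 ∧ h3 < h4 := by
  have key : ∀ (i j : ℕ) (hi : i < H.card) (hj : j < H.card), i < j →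
      H.orderEmbOfFin rfl ⟨i, hi⟩ < H.orderEmbOfFin rfl ⟨j, hj⟩ := fun i j hi hj hij =>
    (H.orderEmbOfFin rfl).lt_iff_lt.2 hij
  exact ⟨_, H.orderEmbOfFin_mem rfl ⟨0, by omega⟩, _, H.orderEmbOfFin_mem rfl ⟨1, by omega⟩,
    _, H.orderEmbOfFin_mem rfl ⟨2, by omega⟩, _, H.orderEmbOfFin_mem rfl ⟨3, by omega⟩,
    _, H.orderEmbOfFin_mem rfl ⟨4, by omega⟩, key 0 1 _ _ (by omega), key 1 2 _ _ (by omega),
    key 2 3 _ _ (by omega), key 3 4 _ _ (by omega)⟩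

theorem uSg : S_Sg := by
  intro V Tr H hc hm hn
  obtain ⟨h0, m0, h1, m1, h2, m2, h3, m3, h4, m4, l01, l12, l23, l34⟩ := sg_five H hc
  have tr : ∀ a ∈ H, ∀ b ∈ H, ∀ c ∈ H, ∀ d ∈ H, a < b → b < c → c < d → ∀ v, ∃ w,
      (Tr w h0 ↔ Tr v a) ∧ (Tr w h1 ↔ Tr v b) ∧ (Tr w h2 ↔ Tr v c) ∧ (Tr w h3 ↔ Tr v d) :=
    fun a ha b hb c hc d hd q1 q2 q3 v =>
      hm a ha b hb c hc d hd h0 m0 h1 m1 h2 m2 h3 m3 q1 q2 q3 l01 l12 l23 v
  have n13 : ∀ v, Tr v h0 → ¬ Tr v h1 → Tr v h2 → ¬ Tr v h3 → False := by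
    intro v t0 t1 t2 t3
    by_cases t4 : Tr v h4
    · obtain ⟨w, w0, w1, w2, w3⟩ := tr h0 m0 h1 m1 h3 m3 h4 m4 (by omega) (by omega) (by omega) v
      exact hn h3 m3 h0 m0 h2 m2 h1 m1 (by omega) (by omega) (by omega) (by omega) (by omega)
        (by omega) w v (w3.2 t4) (w0.2 t0) (fun h => t3 (w2.1 h)) (fun h => t1 (w1.1 h)) t0 t2 t3 t1
    · obtain ⟨w, w0, w1, w2, w3⟩ := tr h0 m0 h2 m2 h3 m3 h4 m4 (by omega) (by omega) (by omega) v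
      exact hn h1 m1 h0 m0 h2 m2 h3 m3 (by omega) (by omega) (by omega) (by omega) (by omega)
        (by omega) w v (w1.2 t2) (w0.2 t0) (fun h => t3 (w2.1 h)) (fun h => t4 (w3.1 h)) t0 t2 t1 t3
  have n24 : ∀ v, ¬ Tr v h0 → Tr v h1 → ¬ Tr v h2 → Tr v h3 → False := by
    intro v t0 t1 t2 t3
    by_cases t4 : Tr v h4
    · obtain ⟨w, w0, w1, w2, w3⟩ := tr h0 m0 h2 m2 h3 m3 h4 m4 (by omega) (by omega) (by omega) v
      exact hn h2 m2 h3 m3 h1 m1 h0 m0 (by omega) (by omega) (by omega) (by omega) (by omega)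
        (by omega) w v (w2.2 t3) (w3.2 t4) (fun h => t2 (w1.1 h)) (fun h => t0 (w0.1 h)) t3 t1 t2 t0
    · obtain ⟨w, w0, w1, w2, w3⟩ := tr h0 m0 h1 m1 h3 m3 h4 m4 (by omega) (by omega) (by omega) v
      exact hn h2 m2 h1 m1 h3 m3 h0 m0 (by omega) (by omega) (by omega) (by omega) (by omega)
        (by omega) w v (w2.2 t3) (w1.2 t1) (fun h => t4 (w3.1 h)) (fun h => t0 (w0.1 h)) t1 t3 t2 t0
  have n23 : ∀ v, ¬ Tr v h0 → Tr v h1 → Tr v h2 → ¬ Tr v h3 → False := by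
    intro v t0 t1 t2 t3
    by_cases t4 : Tr v h4
    · obtain ⟨w, w0, w1, w2, w3⟩ := tr h0 m0 h1 m1 h3 m3 h4 m4 (by omega) (by omega) (by omega) v
      exact n24 w (fun h => t0 (w0.1 h)) (w1.2 t1) (fun h => t3 (w2.1 h)) (w3.2 t4)
    · obtain ⟨w, w0, w1, w2, w3⟩ := tr h1 m1 h2 m2 h3 m3 h4 m4 (by omega) (by omega) (by omega) v
      exact hn h0 m0 h1 m1 h2 m2 h3 m3 (by omega) (by omega) (by omega) (by omega) (by omega)
        (by omega) w v (w0.2 t1) (w1.2 t2) (fun h => t3 (w2.1 h)) (fun h => t4 (w3.1 h)) t1 t2 t0 t3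
  intro v a ha i hi b hb hai hib ta ti tb j hj tj
  by_contra hji
  have hja : j ≠ a := by rintro rfl; exact ta tj
  have hjb : j ≠ b := by rintro rfl; exact tb tj
  rcases lt_or_gt_of_ne hja with q1 | q1
  · obtain ⟨w, w0, w1, w2, w3⟩ := tr j hj a ha i hi b hb q1 hai hib v
    exact n13 w (w0.2 tj) (fun h => ta (w1.1 h)) (w2.2 ti) (fun h => tb (w3.1 h))
  · rcases lt_or_gt_of_ne hjb with q2 | q2
    · rcases lt_or_gt_of_ne hji with q3 | q3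
      · obtain ⟨w, w0, w1, w2, w3⟩ := tr a ha j hj i hi b hb q1 q3 hib v
        exact n23 w (fun h => ta (w0.1 h)) (w1.2 tj) (w2.2 ti) (fun h => tb (w3.1 h))
      · obtain ⟨w, w0, w1, w2, w3⟩ := tr a ha i hi j hj b hb hai q3 q2 v
        exact n23 w (fun h => ta (w0.1 h)) (w1.2 ti) (w2.2 tj) (fun h => tb (w3.1 h))
    · obtain ⟨w, w0, w1, w2, w3⟩ := tr a ha i hi b hb j hj hai hib q2 v
      exact n24 w (fun h => ta (w0.1 h)) (w1.2 ti) (fun h => tb (w2.1 h)) (w3.2 tj)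

end Pool.Agent.MPd439b2.P41N
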