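import Pool.Agent.Lib.MP_d439b2_co.P41N.SpecB

/-!
# MP_d439b2_co, P41N/Sv: representatives of the cells, lifting of layouts (helper88)
-/

set_option autoImplicit false

namespace Pool.Agent.MPd439b2.P41N

open Pool.Agent.MPd439b2 Pool.Agent.MPd439b2.Rep Pool.Agent.MPd439b2.P41 Pool.Agent.MPd439b2.NK

namespace SvAux

variable {V : Type}

open Classical in
/-- the representative of a set -/
noncomputable def rp (x : V) (P : Set V) : V := if h : P.Nonempty then h.some else x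

theorem rp_mem {x : V} {P : Set V} (h : P.Nonempty) : rp x P ∈ P := by
  unfold rp
  rw [dif_pos h]
  exact h.some_mem

theorem rp_eq {x y : V} {P : Set V} (h : P.Nonempty) : rp x P = rp y P := by
  unfold rp
  rw [dif_pos h, dif_pos h]

open Classical in
/-- the retraction -/
noncomputable def pr (Bl : Set V → V → Prop) (x : V) : V :=
  if h : ∃ P, Bl P x then rp x h.choose else x

/-- a union of few small sets is small -/
theorem ncard_un [Finite V] (EX : Set (Set V)) (Q : Set V → Prop) (B : ℕ)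
    (h : ∀ P, Q P → P.ncard ≤ B) : {x | ∃ P ∈ EX, Q P ∧ x ∈ P}.ncard ≤ EX.ncard * B := by
  classical
  set E : Finset (Set V) := (Set.toFinite EX).toFinset with hE
  set f : Set V → Finset V := fun P => if Q P then (Set.toFinite P).toFinset else ∅ with hf
  have h1 : {x | ∃ P ∈ EX, Q P ∧ x ∈ P} ⊆ (E.biUnion f : Finset V) := by
    rintro x ⟨P, h1, h2, h3⟩
    rw [Finset.mem_coe, Finset.mem_biUnion]
    refine ⟨P, (Set.Finite.mem_toFinset _).2 h1, ?_⟩
    show x ∈ (if Q P then (Set.toFinite P).toFinset else ∅)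
    rw [if_pos h2]
    exact (Set.Finite.mem_toFinset _).2 h3
  refine (Set.ncard_le_ncard h1 (Set.toFinite _)).trans ?_
  rw [Set.ncard_coe_finset]
  refine (Finset.card_biUnion_le_card_mul E f B fun P _ => ?_).trans ?_
  · show (if Q P then (Set.toFinite P).toFinset else ∅).card ≤ B
    split_ifs with h2
    · rw [← Set.ncard_eq_toFinset_card P (Set.toFinite P)]
      exact h P h2
    · simp
  · rw [Set.ncard_eq_toFinset_card EX (Set.toFinite EX)]

end SvAux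

open SvAux in
theorem uSv : S_Sv := by
  classical
  intro hEx hFb hW hCe hGc hNe hMg hDm hHr hRI hLX hLS b N n₁ q
  obtain ⟨R₀, hR₀⟩ := hEx hFb hW hCe hGc hNe hMg b N n₁ q
  refine ⟨R₀, fun V _ G B env => ?_⟩
  obtain ⟨Y, EX, hY, hEX, hCY, hrow0⟩ := hR₀ V G B env
  have gc := fun P (hP : RC G B b n₁ q P) => hGc hW hCe V G B b N n₁ q P env hP.1.1
  have mg := (hMg hW hCe hGc hNe V G B b N n₁ q env).2
  have dm := hDm hW hCe hGc hNe hMg V G B b N n₁ q Y EX env hCY hrow0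
  have rne : ∀ P, RC G B b n₁ q P → P.Nonempty := fun P hP => by
    obtain ⟨x, hx, -⟩ := (gc P hP).2.2.2.2
    exact ⟨x, hx⟩
  set Bl : Set V → V → Prop :=
    fun P x => RC G B b n₁ q P ∧ (x ∈ P ∨ (P ∉ EX ∧ x ∈ Mi G P)) with hBl
  have hne : ∀ P x, Bl P x → P.Nonempty := fun P x h => rne P h.1
  have huq : ∀ P Q x, Bl P x → Bl Q x → P = Q := by
    rintro P Q x ⟨hP, hP'⟩ ⟨hQ, hQ'⟩
    by_contra hPQ
    rcases hP' with hP' | ⟨hPE, hP'⟩ <;> rcases hQ' with hQ' | ⟨hQE, hQ'⟩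
    · exact Set.disjoint_left.1 (mg P Q hP.1 hQ.1 hPQ).1 hP' hQ'
    · exact Set.disjoint_left.1 (gc P hP).2.2.2.1 hP' ((gc Q hQ).2.2.1 hQ')
    · exact Set.disjoint_left.1 (gc Q hQ).2.2.2.1 hQ' ((gc P hP).2.2.1 hP')
    · exact Set.disjoint_left.1 (dm P Q hP hQ hPE hQE hPQ) (Or.inr hP') (Or.inr hQ')
  set π : V → V := pr Bl with hπ
  have hπ1 : ∀ P x, Bl P x → π x = rp x P := by
    intro P x h
    have h1 : ∃ P, Bl P x := ⟨P, h⟩
    show pr Bl x = _
    unfold pr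
    rw [dif_pos h1, huq _ P x h1.choose_spec h]
  have hπ0 : ∀ x, (∀ P, ¬ Bl P x) → π x = x := by
    intro x h
    have h1 : ¬ ∃ P, Bl P x := fun ⟨P, hP⟩ => h P hP
    show pr Bl x = _
    unfold pr
    rw [dif_neg h1]
  have hrep : ∀ P x, RC G B b n₁ q P → π (rp x P) = rp x P := by
    intro P x hP
    have h1 := rp_mem (x := x) (rne P hP)
    rw [hπ1 P _ ⟨hP, Or.inl h1⟩]
    exact rp_eq (rne P hP)
  set S : Set V := {x | π x = x} with hS
  set F : Set V := {x | ∃ P, RC G B b n₁ q P ∧ ((P ∉ EX ∧ x ∈ Mi G P) ∨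
    (P ∈ EX ∧ x ∈ P ∧ π x ≠ x))} with hF
  have hπS : ∀ x, π x ∈ S := by
    intro x
    show π (π x) = π x
    by_cases h : ∃ P, Bl P x
    · obtain ⟨P, hP⟩ := h
      rw [hπ1 P x hP]
      exact hrep P x hP.1
    · have h1 := hπ0 x fun P hP => h ⟨P, hP⟩
      rw [h1, h1]
  have hSF : Disjoint S F := by
    rw [Set.disjoint_left]
    rintro x hx ⟨P, hP, ⟨h1, h2⟩ | ⟨-, -, h2⟩⟩
    · have h3 := hπ1 P x ⟨hP, Or.inr ⟨h1, h2⟩⟩
      have h4 := rp_mem (x := x) (rne P hP)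
      rw [← h3, show π x = x from hx] at h4
      exact h2.1 h4
    · exact h2 hx
  refine ⟨S, ?_, fun k₀ hlay => ?_⟩
  · intro C hC x hx y hy hxS hyS
    have h1 := hπ1 C x ⟨hC, Or.inl hx⟩
    have h2 := hπ1 C y ⟨hC, Or.inl hy⟩
    rw [show π x = x from hxS] at h1
    rw [show π y = y from hyS] at h2
    rw [h1, h2]
    exact rp_eq (rne C hC)
  -- the rows
  set R : Set (Set V) := (fun Z => Zᶜ) '' (𝒫 Y) ∪
    (fun x => {u | G.Adj x u}) '' {x | ∃ P ∈ EX, RC G B b n₁ q P ∧ x ∈ P} with hR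
  have hRc : R.ncard ≤ 2 ^ (R₀ * (b + 1)) + (R₀ + R₀ * (b + 1)) * B := by
    refine (Set.ncard_union_le _ _).trans (Nat.add_le_add ?_ ?_)
    · refine (Set.ncard_image_le (Set.toFinite _)).trans ?_
      rw [Set.ncard_powerset Y]
      exact Nat.pow_le_pow_right (by omega) hY
    · refine (Set.ncard_image_le (Set.toFinite _)).trans ?_
      refine (ncard_un EX (RC G B b n₁ q) B fun P hP => ?_).trans (Nat.mul_le_mul_right B hEX)
      exact (Set.ncard_le_ncard Set.subset_union_left (Set.toFinite _)).trans (gc P hP).2.1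
  -- twins
  have htw : ∀ v, v ∉ F → ∀ u, u ∉ F → π v ≠ π u → (G.Adj v u ↔ G.Adj (π v) u) := by
    intro v hv u hu hne'
    by_cases h : ∃ P, Bl P v
    · obtain ⟨P, hP⟩ := h
      obtain ⟨hRP, h1 | ⟨h1, h2⟩⟩ := id hP
      · by_cases hPE : P ∈ EX
        · have h2 : π v = v := by
            by_contra hcon
            exact hv ⟨P, hRP, Or.inr ⟨hPE, h1, hcon⟩⟩
          rw [h2]
        · have h3 := rp_mem (x := v) (rne P hRP)
          have h4 := hπ1 P v hP
          have huP : u ∉ P := by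
            intro huP
            apply hne'
            rw [h4, hπ1 P u ⟨hRP, Or.inl huP⟩]
            exact rp_eq (rne P hRP)
          have huM : u ∉ Mi G P := fun h5 => hu ⟨P, hRP, Or.inl ⟨hPE, h5⟩⟩
          rw [h4, SimpleGraph.adj_comm G v u, SimpleGraph.adj_comm G (rp v P) u]
          rcases ho huP huM with h5 | h5
          · exact iff_of_true (h5 _ h1) (h5 _ h3)
          · exact iff_of_false (h5 _ h1) (h5 _ h3)
      · exact (hv ⟨P, hRP, Or.inl ⟨h1, h2⟩⟩).elim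
    · rw [hπ0 v fun P hP => h ⟨P, hP⟩]
  have hrow : ∀ x ∈ F, ∃ ρ ∈ R, ∀ v, π v ≠ π x → (G.Adj x v ↔ v ∈ ρ) := by
    rintro x ⟨P, hP, ⟨h1, h2⟩ | ⟨h1, h2, -⟩⟩
    · refine ⟨({u | u ∈ Y ∧ ¬ G.Adj x u})ᶜ, Or.inl ⟨_, fun u hu => hu.1, rfl⟩, fun v hv => ?_⟩
      constructor
      · rintro h3 ⟨-, h4⟩
        exact h4 h3
      · intro h3
        by_contra h4
        have h5 := hπ1 P x ⟨hP, Or.inr ⟨h1, h2⟩⟩
        rcases hrow0 P hP h1 x h2 v h4 with h6 | h6 | h6
        · apply hv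
          rw [h5, hπ1 P v ⟨hP, Or.inl h6⟩]
          exact rp_eq (rne P hP)
        · apply hv
          rw [h5, hπ1 P v ⟨hP, Or.inr ⟨h1, h6⟩⟩]
          exact rp_eq (rne P hP)
        · exact h3 ⟨h6, h4⟩
    · exact ⟨{u | G.Adj x u}, Or.inr ⟨x, ⟨P, h1, hP, h2⟩, rfl⟩, fun v _ => Iff.rfl⟩
  have hcut := hHr V G S F π R (fun v _ => hπS v) (fun v hv => hv) hSF htw hrow
  refine hLX hRI k₀ (B + 1) (k₀ + 2 * (2 ^ (R₀ * (b + 1)) + (R₀ + R₀ * (b + 1)) * B)) V G S π
    (fun v _ => hπS v) (fun v hv => ?_)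
    (fun A A' hA hr => (hcut A A' hA).trans (by omega)) hlay
  -- fibres
  refine hLS (B + 1) V G _ ?_
  by_cases hv' : ∃ P, RC G B b n₁ q P ∧ v ∈ P
  · obtain ⟨P, hP, hvP⟩ := hv'
    refine le_trans (Set.ncard_le_ncard (t := P ∪ Mi G P) ?_) ((gc P hP).2.1.trans (by omega))
    rintro x (hx | ⟨hxS, hx⟩)
    · rw [Set.mem_singleton_iff.1 hx]
      exact Or.inl hvP
    · have hx' : π x = v := hx
      by_cases h : ∃ Q, Bl Q x
      · obtain ⟨Q, hQ⟩ := h
        have hvQ : v ∈ Q := by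
          rw [← hx', hπ1 Q x hQ]
          exact rp_mem (hne Q x hQ)
        have hQP : Q = P := huq Q P v ⟨hQ.1, Or.inl hvQ⟩ ⟨hP, Or.inl hvP⟩
        rcases hQ.2 with h1 | h1
        · exact Or.inl (hQP ▸ h1)
        · exact Or.inr (hQP ▸ h1.2)
      · exact (hxS (hπ0 x fun Q hQ => h ⟨Q, hQ⟩)).elim
  · refine le_trans (Set.ncard_le_ncard (t := {v}) ?_) (by rw [Set.ncard_singleton]; omega)
    rintro x (hx | ⟨hxS, hx⟩)
    · exact hx
    · have hx' : π x = v := hx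
      by_cases h : ∃ Q, Bl Q x
      · obtain ⟨Q, hQ⟩ := h
        exact (hv' ⟨Q, hQ.1, by rw [← hx', hπ1 Q x hQ]; exact rp_mem (hne Q x hQ)⟩).elim
      · exact (hxS (hπ0 x fun Q hQ => h ⟨Q, hQ⟩)).elim

end Pool.Agent.MPd439b2.P41N
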