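import Pool.Agent.Lib.MP_d439b2_co.P41N.SpecA

/-! # MP_d439b2_co, P41N: the mixed vertices form a clique -/

set_option autoImplicit false

namespace Pool.Agent.MPd439b2.P41N

open Pool.Agent.MPd439b2 Pool.Agent.MPd439b2.Rep Pool.Agent.MPd439b2.P41 Pool.Agent.MPd439b2.NK

theorem uT1 : S_T1 := by
  intro V G n K l f y x x' εf εy c a b h hn hJ
  by_contra hε
  rw [Bool.not_eq_true] at hε
  subst hε
  refine noR hJ f x ⟨?_, ?_, ?_, ?_, ?_, ?_⟩
  · intro i hi j hj hfx
    exact (h.fK i (by omega) j (by omega)).1 (by rw [hfx]; exact (h.xK j (by omega)).1)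
  · intro i hi j hj hij
    exact (h.fi i (by omega) j (by omega) hij).1
  · intro i hi j hj hij hx
    have h1 := h.dj i (by omega) j (by omega) hij
    exact Set.disjoint_left.1 h1 (h.xK i (by omega)).1 (by rw [hx]; exact (h.xK j (by omega)).1)
  · intro i hi j hj hij
    exact h.ff i (by omega) j (by omega) hij
  · intro i hi j hj hij
    constructor
    · intro h2
      exact absurd h2 (h.an i (by omega) j (by omega) hij _ (h.xK i (by omega)).1 _
        (h.xK j (by omega)).1)
    · intro h2
      exact absurd h2 (by decide)
  · intro i hi j hj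
    by_cases hij : i = j
    · subst hij
      constructor
      · intro h2
        exact absurd h2 (h.xK i (by omega)).2.2.1
      · intro h2
        exact absurd (h2.1 rfl) (by decide)
    · constructor
      · intro _
        exact ⟨fun h3 => absurd h3 hij, fun h3 => absurd h3 (by decide)⟩
      · intro _
        exact h.fc i (by omega) j (by omega) hij _ (h.xK j (by omega)).1

end Pool.Agent.MPd439b2.P41N
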