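import Pool.Agent.Lib.MP_d439b2_co.P41N.TAux

/-! # MP_d439b2_co, P41N/T2: Lemma T, `y i` is complete to `K i` -/

set_option autoImplicit false

namespace Pool.Agent.MPd439b2.P41N

open Pool.Agent.MPd439b2 Pool.Agent.MPd439b2.Rep Pool.Agent.MPd439b2.P41 Pool.Agent.MPd439b2.NK

theorem uT2 : S_T2 := by
  intro hJM V G n K l f y x x' εf εy c a b h hn hJ
  by_contra hc
  have hc : c = false := by simpa using hc
  obtain ⟨ha, hb⟩ := h.cf hc
  have hyc : ∀ i < n, ∀ u ∈ K i, ¬ G.Adj (y i) u := by
    intro i hi u hu h1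
    have := (h.yc i hi u hu).1 h1
    rw [hc] at this
    exact absurd this (by decide)
  have hyo : ∀ i < n, ∀ j < n, i ≠ j → ∀ u ∈ K j, G.Adj (y i) u := by
    intro i hi j hj hij u hu
    rcases lt_or_gt_of_ne hij with h1 | h1
    · exact (h.ya i hi j hj h1 u hu).2 ha
    · exact (h.yb i hi j hj h1 u hu).2 hb
  have hKne : ∀ i < n, ∀ j < n, i ≠ j → ∀ u ∈ K i, u ∉ K j := fun i hi j hj hij u hu hu' =>
    Set.disjoint_left.1 (h.dj i hi j hj hij) hu hu'
  have hfK : ∀ i < n, ∀ j < n, ∀ u ∈ K j, f i ≠ u := by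
    rintro i hi j hj u hu rfl
    exact (h.fK i hi j hj).1 hu
  have hyK : ∀ i < n, ∀ j < n, ∀ u ∈ K j, y i ≠ u := by
    rintro i hi j hj u hu rfl
    exact (h.fK i hi j hj).2 hu
  have hKK : ∀ i < n, ∀ j < n, i ≠ j → ∀ u ∈ K i, ∀ w ∈ K j, u ≠ w := by
    rintro i hi j hj hij u hu w hw rfl
    exact hKne i hi j hj hij u hu hw
  cases hy : εy with
  | false =>
    refine noR hJ y x ⟨?_, ?_, ?_, ?_, ?_, ?_⟩
    · intro i hi j hj
      exact hyK i (by omega) j (by omega) _ (h.xK j (by omega)).1
    · intro i hi j hj hij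
      exact (h.fi i (by omega) j (by omega) hij).2
    · intro i hi j hj hij
      exact hKK i (by omega) j (by omega) hij _ (h.xK i (by omega)).1 _ (h.xK j (by omega)).1
    · intro i hi j hj hij
      rw [h.yy i (by omega) j (by omega) hij, hy]
    · intro i hi j hj hij
      refine ⟨fun h1 => absurd h1 ?_, fun h1 => absurd h1 (by decide)⟩
      exact h.an i (by omega) j (by omega) hij _ (h.xK i (by omega)).1 _ (h.xK j (by omega)).1
    · intro i hi j hj
      by_cases hij : i = j
      · subst hij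
        refine ⟨fun h1 => absurd h1 (hyc i (by omega) _ (h.xK i (by omega)).1), fun h1 => ?_⟩
        exact absurd (h1.1 rfl) (by decide)
      · refine ⟨fun _ => ⟨fun h1 => absurd h1 hij, fun h1 => absurd h1 (by decide)⟩, fun _ => ?_⟩
        exact hyo i (by omega) j (by omega) hij _ (h.xK j (by omega)).1
  | true =>
    have hyy : ∀ i < n, ∀ j < n, i ≠ j → G.Adj (y i) (y j) := fun i hi j hj hij =>
      (h.yy i hi j hj hij).2 hy
    refine hJ (TAux.core hJM (A := K 4) (B := K 5) (c := l false 4) (a := l false 5)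
      (b := l true 5) (u := y) (v := f) (w := x') (h.lK 4 (by omega) _) (h.lK 5 (by omega) _)
      (h.lK 5 (by omega) _) (h.dj 4 (by omega) 5 (by omega) (by decide))
      (h.an 4 (by omega) 5 (by omega) (by decide)) (h.ll 5 (by omega)) ?_ ?_ ?_ ?_ ?_ ?_ ?_ ?_ ?_ ?_
      ?_ ?_)
    · intro i hi
      exact ⟨(h.fK i (by omega) 4 (by omega)).2, (h.fK i (by omega) 5 (by omega)).2⟩
    · intro i hi
      exact ⟨(h.fK i (by omega) 4 (by omega)).1, (h.fK i (by omega) 5 (by omega)).1⟩
    · intro i hi
      have hx := (h.xK i (by omega)).2.1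
      exact ⟨hKne i (by omega) 4 (by omega) (by omega) _ hx,
        hKne i (by omega) 5 (by omega) (by omega) _ hx⟩
    · intro i hi
      exact (h.xK i (by omega)).2.2.2
    · intro i hi j hj hij
      exact hyy i (by omega) j (by omega) hij
    · intro i hi j hj
      exact ⟨(h.fy j (by omega) i (by omega)).symm,
        hyK i (by omega) j (by omega) _ (h.xK j (by omega)).2.1⟩
    · intro i hi j hj hij
      exact ⟨(h.fi i (by omega) j (by omega) hij).1,
        hfK i (by omega) j (by omega) _ (h.xK j (by omega)).2.1,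
        hKK i (by omega) j (by omega) hij _ (h.xK i (by omega)).2.1 _ (h.xK j (by omega)).2.1⟩
    · intro i hi
      exact ⟨fun h1 => h.no i (by omega) h1.symm, hyc i (by omega) _ (h.xK i (by omega)).2.1⟩
    · intro i hi j hj hij
      exact hyo i (by omega) j (by omega) hij _ (h.xK j (by omega)).2.1
    · intro i hi j hj hij
      exact Or.inl (h.fc i (by omega) j (by omega) hij _ (h.xK j (by omega)).2.1)
    · intro i hi
      exact ⟨hyo i (by omega) 4 (by omega) (by omega) _ (h.lK 4 (by omega) _),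
        hyo i (by omega) 5 (by omega) (by omega) _ (h.lK 5 (by omega) _),
        hyo i (by omega) 5 (by omega) (by omega) _ (h.lK 5 (by omega) _)⟩
    · intro i hi
      exact ⟨h.fc i (by omega) 4 (by omega) (by omega) _ (h.lK 4 (by omega) _),
        h.fc i (by omega) 5 (by omega) (by omega) _ (h.lK 5 (by omega) _),
        h.fc i (by omega) 5 (by omega) (by omega) _ (h.lK 5 (by omega) _)⟩

end Pool.Agent.MPd439b2.P41N
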