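import Pool.Agent.Lib.MP_d439b2_co.P41N.TAux

/-! # MP_d439b2_co, P41N/T3: Lemma T, `y i` is anticomplete to the other cells -/

set_option autoImplicit false

namespace Pool.Agent.MPd439b2.P41N

open Pool.Agent.MPd439b2 Pool.Agent.MPd439b2.Rep Pool.Agent.MPd439b2.P41 Pool.Agent.MPd439b2.NK

/-- the common part of both cases: the indices `k, .., k + 3` and the cells `p`, `q` -/
private theorem t3_core (hJM : S_JM) {V : Type} {G : SimpleGraph V} {n : ℕ} {K : ℕ → Set V}
    {l : Bool → ℕ → V} {f y x x' : ℕ → V} {εf εy c a b : Bool}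
    (h : Hs G n K l f y x x' εf εy c a b) (hf : εf = true) (hc : c = true) (k p q : ℕ)
    (hk : k + 4 ≤ n) (hp : p < n) (hq : q < n) (hpq : p ≠ q) (hkp : ∀ i < 4, i + k ≠ p)
    (hkq : ∀ i < 4, i + k ≠ q)
    (hy : ∀ i < 4, (∀ u ∈ K p, G.Adj (y (i + k)) u) ∧ ∀ u ∈ K q, G.Adj (y (i + k)) u)
    (hQ : ∀ i < 4, ∀ j < 4, i ≠ j →
      G.Adj (y (i + k)) (x (j + k)) ∨ G.Adj (x (i + k)) (y (j + k))) : IMS J4 G Set.univ := by
  have hKne : ∀ i < n, ∀ j < n, i ≠ j → ∀ u ∈ K i, u ∉ K j := fun i hi j hj hij u hu hu' =>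
    Set.disjoint_left.1 (h.dj i hi j hj hij) hu hu'
  have hfK : ∀ i < n, ∀ j < n, ∀ u ∈ K j, f i ≠ u := by
    rintro i hi j hj u hu rfl
    exact (h.fK i hi j hj).1 hu
  have hyK : ∀ i < n, ∀ j < n, ∀ u ∈ K j, y i ≠ u := by
    rintro i hi j hj u hu rfl
    exact (h.fK i hi j hj).2 hu
  have hKK : ∀ i < n, ∀ j < n, i ≠ j → ∀ u ∈ K i, ∀ w ∈ K j, u ≠ w := by
    rintro i hi j hj hij u hu w hw rfl
    exact hKne i hi j hj hij u hu hw
  have hx : ∀ i < 4, x (i + k) ∈ K (i + k) := fun i hi => (h.xK _ (by omega)).1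
  refine TAux.core hJM (A := K p) (B := K q) (c := l false p) (a := l false q) (b := l true q)
    (u := fun i => f (i + k)) (v := fun i => y (i + k)) (w := fun i => x (i + k))
    (h.lK p hp _) (h.lK q hq _) (h.lK q hq _) (h.dj p hp q hq hpq) (h.an p hp q hq hpq)
    (h.ll q hq) ?_ ?_ ?_ ?_ ?_ ?_ ?_ ?_ ?_ hQ ?_ ?_
  · intro i hi
    exact ⟨(h.fK _ (by omega) p hp).1, (h.fK _ (by omega) q hq).1⟩
  · intro i hi
    exact ⟨(h.fK _ (by omega) p hp).2, (h.fK _ (by omega) q hq).2⟩
  · intro i hi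
    exact ⟨hKne _ (by omega) p hp (hkp i hi) _ (hx i hi),
      hKne _ (by omega) q hq (hkq i hi) _ (hx i hi)⟩
  · intro i hi
    exact (h.yc _ (by omega) _ (hx i hi)).2 hc
  · intro i hi j hj hij
    exact (h.ff _ (by omega) _ (by omega) (by omega)).2 hf
  · intro i hi j hj
    exact ⟨h.fy _ (by omega) _ (by omega), hfK _ (by omega) _ (by omega) _ (hx j hj)⟩
  · intro i hi j hj hij
    exact ⟨(h.fi _ (by omega) _ (by omega) (by omega)).2,
      hyK _ (by omega) _ (by omega) _ (hx j hj),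
      hKK _ (by omega) _ (by omega) (by omega) _ (hx i hi) _ (hx j hj)⟩
  · intro i hi
    exact ⟨h.no _ (by omega), (h.xK _ (by omega)).2.2.1⟩
  · intro i hi j hj hij
    exact h.fc _ (by omega) _ (by omega) (by omega) _ (hx j hj)
  · intro i hi
    exact ⟨h.fc _ (by omega) p hp (hkp i hi) _ (h.lK p hp _),
      h.fc _ (by omega) q hq (hkq i hi) _ (h.lK q hq _),
      h.fc _ (by omega) q hq (hkq i hi) _ (h.lK q hq _)⟩
  · intro i hi
    exact ⟨(hy i hi).1 _ (h.lK p hp _), (hy i hi).2 _ (h.lK q hq _), (hy i hi).2 _ (h.lK q hq _)⟩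

theorem uT3 : S_T3 := by
  intro hJM V G n K l f y x x' εf εy c a b h hn hJ hf hc
  have hx : ∀ i < n, x i ∈ K i := fun i hi => (h.xK i hi).1
  constructor
  · by_contra ha
    have ha : a = true := by simpa using ha
    refine hJ (t3_core hJM h hf hc 0 4 5 (by omega) (by omega) (by omega) (by decide) (by omega)
      (by omega) (fun i hi => ⟨?_, ?_⟩) ?_)
    · intro u hu
      exact (h.ya _ (by omega) 4 (by omega) (by omega) u hu).2 ha
    · intro u hu
      exact (h.ya _ (by omega) 5 (by omega) (by omega) u hu).2 ha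
    · intro i hi j hj hij
      rcases lt_or_gt_of_ne hij with h1 | h1
      · exact Or.inl ((h.ya _ (by omega) _ (by omega) (by omega) _ (hx _ (by omega))).2 ha)
      · exact Or.inr ((h.ya _ (by omega) _ (by omega) (by omega) _ (hx _ (by omega))).2 ha).symm
  · by_contra hb
    have hb : b = true := by simpa using hb
    refine hJ (t3_core hJM h hf hc 2 0 1 (by omega) (by omega) (by omega) (by decide) (by omega)
      (by omega) (fun i hi => ⟨?_, ?_⟩) ?_)
    · intro u hu
      exact (h.yb _ (by omega) 0 (by omega) (by omega) u hu).2 hb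
    · intro u hu
      exact (h.yb _ (by omega) 1 (by omega) (by omega) u hu).2 hb
    · intro i hi j hj hij
      rcases lt_or_gt_of_ne hij with h1 | h1
      · exact Or.inr ((h.yb _ (by omega) _ (by omega) (by omega) _ (hx _ (by omega))).2 hb).symm
      · exact Or.inl ((h.yb _ (by omega) _ (by omega) (by omega) _ (hx _ (by omega))).2 hb)

end Pool.Agent.MPd439b2.P41N
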