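import Pool.Agent.Lib.MP_d439b2_co.P41N.SpecA

/-! # MP_d439b2_co, P41N/TH: Lemma T, a homogeneous subsequence -/

set_option autoImplicit false

namespace Pool.Agent.MPd439b2.P41N

open Pool.Agent.MPd439b2 Pool.Agent.MPd439b2.Rep Pool.Agent.MPd439b2.P41 Pool.Agent.MPd439b2.NK

/-- the increasing enumeration of a finite set -/
private theorem th_enum (T : Finset ℕ) : ∃ h : ℕ → ℕ, (∀ p < T.card, h p ∈ T) ∧
    ∀ p q, p < q → q < T.card → h p < h q := by
  refine ⟨fun p => if hp : p < T.card then T.orderEmbOfFin rfl ⟨p, hp⟩ else 0, ?_, ?_⟩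
  · intro p hp
    simp only [dif_pos hp]
    exact T.orderEmbOfFin_mem rfl _
  · intro p q hpq hq
    simp only [dif_pos hq, dif_pos (hpq.trans hq)]
    exact (T.orderEmbOfFin rfl).lt_iff_lt.2 hpq

theorem uTH : S_TH := by
  intro hR n
  obtain ⟨m, hm⟩ := hR (Prop × Prop × Prop × Prop × Prop × Prop × Prop) (max n 3 + 1)
  refine ⟨m, ?_⟩
  intro V G e S T f y hCe hTS hmT hT hinj
  obtain ⟨h, hh1, hh2⟩ := th_enum T
  obtain ⟨s, ⟨c1, c2, c3, c4, c5, c6, c7⟩, hs1, hs2, hs3⟩ := hm fun p q =>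
    (y (h p) ∈ Mi G (Kc G e S (h q)), y (h q) ∈ Mi G (Kc G e S (h p)),
      G.Adj (f (h p)) (f (h q)), G.Adj (y (h p)) (y (h q)), Tc G e (y (h p)) (h q),
      Tc G e (y (h q)) (h p), Tc G e (y (h p)) (h p))
  set M := max n 3 with hM
  have hnM : n ≤ M := le_max_left _ _
  have h3M : 3 ≤ M := le_max_right _ _
  clear_value M
  set σ : ℕ → ℕ := fun i => h (s i) with hσ
  have hχ : ∀ k l, k < l → l < M + 1 →
      (y (σ k) ∈ Mi G (Kc G e S (σ l)) ↔ c1) ∧ (y (σ l) ∈ Mi G (Kc G e S (σ k)) ↔ c2) ∧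
      (G.Adj (f (σ k)) (f (σ l)) ↔ c3) ∧ (G.Adj (y (σ k)) (y (σ l)) ↔ c4) ∧
      (Tc G e (y (σ k)) (σ l) ↔ c5) ∧ (Tc G e (y (σ l)) (σ k) ↔ c6) ∧
      (Tc G e (y (σ k)) (σ k) ↔ c7) := by
    intro k l hkl hl
    have h1 := hs3 k l hkl hl
    simp only [Prod.mk.injEq, eq_iff_iff] at h1
    exact h1
  clear hs3
  have hσT : ∀ i < M + 1, σ i ∈ T := fun i hi => hh1 _ ((hs2 i hi).trans_le hmT)
  have hσlt : ∀ i j, i < j → j < M + 1 → σ i < σ j := fun i j hij hj =>
    hh2 _ _ (hs1 i j hij hj) ((hs2 j hj).trans_le hmT)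
  clear_value σ
  have hσS : ∀ i < M + 1, σ i ∈ S := fun i hi => hTS (hσT i hi)
  have hσne : ∀ i < M + 1, ∀ j < M + 1, i ≠ j → σ i ≠ σ j := by
    intro i hi j hj hij
    rcases lt_or_gt_of_ne hij with h1 | h1
    · exact (hσlt i j h1 hj).ne
    · exact (hσlt j i h1 hi).ne'
  have n1 : ¬ c1 := by
    intro hc
    have h1 := (hχ 0 1 (by omega) (by omega)).1.2 hc
    have h2 := (hχ 0 2 (by omega) (by omega)).1.2 hc
    exact hCe.mdj (hσS 1 (by omega)) (hσS 2 (by omega)) (hσne 1 (by omega) 2 (by omega) (by decide))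
      h1 h2
  have n2 : ¬ c2 := by
    intro hc
    have h1 := (hχ 0 2 (by omega) (by omega)).2.1.2 hc
    have h2 := (hχ 1 2 (by omega) (by omega)).2.1.2 hc
    exact hCe.mdj (hσS 0 (by omega)) (hσS 1 (by omega)) (hσne 0 (by omega) 1 (by omega) (by decide))
      h1 h2
  have hf : ∀ i < M + 1, f (σ i) ∈ Mi G (Kc G e S (σ i)) := fun i hi => (hT _ (hσT i hi)).1
  have hyR : ∀ i < M + 1, y (σ i) ∉ Rr G e S := fun i hi => (hT _ (hσT i hi)).2.1
  have hfR : ∀ i < M + 1, f (σ i) ∉ Rr G e S := fun i hi => (hCe.mx _ (hσS i hi) _ (hf i hi)).1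
  have hyM : ∀ i < M + 1, ∀ j < M + 1, y (σ i) ∉ Mi G (Kc G e S (σ j)) := by
    intro i hi j hj
    rcases lt_trichotomy i j with h1 | h1 | h1
    · exact fun h2 => n1 ((hχ i j h1 hj).1.1 h2)
    · rw [← h1]; exact (hT _ (hσT i hi)).2.2.1
    · exact fun h2 => n2 ((hχ j i h1 hi).2.1.1 h2)
  have hTc : ∀ i < M + 1, ∀ j < M + 1, ∀ u ∈ Kc G e S (σ j),
      (G.Adj (y (σ i)) u ↔ Tc G e (y (σ i)) (σ j)) := by
    intro i hi j hj u hu
    obtain ⟨h1, h2⟩ := hCe.hom (hσS j hj) (hyR i hi) (hyM i hi j hj)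
    exact ⟨fun h3 => by_contra fun h4 => h2 h4 u hu h3, fun h3 => h1 h3 u hu⟩
  have hx : ∀ i, ∃ x x' : V, i < M + 1 → x ∈ Kc G e S (σ i) ∧ x' ∈ Kc G e S (σ i) ∧
      ¬ G.Adj (f (σ i)) x ∧ G.Adj (f (σ i)) x' := by
    intro i
    by_cases hi : i < M + 1
    · obtain ⟨-, ⟨x', hx'1, hx'2⟩, x, hx1, hx2⟩ := hf i hi
      exact ⟨x, x', fun _ => ⟨hx1, hx'1, hx2, hx'2⟩⟩
    · exact ⟨y 0, y 0, fun h1 => absurd h1 hi⟩
  choose x x' hxx using hx
  have hmemK : ∀ i < M + 1, ∀ t, e t (σ i) ∈ Kc G e S (σ i) := fun i hi t =>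
    hCe.ls.mem_K (hσS i hi) t
  classical
  refine ⟨σ, x, x', decide c3, decide c4, decide c7, decide c5, decide c6,
    fun i hi => hσT i (by omega), fun i j hij hj => hσlt i j hij (by omega), ?_⟩
  refine ⟨?_, ?_, ?_, ?_, ?_, ?_, ?_, ?_, ?_, ?_, ?_, ?_, ?_, ?_, ?_, ?_⟩
  · intro i hi t
    exact hmemK i (by omega) t
  · intro i hi
    exact hCe.ls.adj (hσS i (by omega)) false
  · intro i hi j hj hij
    exact hCe.dj (hσS i (by omega)) (hσS j (by omega)) (hσne i (by omega) j (by omega) hij)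
  · intro i hi j hj hij u hu v hv
    exact hCe.an (hσS i (by omega)) (hσS j (by omega)) (hσne i (by omega) j (by omega) hij) hu hv
  · intro i hi j hj
    exact ⟨fun h1 => hfR i (by omega) (Kc_sub h1), fun h1 => hyR i (by omega) (Kc_sub h1)⟩
  · intro i hi j hj h1
    have h2 := hf i (by omega)
    rw [h1] at h2
    exact hyM j (by omega) i (by omega) h2
  · intro i hi j hj hij
    have hne := hσne i (by omega) j (by omega) hij
    refine ⟨fun h1 => ?_, fun h1 => hne (hinj (hσT i (by omega)) (hσT j (by omega)) h1)⟩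
    have h2 := hf j (by omega)
    rw [← h1] at h2
    exact hCe.mdj (hσS i (by omega)) (hσS j (by omega)) hne (hf i (by omega)) h2
  · intro i hi
    exact hxx i (by omega)
  · intro i hi j hj hij u hu
    exact hCe.co (hσS i (by omega)) (hσS j (by omega)) (hσne i (by omega) j (by omega) hij)
      (hf i (by omega)) hu
  · intro i hi
    exact (hT _ (hσT i (by omega))).2.2.2
  · intro i hi j hj hij
    rw [decide_eq_true_iff]
    rcases lt_or_gt_of_ne hij with h1 | h1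
    · exact (hχ i j h1 (by omega)).2.2.1
    · rw [SimpleGraph.adj_comm]
      exact (hχ j i h1 (by omega)).2.2.1
  · intro i hi j hj hij
    rw [decide_eq_true_iff]
    rcases lt_or_gt_of_ne hij with h1 | h1
    · exact (hχ i j h1 (by omega)).2.2.2.1
    · rw [SimpleGraph.adj_comm]
      exact (hχ j i h1 (by omega)).2.2.2.1
  · intro i hi u hu
    rw [decide_eq_true_iff, hTc i (by omega) i (by omega) u hu]
    exact (hχ i M (by omega) (by omega)).2.2.2.2.2.2
  · intro i hi j hj hij u hu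
    rw [decide_eq_true_iff, hTc i (by omega) j (by omega) u hu]
    exact (hχ i j hij (by omega)).2.2.2.2.1
  · intro i hi j hj hij u hu
    rw [decide_eq_true_iff, hTc i (by omega) j (by omega) u hu]
    exact (hχ j i hij (by omega)).2.2.2.2.2.1
  · intro hc
    have n7 : ¬ c7 := by simpa using hc
    have key : ∀ i < M, ∀ j < M, i ≠ j → Tc G e (y (σ i)) (σ j) := by
      intro i hi j hj hij
      have h1 : ∀ u ∈ Kc G e S (σ i), ¬ G.Adj (y (σ i)) u := by
        intro u hu h2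
        exact n7 ((hχ i M (by omega) (by omega)).2.2.2.2.2.2.1
          ((hTc i (by omega) i (by omega) u hu).1 h2))
      have h2 := hCe.fa (σ i) (hσS i (by omega)) (f (σ i)) (hf i (by omega)) (y (σ i))
        (hyR i (by omega)) h1 (fun h3 => (hT _ (hσT i (by omega))).2.2.2 h3.symm) (σ j)
        (hσS j (by omega)) (hσne j (by omega) i (by omega) hij.symm) _ (hmemK j (by omega) false)
      exact ⟨false, h2⟩
    refine ⟨decide_eq_true ?_, decide_eq_true ?_⟩
    · exact (hχ 0 1 (by omega) (by omega)).2.2.2.2.1.1 (key 0 (by omega) 1 (by omega) (by decide))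
    · exact (hχ 0 1 (by omega) (by omega)).2.2.2.2.2.1.1 (key 1 (by omega) 0 (by omega) (by decide))

end Pool.Agent.MPd439b2.P41N
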