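import Pool.Agent.Lib.MP_d439b2_co.P41N.SpecA

/-! # MP_d439b2_co, P41N: no crossing traces -/

set_option autoImplicit false

namespace Pool.Agent.MPd439b2.P41N

open Pool.Agent.MPd439b2 Pool.Agent.MPd439b2.Rep Pool.Agent.MPd439b2.P41 Pool.Agent.MPd439b2.NK

namespace Trx

variable {V : Type} {G : SimpleGraph V} {e : Bool → ℕ → V} {S : Finset ℕ}

theorem full (hG : FP G) (hL : LS G e S) {p q r : ℕ} (hp : p ∈ S) (hq : q ∈ S) (hr : r ∈ S)
    (hpq : p ≠ q) (hrp : r ≠ p) (hrq : r ≠ q) {v : V} (h1 : Tc G e v p) (h2 : Tc G e v q)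
    (h3 : ¬ Tc G e v r) (s' : Bool) : G.Adj v (e s' p) := by
  obtain ⟨s, hs⟩ := h1
  obtain ⟨t, ht⟩ := h2
  by_cases hss : s' = s
  · rw [hss]
    exact hs
  have hs' : s' = !s := by
    cases s <;> cases s' <;> simp_all
  subst hs'
  by_contra hcon
  exact hG (e (!s) p) (e s p) v (e t q) (e false r) (hL.adj hp s).symm hs.symm ht
    (fun h => hL.nadj hp hq hpq (!s) t (by rw [h]; exact ht)) (hL.ne hp hq hpq s t)
    (fun h => hcon h.symm) (hL.nadj hp hq hpq _ _) (hL.nadj hp hq hpq _ _)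
    (hL.nadj hr hp hrp _ _) (hL.nadj hr hp hrp _ _) (fun h => h3 ⟨false, h.symm⟩)
    (hL.nadj hr hq hrq _ _)

end Trx

theorem uTr : S_Tr := by
  intro V G e S hG hL a ha b hb c hc d hd hab hac had hbc hbd hcd y y' h1 h2 h3 h4 k1 k2 k3 k4
  have ya := Trx.full hG hL ha hb hc hab hac.symm hbc.symm h1 h2 h3 false
  have yb := Trx.full hG hL hb ha hc hab.symm hbc.symm hac.symm h2 h1 h3 false
  have yb' := Trx.full hG hL hb hc ha hbc hab hac k1 k2 k3 false
  have yc' := Trx.full hG hL hc hb ha hbc.symm hac hab k2 k1 k3 false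
  have hne1 : e false a ≠ y' := fun h => hL.nadj ha hb hab false false (by rw [h]; exact yb')
  by_cases hyy : G.Adj y y'
  · exact hG (e false a) y y' (e false c) (e false d) ya.symm hyy yc' hne1
      (fun h => hL.nadj hc ha hac.symm false false (by rw [← h]; exact ya))
      (fun h => k3 ⟨false, h.symm⟩) (hL.nadj ha hc hac _ _) (fun h => h3 ⟨false, h⟩)
      (hL.nadj hd ha had.symm _ _) (fun h => h4 ⟨false, h.symm⟩) (fun h => k4 ⟨false, h.symm⟩)
      (hL.nadj hd hc hcd.symm _ _)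
  · exact hG (e false a) y (e false b) y' (e false d) ya.symm yb yb'.symm
      (hL.ne ha hb hab false false) (fun h => k3 (by rw [← h]; exact h1))
      (hL.nadj ha hb hab _ _) (fun h => k3 ⟨false, h.symm⟩) hyy
      (hL.nadj hd ha had.symm _ _) (fun h => h4 ⟨false, h.symm⟩) (hL.nadj hd hb hbd.symm _ _)
      (fun h => k4 ⟨false, h.symm⟩)

end Pool.Agent.MPd439b2.P41N
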