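import Pool.Agent.Lib.MP_d439b2_co.P41N.SpecB

/-! # MP_d439b2_co, P41N: the vertices of `Rr` have many non-neighbours -/

set_option autoImplicit false

namespace Pool.Agent.MPd439b2.P41N

open Pool.Agent.MPd439b2 Pool.Agent.MPd439b2.Rep Pool.Agent.MPd439b2.P41 Pool.Agent.MPd439b2.NK

theorem uW0 : S_W0 := by
  classical
  intro V _ G B b N n₁ q e S hE hL hS v hv hw
  have h1 : ({i ∈ S | Tc G e v i}).card ≤ 1 := by
    rw [Finset.card_le_one]
    intro a ha c hc
    rw [Finset.mem_filter] at ha hc
    exact hv a ha.1 c hc.1 ha.2 hc.2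
  have h2 := Finset.card_filter_add_card_filter_not (s := S) (fun i => Tc G e v i)
  have h3 : ((S.filter (fun i => ¬ Tc G e v i)).image (e false)).card =
      (S.filter (fun i => ¬ Tc G e v i)).card := by
    apply Finset.card_image_of_injOn
    intro i hi j hj hij
    rw [Finset.mem_coe, Finset.mem_filter] at hi hj
    by_contra hne
    exact hL.ne hi.1 hj.1 hne false false hij
  have h4 : (((S.filter (fun i => ¬ Tc G e v i)).image (e false) : Finset V) : Set V) ⊆
      {u | ¬ G.Adj v u} := by
    intro u hu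
    rw [Finset.mem_coe, Finset.mem_image] at hu
    obtain ⟨i, hi, rfl⟩ := hu
    rw [Finset.mem_filter] at hi
    exact fun h => hi.2 ⟨false, h⟩
  have h5 := Set.ncard_le_ncard h4 (Set.toFinite _)
  rw [Set.ncard_coe_finset, h3] at h5
  have h6 : {u | ¬ G.Adj v u}.ncard ≤ b := hw
  have h7 := hE.h2
  omega

end Pool.Agent.MPd439b2.P41N
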