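import Pool.Agent.Lib.MP_d439b2_co.P41N.C1
import Pool.Agent.Lib.MP_d439b2_co.P41N.C2
import Pool.Agent.Lib.MP_d439b2_co.P41N.Ce
import Pool.Agent.Lib.MP_d439b2_co.P41N.Tr
import Pool.Agent.Lib.MP_d439b2_co.P41N.JM
import Pool.Agent.Lib.MP_d439b2_co.P41N.T1
import Pool.Agent.Lib.MP_d439b2_co.P41N.T2
import Pool.Agent.Lib.MP_d439b2_co.P41N.T3
import Pool.Agent.Lib.MP_d439b2_co.P41N.TH
import Pool.Agent.Lib.MP_d439b2_co.P41N.LT
import Pool.Agent.Lib.MP_d439b2_co.P41N.Sr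
import Pool.Agent.Lib.MP_d439b2_co.P41N.Sg
import Pool.Agent.Lib.MP_d439b2_co.P41N.Qm
import Pool.Agent.Lib.MP_d439b2_co.P41N.Ra
import Pool.Agent.Lib.MP_d439b2_co.P41N.Gh
import Pool.Agent.Lib.MP_d439b2_co.P41N.Gn
import Pool.Agent.Lib.MP_d439b2_co.P41N.W0
import Pool.Agent.Lib.MP_d439b2_co.P41N.Gc
import Pool.Agent.Lib.MP_d439b2_co.P41N.Ne
import Pool.Agent.Lib.MP_d439b2_co.P41N.Mg
import Pool.Agent.Lib.MP_d439b2_co.P41N.Di
import Pool.Agent.Lib.MP_d439b2_co.P41N.Rn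
import Pool.Agent.Lib.MP_d439b2_co.P41N.Pa
import Pool.Agent.Lib.MP_d439b2_co.P41N.Al
import Pool.Agent.Lib.MP_d439b2_co.P41N.P0
import Pool.Agent.Lib.MP_d439b2_co.P41N.P1
import Pool.Agent.Lib.MP_d439b2_co.P41N.P2
import Pool.Agent.Lib.MP_d439b2_co.P41N.P3
import Pool.Agent.Lib.MP_d439b2_co.P41N.P4
import Pool.Agent.Lib.MP_d439b2_co.P41N.Pc
import Pool.Agent.Lib.MP_d439b2_co.P41N.Fb
import Pool.Agent.Lib.MP_d439b2_co.P41N.Ex
import Pool.Agent.Lib.MP_d439b2_co.P41N.Dm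
import Pool.Agent.Lib.MP_d439b2_co.P41N.Sv
import Pool.Agent.Lib.MP_d439b2_co.P41N.Sa
import Pool.Agent.Lib.MP_d439b2_co.P41N.Nk
import Pool.Agent.Lib.MP_d439b2_co.P41.Final

/-!
# MP_d439b2_co, P41N: assembly (helper26, helper88)

* `nkRed`: large induced matchings can be removed from `(P_4 + P_1)`-free graphs without `co(P_3 + 4 P_2)`.
* `bl41F`: the pair `(P_4 + P_1, co(P_3 + 4 P_2))` has bounded layouts.
-/

set_option autoImplicit false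

namespace Pool.Agent.MPd439b2.P41N

open Pool.Agent.MPd439b2 Pool.Agent.MPd439b2.Rep Pool.Agent.MPd439b2.P41

theorem cCe : C_Ce := uCe uC1 uC2

theorem cT : C_T := uLT W.ramC uJM uT1 uT2 uT3 uTH

theorem cGn : C_Gn := uGn cT uSg uTr uQm uRa uGh uSr uC1 uC2 uCe

theorem cAl : C_Al := uAl uW0 cCe uGc uPa cT

theorem cPc : C_Pc := uPc uW0 cCe uGc uNe uMg uDi uP0 uP1 uP2 uP3 W.ramC uP4 uTr uJM

theorem cFb : C_Fb := uFb cAl cPc W.ramC uW0 cCe uGc uNe uMg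

/-- **Theorem N**: the induced matchings are allowed -/
theorem nkRed (T : Set Ty) (hB : BLT H41 J4 (insert (false, false, false) T)) : BLT H41 J4 T :=
  uNk cGn (uSv uEx cFb uW0 cCe uGc uNe uMg uDm P41.tHr ON.oRI ON.oLX ON.oLS)
    (uSa cCe uDi uRn uW0 uGc uNe uMg) P41.tFp T hB

/-- bounded layouts -/
theorem bl41F : HC.BL H41 J4 := bl41 (nkRed {(true, false, false)})

end Pool.Agent.MPd439b2.P41N
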