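import Pool.Agent.Lib.MP_d439b2_co.P41N.SpecB

/-!
# MP_d439b2_co, P41N, module `Rn`: few letters are not robust
-/

set_option autoImplicit false

namespace Pool.Agent.MPd439b2.P41N

open Pool.Agent.MPd439b2 Pool.Agent.MPd439b2.Rep Pool.Agent.MPd439b2.P41 Pool.Agent.MPd439b2.NK

theorem uRn : S_Rn := by
  classical
  intro hCe hDi V _ G B b N n₁ q e S hE hL T hT hR
  by_contra hcon
  rw [not_lt] at hcon
  have h1 : ∀ i, ∃ D : Finset ℕ, i ∈ T → D ⊆ S ∧ D.card ≤ q ∧ i ∉ D ∧ ¬ Gi G B b e (S \ D) i := by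
    intro i
    by_cases hi : i ∈ T
    · have h2 := hR i hi
      unfold Rb at h2
      push Not at h2
      obtain ⟨D, hD1, hD2, hD3, hD4⟩ := h2
      exact ⟨D, fun _ => ⟨hD1, hD2, hD3, hD4⟩⟩
    · exact ⟨∅, fun h => absurd h hi⟩
  choose D hD using h1
  obtain ⟨T', hT', hc', hi'⟩ := hDi q N T D (fun i hi => ⟨(hD i hi).2.1, (hD i hi).2.2.1⟩) hcon
  have hN := hE.hN
  obtain ⟨i, hi, hg⟩ := hE.gd e T' (hL.mono (hT'.trans hT)) hc'.ge
  have hsub : T' ⊆ S \ D i := fun j hj =>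
    Finset.mem_sdiff.2 ⟨hT (hT' hj), hi' i hi j hj⟩
  have hce : Ce G e (S \ D i) := hCe V G e (S \ D i) hE.fp (hL.mono Finset.sdiff_subset) (by
    have := Finset.card_le_card hsub
    omega)
  exact (hD i (hT' hi)).2.2.2 (hce.gi hsub (by omega) hi hg)

end Pool.Agent.MPd439b2.P41N
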