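import Pool.Agent.Lib.MP_d439b2_co.P41N.Base
import Pool.Agent.Lib.MP_577a3c26_an.Ramsey

/-!
# MP_d439b2_co, P41N, part A: every large induced matching has a good letter (helper26, note 3069, sections 1 to 3)

Every `S_X` is a statement to be proved in its own file `P41N/X.lean`, `theorem uX (used statements) : S_X`; the docstring
contains the complete proof.  `x ~ y` means `G.Adj x y`, `K i` means `Kc G e S i`, `FP for the path a, b, c, d and z` means the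
hypothesis `FP G` for `a b c d z`.  Basic lemmas: `P41N/Base.lean` (`Ce.an`, `Ce.co`, `Ce.mdj`, `Ce.hom`, `mi_edge`, `two`, `noP4`, ..).
-/

set_option autoImplicit false

namespace Pool.Agent.MPd439b2.P41N

open Pool.Agent.MPd439b2 Pool.Agent.MPd439b2.Rep Pool.Agent.MPd439b2.P41 Pool.Agent.MPd439b2.NK

/-! ## 1. The cells -/

/-- **C1** (100 lines).  The cells are closed, touch only their own letter, and are connected.

Proof. SECOND: let `x ∈ K i` touch the letter `j ∈ S`, `j ≠ i`: `x ~ q = e t j`.  `x ∈ Rr`, so `x` does not touch `i`, and there is `u ∈ Rr` with `x ~ u`, `u ~ p = e s i`.  `noP4` for the path `q, x, u, p`: `u` touches `i`, so it does not touch `j` and `q ≁ u`; `q ≁ p` (`LS.nadj`); `x ≁ p`;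
`q ≠ u` (`u ~ p`, `q ≁ p`), `x ≠ p` (`x ~ q`, `p ≁ q`).  FIRST: let `v ∈ Rr`, `v ~ x ∈ K i`.  If `x` touches `i`: `v ∈ K i` by definition.  Otherwise `x ~ u ∈ Rr`, `u ~ p = e s i`.  If `v` touches `i` or `v ~ u` then `v ∈ K i`.  Otherwise `noP4` for `v, x, u, p` (`v ≠ u`: `u ~ p`, `v ≁ p`; `x ≠ p`: `p` touches `i`).
THIRD: every `v ∈ K i` is in a connected subset of `K i` containing `e false i`: `P = {e false i, e true i}` (`Conn.pair`), `v` touches `i`: `insert v P` (`Conn.insert`; every vertex of `Rr` which touches `i` is in `K i`), otherwise `v ~ u`, `u` touches `i`: `insert v (insert u P)`.  So if `B ⊆ K i` is not empty and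
`B ≠ K i`: apply the connectedness of such a set `A` to `B ∩ A`, where `A` belongs to an element of `B` if `e false i ∉ B`, and to an element of `K i \ B` if `e false i ∈ B` (as in `exists_comp` of `Basic.lean`). -/
def S_C1 : Prop := ∀ (V : Type) (G : SimpleGraph V) (e : Bool → ℕ → V) (S : Finset ℕ), FP G →
  LS G e S → 5 ≤ S.card →
    (∀ i ∈ S, ∀ x ∈ Kc G e S i, ∀ v ∈ Rr G e S, G.Adj v x → v ∈ Kc G e S i) ∧
    (∀ i ∈ S, ∀ x ∈ Kc G e S i, ∀ j ∈ S, Tc G e x j → j = i) ∧ ∀ i ∈ S, Conn G (Kc G e S i)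

/-- **C2** (80 lines).  The vertices which are mixed on a cell.  (Uses `S_C1`.)

Proof. `v ∈ Mi (K i)` is adjacent to an element of `K i`, so `v ∉ Rr` (otherwise `v ∈ K i` by closedness).  `mi_edge`: adjacent `x, x' ∈ K i`, `v ≁ x`, `v ~ x'`.  By `two` there is `k ∈ S`, `k ≠ i`, `v ~ y = e s k`.  CLAIM: if `k ∈ S`, `k ≠ i`, `v ~ y = e s k` then `v ~ z` for all `z ∈ Rr`, `z ∉ K i`, `z ≁ y`: otherwise FP for the path
`x, x', v, y` and `z`: `x, x' ≁ y` (cells touch only their own letter), `z ≁ x, x'` (closedness); `x ≠ v` (`v ∉ K i`), `x' ≠ y` (`y` touches `k`).  Choose `j ∈ S`, `j ≠ i, k` (`5 ≤ S.card`).  The claim for `z = e false j` (`LS.mem_R`, not in `K i` as it touches `j`, `≁ y` by `LS.nadj`) gives `v ~ e false j`.  Now let `z ∈ Rr`,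
`z ∉ K i`.  If `z ≁ y`: claim.  If `z ~ y` then `z` touches `k`, so it does not touch `j`, and the claim for `j`, `e false j` applies. -/
def S_C2 : Prop := S_C1 → ∀ (V : Type) (G : SimpleGraph V) (e : Bool → ℕ → V) (S : Finset ℕ),
  FP G → LS G e S → 5 ≤ S.card → ∀ i ∈ S, ∀ v ∈ Mi G (Kc G e S i), v ∉ Rr G e S ∧
    ∀ z ∈ Rr G e S, z ∉ Kc G e S i → G.Adj v z

/-- **Ce** (80 lines).  All basic facts.  (Uses `S_C1`, `S_C2`.)

Proof. Only `fa` is left.  First, for `i ≠ j` in `S` the cells `K i`, `K j` are disjoint and anticomplete (prove it as `Ce.dj`, `Ce.an` in `Base.lean`, or build `Ce` from a structure without `fa`).  Let `f ∈ Mi (K i)`, `y ∉ Rr` anticomplete to `K i`, `y ≁ f`.  By `two` `y` touches some `j₀ ∈ S`, `y ~ e s j₀`, and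
`j₀ ≠ i` as `e s i ∈ K i`.  Let `j ∈ S`, `j ≠ i`.  `y ∉ Mi (K j)`: otherwise `y` is complete to `K i` by `S_C2` (`K i ⊆ Rr`, disjoint from `K j`).  So by `ho` (`y ∉ K j` as `y ∉ Rr`) `y` is complete to `K j`, which is the claim, or anticomplete to `K j`.  In the second case `j₀ ≠ j`; let `x ∈ K i`, `x ≁ f`.  FP for the path
`y, e s j₀, f, e false j` and `x`: `f ~ e s j₀`, `f ~ e false j` by `S_C2`; `y ≁ f`; `y ≁ e false j`; `e s j₀ ≁ e false j`; `x ≁ y`, `x ≁ f`, `x` is not adjacent to `e s j₀`, `e false j` (`x` touches only `i`). -/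
def S_Ce : Prop := S_C1 → S_C2 → ∀ (V : Type) (G : SimpleGraph V) (e : Bool → ℕ → V)
  (S : Finset ℕ), FP G → LS G e S → 5 ≤ S.card → Ce G e S

/-- **Tr** (60 lines).  No crossing traces.

Proof. (1) Let `v ~ e s p`, `v ~ e t q`, `p ≠ q`, `v ≁ e false r` and `r ≠ p, q` (all in `S`).  Then `v ~ e s' p` for all `s'`: otherwise `v ≁ e (!s) p`, and FP for the path `e (!s) p, e s p, v, e t q` and `e false r`.  So `y ~ e false a` (`p = a`, `q = b`, `r = c`), `y ~ e false b`, `y' ~ e false b` (`p = b`, `q = c`, `r = a`),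
`y' ~ e false c`.  (2) `y ~ y'`: FP for the path `e false a, y, y', e false c` and `e false d`.  (3) `y ≁ y'`: FP for the path `e false a, y, e false b, y'` and `e false d` (`y ≠ y'` since `y` touches `a`). -/
def S_Tr : Prop := ∀ (V : Type) (G : SimpleGraph V) (e : Bool → ℕ → V) (S : Finset ℕ), FP G →
  LS G e S → ∀ a ∈ S, ∀ b ∈ S, ∀ c ∈ S, ∀ d ∈ S, a ≠ b → a ≠ c → a ≠ d → b ≠ c → b ≠ d →
  c ≠ d → ∀ y y' : V, Tc G e y a → Tc G e y b → ¬ Tc G e y c → ¬ Tc G e y d → Tc G e y' b →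
  Tc G e y' c → ¬ Tc G e y' a → ¬ Tc G e y' d → False

/-! ## 2. Lemma T -/

/-- **JM** (100 lines).  A model of `J4 = co(P_3 + 4 P_2)`: the `P_3` is `a, c, b` (centre `c`), the `P_2`'s are `P i, Q i`.

Proof. `ims_J4` (`Rep/RowX2.lean`) for the sets `S 0 = {c}`, `S 1 = {a}`, `S 2 = {b}`, `S (3 + 2 i) = P i`, `S (4 + 2 i) = Q i` (`i < 4`); the table `rJ4` has the non-adjacent pairs `(1,0), (2,0), (4,3), (6,5), (8,7), (10,9)`. -/
def S_JM : Prop := ∀ (V : Type) (G : SimpleGraph V) (c a b : V) (P Q : ℕ → Set V),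
  (∀ i < 4, Conn G (P i) ∧ Conn G (Q i)) →
  c ≠ a → c ≠ b → ¬ G.Adj c a → ¬ G.Adj c b → G.Adj a b →
  (∀ i < 4, c ∉ P i ∧ a ∉ P i ∧ b ∉ P i ∧ c ∉ Q i ∧ a ∉ Q i ∧ b ∉ Q i) →
  (∀ i < 4, ∀ j < 4, i ≠ j → Disjoint (P i) (P j) ∧ Disjoint (Q i) (Q j)) →
  (∀ i < 4, ∀ j < 4, Disjoint (P i) (Q j)) → (∀ i < 4, ¬ Tch G (P i) (Q i)) →
  (∀ i < 4, ∀ j < 4, i ≠ j → Tch G (P i) (P j) ∧ Tch G (P i) (Q j) ∧ Tch G (Q i) (Q j)) →
  (∀ i < 4, Tch G {c} (P i) ∧ Tch G {a} (P i) ∧ Tch G {b} (P i) ∧ Tch G {c} (Q i) ∧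
    Tch G {a} (Q i) ∧ Tch G {b} (Q i)) → IMS J4 G Set.univ

/-- the homogeneous situation in Lemma T: cells `K i` with letters `l s i`, mixed vertices `f i`, other vertices `y i` -/
structure Hs {V : Type} (G : SimpleGraph V) (n : ℕ) (K : ℕ → Set V) (l : Bool → ℕ → V)
    (f y x x' : ℕ → V) (εf εy c a b : Bool) : Prop where
  lK : ∀ i < n, ∀ s, l s i ∈ K i
  ll : ∀ i < n, G.Adj (l false i) (l true i)
  dj : ∀ i < n, ∀ j < n, i ≠ j → Disjoint (K i) (K j)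
  an : ∀ i < n, ∀ j < n, i ≠ j → ∀ u ∈ K i, ∀ v ∈ K j, ¬ G.Adj u v
  fK : ∀ i < n, ∀ j < n, f i ∉ K j ∧ y i ∉ K j
  fy : ∀ i < n, ∀ j < n, f i ≠ y j
  fi : ∀ i < n, ∀ j < n, i ≠ j → f i ≠ f j ∧ y i ≠ y j
  xK : ∀ i < n, x i ∈ K i ∧ x' i ∈ K i ∧ ¬ G.Adj (f i) (x i) ∧ G.Adj (f i) (x' i)
  fc : ∀ i < n, ∀ j < n, i ≠ j → ∀ u ∈ K j, G.Adj (f i) u
  no : ∀ i < n, ¬ G.Adj (f i) (y i)
  ff : ∀ i < n, ∀ j < n, i ≠ j → (G.Adj (f i) (f j) ↔ εf = true)
  yy : ∀ i < n, ∀ j < n, i ≠ j → (G.Adj (y i) (y j) ↔ εy = true)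
  yc : ∀ i < n, ∀ u ∈ K i, (G.Adj (y i) u ↔ c = true)
  ya : ∀ i < n, ∀ j < n, i < j → ∀ u ∈ K j, (G.Adj (y i) u ↔ a = true)
  yb : ∀ i < n, ∀ j < n, j < i → ∀ u ∈ K j, (G.Adj (y i) u ↔ b = true)
  cf : c = false → a = true ∧ b = true

/-- **T1** (50 lines).  `f` is a clique.

Proof. Otherwise `TP G 10 false false true f x`: contradiction to `noR` (`Base.lean`).  `f i ~ x j` for `i ≠ j` (`fc`), `f i ≁ x i`; `x i ≁ x j` (`an`), `x i ≠ x j` (`dj`), `f i ≠ x j` (`fK`). -/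
def S_T1 : Prop := ∀ (V : Type) (G : SimpleGraph V) (n : ℕ) (K : ℕ → Set V) (l : Bool → ℕ → V)
  (f y x x' : ℕ → V) (εf εy c a b : Bool), Hs G n K l f y x x' εf εy c a b → 10 ≤ n →
  ¬ IMS J4 G Set.univ → εf = true

/-- **T2** (100 lines).  `y i` is complete to `K i`.  (Uses `S_JM`.)

Proof. Let `c = false`; then `a = b = true` (`cf`).  `εy = false`: `TP G 10 false false true y x`: `y i ~ x j` for `i ≠ j` (`ya`, `yb`), `y i ≁ x i` (`yc`); `noR`.  `εy = true`: `S_JM` with centre `l false 4`, `a = l false 5`, `b = l true 5`, `P i = {y i}`, `Q i = {f i, x' i}` (`i < 4`): `Q i` is connected (`Conn.pair`); `P i`, `Q i` do not touch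
(`no`, `yc`); `y i ~ y j`; `y i ~ x' j`; `f i ~ x' j` (`fc`); `y i` and `f i` are complete to `K 4`, `K 5`. -/
def S_T2 : Prop := S_JM → ∀ (V : Type) (G : SimpleGraph V) (n : ℕ) (K : ℕ → Set V)
  (l : Bool → ℕ → V) (f y x x' : ℕ → V) (εf εy c a b : Bool),
  Hs G n K l f y x x' εf εy c a b → 10 ≤ n → ¬ IMS J4 G Set.univ → c = true

/-- **T3** (120 lines).  `y i` is anticomplete to the other cells.  (Uses `S_JM`.)

Proof. `a = true`: `S_JM` with centre `l false 4`, `a = l false 5`, `b = l true 5`, `P i = {f i}`, `Q i = {y i, x i}` (`i < 4`): `Q i` is connected (`yc`); `P i`, `Q i` do not touch (`no`, `xK`); `f i ~ f j`; `f i ~ x j` (`fc`); for `i < j` `y i ~ x j` (`ya`); `y i` and `f i` are complete to `K 4`, `K 5`.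
`b = true`: the same with centre `l false 0`, `a = l false 1`, `b = l true 1`, `P i = {f (i + 2)}`, `Q i = {y (i + 2), x (i + 2)}`, `yb` in place of `ya`. -/
def S_T3 : Prop := S_JM → ∀ (V : Type) (G : SimpleGraph V) (n : ℕ) (K : ℕ → Set V)
  (l : Bool → ℕ → V) (f y x x' : ℕ → V) (εf εy c a b : Bool),
  Hs G n K l f y x x' εf εy c a b → 10 ≤ n → ¬ IMS J4 G Set.univ → εf = true → c = true →
  a = false ∧ b = false

/-- **TH** (150 lines).  A homogeneous subsequence.  (Uses `W.S_RamC`.)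

Proof. Let `n ≥ 3` (otherwise take the statement for `3`).  `m` = the number of `W.S_RamC` for `n + 1` and `κ = Bool × Bool × Bool × Bool × Bool × Bool × Bool`.  `h 0 < h 1 < ..`: the increasing enumeration of `T` (`Finset.orderEmbOfFin`, extended to `ℕ`).  Colour of `(p, q)` with `i = h p`, `j = h q`: (`y i ∈ Mi (K j)`, `y j ∈ Mi (K i)`,
`f i ~ f j`, `y i ~ y j`, `Tc (y i) j`, `Tc (y j) i`, `Tc (y i) i`) (`decide`).  We get `σ = h ∘ τ` on `n + 1` indices; use the first `n`.  The first two components are `false`: if `y (σ 0) ∈ Mi (K (σ 1))` and `∈ Mi (K (σ 2))`: `Ce.mdj`; in the same way `y (σ 2)` and `K (σ 0)`, `K (σ 1)`.  So `y (σ i) ∉ Mi (K (σ j))` for all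
`i, j < n`, and `Ce.hom` gives `yc`, `ya`, `yb` with `c` = the seventh, `a` = the fifth, `b` = the sixth component.  `cf`: if `c = false` then `y (σ 0)` is anticomplete to `K (σ 0)`, so by `Ce.fa` complete to `K (σ 1)`, hence `a = true`; and `y (σ 1)` is complete to `K (σ 0)`: `b = true`.  `x i`, `x' i`: from `f (σ i) ∈ Mi (K (σ i))`.
`fK`: `f (σ i) ∉ Rr` (`Ce.mx`), `Kc_sub`.  `fy`: `f (σ i) ∈ Mi (K (σ i))` and `y (σ j) ∉ Mi (K (σ i))`.  `fi`: `Ce.mdj`, and `y` is injective on `T`.  `fc`: `Ce.co`.  `dj`, `an`: `Ce.dj`, `Ce.an`. -/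
def S_TH : Prop := W.S_RamC → ∀ n : ℕ, ∃ m : ℕ, ∀ (V : Type) (G : SimpleGraph V)
  (e : Bool → ℕ → V) (S T : Finset ℕ) (f y : ℕ → V), Ce G e S → T ⊆ S → m ≤ T.card →
  (∀ i ∈ T, f i ∈ Mi G (Kc G e S i) ∧ y i ∉ Rr G e S ∧ y i ∉ Mi G (Kc G e S i) ∧
    ¬ G.Adj (f i) (y i)) → Set.InjOn y (T : Set ℕ) →
  ∃ (σ : ℕ → ℕ) (x x' : ℕ → V) (εf εy c a b : Bool), (∀ i < n, σ i ∈ T) ∧
    (∀ i j, i < j → j < n → σ i < σ j) ∧ Hs G n (fun i => Kc G e S (σ i))
      (fun s i => e s (σ i)) (fun i => f (σ i)) (fun i => y (σ i)) x x' εf εy c a b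

/-- the conclusion of Lemma T -/
def C_T : Prop := ∀ s : ℕ, ∃ m : ℕ, ∀ (V : Type) (G : SimpleGraph V) (e : Bool → ℕ → V)
  (S T : Finset ℕ) (f y : ℕ → V), ¬ IMS J4 G Set.univ → Ce G e S → T ⊆ S → m ≤ T.card →
  (∀ i ∈ T, f i ∈ Mi G (Kc G e S i) ∧ y i ∉ Rr G e S ∧ y i ∉ Mi G (Kc G e S i) ∧
    ¬ G.Adj (f i) (y i)) → Set.InjOn y (T : Set ℕ) →
  ∃ T' ⊆ T, T'.card = s ∧ ∀ i ∈ T', (∀ x ∈ Kc G e S i, G.Adj (y i) x) ∧
    ∀ j ∈ T', j ≠ i → ∀ x ∈ Kc G e S j, ¬ G.Adj (y i) x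

/-- **LT** (50 lines).  Lemma T.  (Uses `W.S_RamC`, `S_JM`, `S_T1`, `S_T2`, `S_T3`, `S_TH`.)

Proof. `S_TH` for `n = max s 10`; `T' = (Finset.range s).image σ` (`σ` is injective on `i < n`); `S_T1`, `S_T2`, `S_T3` give `c = true`, `a = b = false`; `yc`, `ya`, `yb`. -/
def S_LT : Prop := W.S_RamC → S_JM → S_T1 → S_T2 → S_T3 → S_TH → C_T

/-! ## 3. Homogeneous matchings -/

/-- every trace on a 4-tuple of `H` occurs on every other 4-tuple -/
def Hm4 {V : Type} (Tr : V → ℕ → Prop) (H : Finset ℕ) : Prop := ∀ a ∈ H, ∀ b ∈ H, ∀ c ∈ H,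
  ∀ d ∈ H, ∀ a' ∈ H, ∀ b' ∈ H, ∀ c' ∈ H, ∀ d' ∈ H, a < b → b < c → c < d → a' < b' → b' < c' →
  c' < d' → ∀ v : V, ∃ v' : V, (Tr v' a' ↔ Tr v a) ∧ (Tr v' b' ↔ Tr v b) ∧
    (Tr v' c' ↔ Tr v c) ∧ (Tr v' d' ↔ Tr v d)

/-- no crossing traces on four elements of `H` -/
def NCr {V : Type} (Tr : V → ℕ → Prop) (H : Finset ℕ) : Prop := ∀ a ∈ H, ∀ b ∈ H, ∀ c ∈ H,
  ∀ d ∈ H, a ≠ b → a ≠ c → a ≠ d → b ≠ c → b ≠ d → c ≠ d → ∀ y y' : V, Tr y a → Tr y b →
  ¬ Tr y c → ¬ Tr y d → Tr y' b → Tr y' c → ¬ Tr y' a → ¬ Tr y' d → False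

/-- **Sr** (80 lines).  Ramsey's theorem for 4-tuples.

Proof. `Pool.Agent.Lib.MP_577a3c26_an.ramsey` for sets with 4 elements, `C = Set (Fin 4 → Bool)` and the colour `D ↦ {A | ∃ v, ∃ a b c d, a < b ∧ b < c ∧ c < d ∧ D = {a, b, c, d} ∧ (Tr v a ↔ A 0 = true) ∧ (Tr v b ↔ A 1 = true) ∧ (Tr v c ↔ A 2 = true) ∧ (Tr v d ↔ A 3 = true)}` (if the theorem is stated for `ℕ`
or a range instead of `S`: enumerate `S` increasingly).  An increasing 4-tuple is determined by the set of its elements (`a` = the minimum, ..; or compare: `{a, b, c, d} = {a', b', c', d'}` with both increasing gives equality by `omega` after `Finset.ext_iff` at the eight elements). -/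
def S_Sr : Prop := ∀ s : ℕ, ∃ N : ℕ, ∀ (V : Type) (Tr : V → ℕ → Prop) (S : Finset ℕ),
  N ≤ S.card → ∃ H ⊆ S, H.card = s ∧ Hm4 Tr H

/-- **Sg** (120 lines).  Segments.

Proof. Let `h 0 < .. < h 4` be elements of `H`; write `1, .., 5` for them.  `{p, q}` (`p, q` in `1..4`) OCCURS if on some (so by `Hm4` on every) increasing 4-tuple some vertex has exactly the `p`-th and `q`-th element in its trace.  By `NCr` no two occurring pairs have exactly one element in common (use the 4-tuple `1, 2, 3, 4`).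
(1) `{1, 3}` does not occur: let `v` have the trace `1, 3` on `1234`; if `5` is not in its trace then `{1, 2}` occurs (4-tuple `1345`), otherwise `{1, 4}` occurs (`1245`).  (2) `{2, 4}` does not occur: `5` not in the trace: `{2, 3}` (`1245`); otherwise `{3, 4}` (`1345`).
(3) `{2, 3}` does not occur: `5` in the trace: `{2, 4}` (`1245`); otherwise `{1, 2}` (`2345`).  Now let `v`, `a < i < b`, `j` be as in the statement, `j ≠ i`; then `j ≠ a, b`.  `j < a`: `{1, 3}` occurs (`j, a, i, b`); `a < j < b`: `{2, 3}` occurs; `b < j`: `{2, 4}` occurs. -/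
def S_Sg : Prop := ∀ (V : Type) (Tr : V → ℕ → Prop) (H : Finset ℕ), 5 ≤ H.card → Hm4 Tr H →
  NCr Tr H → ∀ v : V, ∀ a ∈ H, ∀ i ∈ H, ∀ b ∈ H, a < i → i < b → ¬ Tr v a → Tr v i →
    ¬ Tr v b → ∀ j ∈ H, Tr v j → j = i

/-- **Qm** (60 lines).  A small cover instead of a large matching.

Proof. Choose `T ⊆ H` with the largest number of elements such that there is `y`, injective on `T`, with `Q i (y i)` for `i ∈ T` (`∅` is such a set).  `T.card < m`: otherwise take a subset with `m` elements.  `I₀ = T`, `Y₀ = T.image y`.  If `i ∈ H`, `i ∉ T`, `Q i z` and `z ∉ Y₀` then `insert i T` with `Function.update y i z` is larger. -/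
def S_Qm : Prop := ∀ (V : Type) (Q : ℕ → V → Prop) (H : Finset ℕ) (m : ℕ), 1 ≤ m →
  (∀ T ⊆ H, T.card = m → ∀ y : ℕ → V, Set.InjOn y (T : Set ℕ) → ∃ i ∈ T, ¬ Q i (y i)) →
  ∃ I₀ ⊆ H, I₀.card < m ∧ ∃ Y₀ : Finset V, Y₀.card < m ∧
    ∀ i ∈ H, i ∉ I₀ → ∀ y, Q i y → y ∈ Y₀

/-- **Ra** (100 lines).  The cut-rank of a cell with its mixed vertices.

Proof. `X = K i ∪ Mi (K i)`.  (1) Let `f ∈ Mi (K i)`, `u ∉ X`, `f ≁ u`.  `u ∉ Rr` (`Ce.mx`: `f` is complete to `Rr \ K i`), so `u ∈ Y₀` by hypothesis.  This gives the second claim.  (2) `H1T.rk_le_rows`: it is enough that `H1T.Rw G X Xᶜ` has at most `2 ^ Y₀.card + 1` elements.  A vertex `u ∉ X` is complete or anticomplete to `K i` (`ho`), so all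
`x ∈ K i` have the row `{u ∈ Xᶜ | G.Adj (e false i) u}`; the row of `f ∈ Mi (K i)` is `Xᶜ \ Z` with `Z = {u ∈ Y₀ | ¬ G.Adj f u}` by (1).  So the rows are in `{P} ∪ (fun Z => Xᶜ \ ↑Z) '' ↑(Y₀.powerset)` (`Set.ncard_insert_le`, `Set.ncard_image_le`, `Finset.card_powerset`). -/
def S_Ra : Prop := ∀ (V : Type) [Finite V] (G : SimpleGraph V) (e : Bool → ℕ → V) (S : Finset ℕ)
  (i : ℕ) (Y₀ : Finset V), Ce G e S → i ∈ S → (∀ f ∈ Mi G (Kc G e S i), ∀ y, y ∉ Rr G e S →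
    y ∉ Mi G (Kc G e S i) → ¬ G.Adj f y → y ∈ Y₀) →
  LK.cr G (Kc G e S i ∪ Mi G (Kc G e S i)) ≤ 2 ^ Y₀.card + 1 ∧ ∀ f ∈ Mi G (Kc G e S i),
    {u | ¬ G.Adj f u} ⊆ (Kc G e S i ∪ Mi G (Kc G e S i)) ∪ (Y₀ : Set V)

/-- **Gh** (120 lines).  A homogeneous matching has a good letter.  (Uses `C_T`, `S_Sg`, `S_Tr`, `S_Qm`, `S_Ra`.)

Proof. `m₁ = max m 1`, `m` = the number of `C_T` for `s = 3`.  `Q i y`: `y ∉ Rr`, `y ∉ Mi (K i)` and there is `f ∈ Mi (K i)` with `f ≁ y`.  The hypothesis of `S_Qm` holds for `m₁`: let `T ⊆ H`, `T.card = m₁`, `y` injective on `T`, `Q i (y i)` for all `i ∈ T` (choose `f i`).  `C_T` gives `T' ⊆ T` with three elements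
`a < i < b` (sort them); `y i` is complete to `K i ∋ e false i`, so it touches `i`, and anticomplete to `K a`, `K b`, so it touches neither `a` nor `b`.  `S_Sg` for `Tr = Tc G e` (`NCr` is `S_Tr`): `y i` touches no other letter of `H`: so `y i ∈ Rr`, contradiction.  So there are `I₀`, `Y₀`.  For `i ∈ H \ I₀` `S_Ra` gives, with
`X i = K i ∪ Mi (K i)`, `LK.cr G (X i) ≤ 2 ^ Y₀.card + 1 ≤ c = 2 ^ m₁ + 1`, so by `Link` `|X i| ≤ β c` or `|(X i)ᶜ| ≤ β c`.  The `X i`, `i ∈ H`, are pairwise disjoint (`Ce.dj`, `Ce.mdj`, `Ce.mx` (mixed vertices are outside `Rr`)).  Choose two `i ≠ j` in `H \ I₀` (`m₁ + 8 ≤ H.card`): if `|X i| > β c` then `|X j| ≤ |(X i)ᶜ| ≤ β c`.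
So one of them, say `i`, has `|X i| ≤ β c`; for `f ∈ Mi (K i)` the non-neighbours are in `X i ∪ Y₀`: at most `β c + m₁`. -/
def S_Gh : Prop := C_T → S_Sg → S_Tr → S_Qm → S_Ra → ∃ m₁ : ℕ, ∀ (β : ℕ → ℕ) (V : Type)
  [Finite V] (G : SimpleGraph V) (e : Bool → ℕ → V) (H : Finset ℕ), FP G →
  ¬ IMS J4 G Set.univ → Link β (2 ^ m₁ + 1) G → Ce G e H → m₁ + 8 ≤ H.card →
  Hm4 (Tc G e) H → ∃ i ∈ H, Gi G (β (2 ^ m₁ + 1)) (β (2 ^ m₁ + 1) + m₁) e H i

/-- the conclusion of part A: every matching with `N` letters has a good letter -/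
def C_Gn : Prop := ∃ c N m₁ : ℕ, 5 ≤ N ∧ ∀ (β : ℕ → ℕ) (V : Type) [Finite V]
  (G : SimpleGraph V), FP G → ¬ IMS J4 G Set.univ → Link β c G → ∀ (e : Bool → ℕ → V)
  (S : Finset ℕ), LS G e S → N ≤ S.card → ∃ i ∈ S, Gi G (β c) (β c + m₁) e S i

/-- **Gn** (40 lines).  Part A.  (Uses `S_Gh` with its hypotheses, `S_Sr`, `S_Ce` with its hypotheses.)

Proof. `m₁` from `S_Gh`, `c = 2 ^ m₁ + 1`, `N` = the maximum of `5` and the number of `S_Sr` for `s = m₁ + 8`.  `H ⊆ S` from `S_Sr`; `Ce G e S` and `Ce G e H` by `S_Ce`; a good letter `i` of `H` (`S_Gh`) is good for `S` by `Ce.gi` (`Base.lean`). -/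
def S_Gn : Prop := C_T → S_Sg → S_Tr → S_Qm → S_Ra → S_Gh → S_Sr → S_C1 → S_C2 → S_Ce → C_Gn

end Pool.Agent.MPd439b2.P41N
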