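import Pool.Agent.Lib.MP_d439b2_co.P41N.SpecA
import Pool.Agent.Lib.MP_d439b2_co.Rep.RowX4

/-!
# MP_d439b2_co, P41N, part B: good cells, robust letters, removal of the cells (helper88, after note 3069 of helper26,
# sections 4 to 6)

`En G B b N n₁ q` (Base): every matching with `N` letters has a good letter.  `GC`: good cells, `MG`: maximal good cells, `RC`: maximal
good cells which contain the cell of a robust letter.  A good cell `K` is connected, `K ∪ Mi K` has at most `B` elements,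
`Mi K ⊆ Wf b`, and `K` does not meet `Wf b`: so every vertex outside `K` and outside `Wf b` is complete or anticomplete to
`K`.

Every `S_X` is a statement to be proved in its own file `P41N/X.lean`, `theorem uX : S_X` (the used statements are hypotheses of
`S_X`); the docstring contains the complete proof.  `W.S_RamC` is in `W/SpecE.lean`: `χ (s k) (s l) = c` for all `k < l < m`.
-/

set_option autoImplicit false

namespace Pool.Agent.MPd439b2.P41N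

open Pool.Agent.MPd439b2 Pool.Agent.MPd439b2.Rep Pool.Agent.MPd439b2.P41 Pool.Agent.MPd439b2.NK

/-- the conclusion of `S_Ce` -/
def C_Ce : Prop := ∀ (V : Type) (G : SimpleGraph V) (e : Bool → ℕ → V) (S : Finset ℕ), FP G →
  LS G e S → 5 ≤ S.card → Ce G e S

/-- complete to each other -/
def Cp {V : Type} (G : SimpleGraph V) (X Y : Set V) : Prop := ∀ x ∈ X, ∀ y ∈ Y, G.Adj x y

/-- anticomplete to each other -/
def An {V : Type} (G : SimpleGraph V) (X Y : Set V) : Prop := ∀ x ∈ X, ∀ y ∈ Y, ¬ G.Adj x y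

/-! ## 4. Good cells -/

/-- **W0** (50 lines).  The vertices of `Rr` have many non-neighbours.

Proof. Let `v ∈ Rr`.  At most one letter of `S` is touched by `v` (see `key` in `fifth`), so at least `S.card - 1 ≥ b + 2` letters `i` are not touched, and then `v ≁ e false i`; these vertices are different (`LS.ne`).  So `v` has at least `b + 2` non-neighbours. -/
def S_W0 : Prop := ∀ (V : Type) [Finite V] (G : SimpleGraph V) (B b N n₁ q : ℕ)
  (e : Bool → ℕ → V) (S : Finset ℕ), En G B b N n₁ q → LS G e S → n₁ ≤ S.card →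
  ∀ v ∈ Rr G e S, v ∉ Wf G b

/-- **Gc** (40 lines).  The properties of a good cell.  (Uses `S_W0`, `C_Ce`.)

Proof. `K = Kc G e S i`: `Ce.cn`; `Gi`; `Kc_sub` and `S_W0`; the vertices `e false i`, `e true i` (`LS.mem_K`, `LS.adj`).  (`5 ≤ N ≤ n₁ ≤ S.card`.) -/
def S_Gc : Prop := S_W0 → C_Ce → ∀ (V : Type) [Finite V] (G : SimpleGraph V) (B b N n₁ q : ℕ)
  (K : Set V), En G B b N n₁ q → GC G B b n₁ K → Conn G K ∧ (K ∪ Mi G K).ncard ≤ B ∧
    Mi G K ⊆ Wf G b ∧ Disjoint K (Wf G b) ∧ ∃ x ∈ K, ∃ y ∈ K, G.Adj x y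

/-- **Ne** (80 lines).  Good cells are nested or disjoint.  (Uses `S_W0`, `C_Ce`, `S_Gc`.)

Proof. `K = Kc G e S i`, `K' = Kc G e' S' i'`.  Suppose that `K ⊄ K'`, `K' ⊄ K` and `K ∩ K'` is not empty.  `K'` is connected: there are adjacent `u ∈ K ∩ K'`, `z ∈ K' \ K`.  `z ∉ Wf` and `Mi K ⊆ Wf`, so by `ho` `z` is complete to `K` (it is adjacent to `u`).  `z ∉ Rr G e S` (otherwise `z ∈ K` by `Ce.cl`), so by `two`
there is `j ∈ S`, `j ≠ i`, `z ~ p = e s j`.  `p ≁ u` (`Ce.tc` for `u ∈ K`: `u` touches only `i`), `p ∉ Wf` (`LS.mem_R`, `S_W0`), so `p ∈ K'` by `ho` (`Mi K' ⊆ Wf`; `p` is adjacent to `z ∈ K'`, not to `u ∈ K'`).  `K` is connected: there are adjacent `u' ∈ K ∩ K'`, `k ∈ K \ K'`; `k` is complete to `K'` (`ho`, `k ∉ Wf`), so `k ~ p`.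
But `k ∈ K` touches only the letter `i` (`Ce.tc`): contradiction. -/
def S_Ne : Prop := S_W0 → C_Ce → S_Gc → ∀ (V : Type) [Finite V] (G : SimpleGraph V)
  (B b N n₁ q : ℕ) (K K' : Set V), En G B b N n₁ q → GC G B b n₁ K → GC G B b n₁ K' →
  K ⊆ K' ∨ K' ⊆ K ∨ Disjoint K K'

/-- **Mg** (60 lines).  Maximal good cells.  (Uses `S_W0`, `C_Ce`, `S_Gc`, `S_Ne`.)

Proof. FIRST: `Set.Finite.exists_le_maximal` for the finite set of the good cells.  SECOND: `S_Ne` and maximality (`C ⊆ C'` gives `C' ⊆ C`).  THIRD: `x ∈ C` is not in `Wf` and not in `C'`, so by `ho` it is complete or anticomplete to `C'` (`Mi C' ⊆ Wf`); in the same way every `y ∈ C'` is complete or anticomplete to `C`; so if `x ~ y` for one pair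
then `x ~ y'` for all `y' ∈ C'` and `x' ~ y'` for all `x' ∈ C`. -/
def S_Mg : Prop := S_W0 → C_Ce → S_Gc → S_Ne → ∀ (V : Type) [Finite V] (G : SimpleGraph V)
  (B b N n₁ q : ℕ), En G B b N n₁ q →
  (∀ K, GC G B b n₁ K → ∃ C, MG G B b n₁ C ∧ K ⊆ C) ∧
  ∀ C C', MG G B b n₁ C → MG G B b n₁ C' → C ≠ C' → Disjoint C C' ∧ (Cp G C C' ∨ An G C C')

/-- **Di** (100 lines).  Independent sets in digraphs with small outdegrees.

Proof. Induction on `n`; `n = 0`: `T' = ∅`.  `n + 1`: `T` is not empty; the number of the pairs `(i, j)`, `i, j ∈ T`, `j ∈ D i` is at most `d * T.card`, so some `j₀ ∈ T` has at most `d` elements `i ∈ T` with `j₀ ∈ D i` (`Finset.exists_le_of_sum_le` or double counting, `Finset.sum_comm`).  Apply the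
induction hypothesis to `T₁ = {i ∈ T | i ≠ j₀ ∧ i ∉ D j₀ ∧ j₀ ∉ D i}`, which has at least `T.card - (2 * d + 1)` elements, and add `j₀`. -/
def S_Di : Prop := ∀ (d n : ℕ) (T : Finset ℕ) (D : ℕ → Finset ℕ),
  (∀ i ∈ T, (D i).card ≤ d ∧ i ∉ D i) → (2 * d + 1) * n ≤ T.card →
  ∃ T' ⊆ T, T'.card = n ∧ ∀ i ∈ T', ∀ j ∈ T', j ∉ D i

/-- **Rn** (60 lines).  Few letters are not robust.  (Uses `C_Ce`, `S_Di`.)

Proof. Suppose `(2 * q + 1) * N ≤ T.card`.  For `i ∈ T` there is `D i ⊆ S` with at most `q` elements, `i ∉ D i`, and `i` is not good for `S \ D i`.  `S_Di` (`d = q`, `n = N`): `T' ⊆ T`, `T'.card = N`, `T' ⊆ S \ D i` for `i ∈ T'`.  `En.gd` for `T'` (`LS.mono`): a good letter `i ∈ T'`; by `Ce.gi` (for `Ce G e (S \ D i)`, `C_Ce`; at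
least `5` elements because it contains `T'`) `i` is good for `S \ D i`: contradiction. -/
def S_Rn : Prop := C_Ce → S_Di → ∀ (V : Type) [Finite V] (G : SimpleGraph V) (B b N n₁ q : ℕ)
  (e : Bool → ℕ → V) (S : Finset ℕ), En G B b N n₁ q → LS G e S → ∀ T ⊆ S,
  (∀ i ∈ T, ¬ Rb G B b q e S i) → T.card < (2 * q + 1) * N

/-! ## 5. Families of maximal good cells -/

/-- **Pa** (60 lines).  The matching of a family of anticomplete maximal good cells.  (Uses `S_W0`, `C_Ce`, `S_Gc`.)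

Proof. `Ce G e S` by `C_Ce`.  Every `x ∈ C i` is in `Rr G e S`: it can touch the letter `j ∈ S` only if `j = i` (`e s j ∈ C j`, `An`).  `C i` is connected (`S_Gc`) and contains `e false i ∈ Kc G e S i` (`LS.mem_K`), so `C i ⊆ Kc G e S i` (`Ce.sub_of`).  `Kc G e S i` is a good cell (`GC`), so by the maximality of `C i` it is
contained in `C i`. -/
def S_Pa : Prop := S_W0 → C_Ce → S_Gc → ∀ (V : Type) [Finite V] (G : SimpleGraph V)
  (B b N n₁ q : ℕ) (e : Bool → ℕ → V) (S : Finset ℕ) (C : ℕ → Set V), En G B b N n₁ q →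
  LS G e S → n₁ ≤ S.card → (∀ i ∈ S, MG G B b n₁ (C i) ∧ ∀ s, e s i ∈ C i) →
  (∀ i ∈ S, ∀ j ∈ S, i ≠ j → An G (C i) (C j)) → ∀ i ∈ S, Gi G B b e S i → Kc G e S i = C i

/-- the conclusion of `S_Al` -/
def C_Al : Prop := ∀ N n₁ : ℕ, ∃ m : ℕ, ∀ (V : Type) [Finite V] (G : SimpleGraph V) (B b q : ℕ)
  (C : ℕ → Set V) (w y : ℕ → V), En G B b N n₁ q → (∀ i < m, MG G B b n₁ (C i) ∧
    w i ∈ Mi G (C i) ∧ y i ∉ C i ∧ y i ∉ Mi G (C i) ∧ ¬ G.Adj (w i) (y i)) →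
  (∀ i < m, ∀ j < m, i ≠ j → An G (C i) (C j) ∧ y i ≠ y j) → False

/-- **Al** (150 lines).  Statement (alpha) of the note.  (Uses `S_W0`, `C_Ce`, `S_Gc`, `S_Pa`, `C_T`.)

Proof. `m₀` = the number of `C_T` for `s = n₁`; `m = max (m₀ + N) n₁`.  For `i < m` choose adjacent `e false i, e true i ∈ C i` (`S_Gc`; `MG` is a good cell); `S = Finset.range m`.  `LS G e S`: inside a letter they are adjacent (and `G.Adj x x` is false), different letters are in anticomplete cells.  `T = {i ∈ S | Gi G B b e S i}` (classical)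
has at least `m₀` elements: `S \ T` has less than `N` elements, otherwise `En.gd` for it (`LS.mono`) and `Ce.gi` give a contradiction.  For `i ∈ T` `Kc G e S i = C i` (`S_Pa`).  `C_T` for `S`, `T`, `f = w`, `y`: `w i ∈ Mi (Kc G e S i)`, `y i ∉ Mi ..`, and `y i ∉ Rr G e S` because by `Ce.mx` `w i` is adjacent to all vertices of
`Rr \ Kc G e S i`, and `y i ∉ C i`.  So there is `T' ⊆ T` with `n₁` elements, `y i` is complete to `C i` and anticomplete to `C j`, `i ≠ j` in `T'`.  `En.gd` for `T'` (`N ≤ n₁`): a good letter `i ∈ T'`, and `Kc G e T' i = C i` by `S_Pa` for `T'`.  `y i` touches no letter `j ∈ T'`, `j ≠ i`, so `y i ∈ Rr G e T'`; it is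
adjacent to `e false i ∈ Kc G e T' i`, so `y i ∈ Kc G e T' i = C i` (`Ce.cl`): contradiction. -/
def S_Al : Prop := S_W0 → C_Ce → S_Gc → S_Pa → C_T → C_Al

/-- **P0** (60 lines).  A maximal good cell `C` which is complete to the cell of the letter `i₀`, and the other letters.  (Uses `S_W0`, `C_Ce`, `S_Gc`.)

Proof. `e s l ∉ C`: `C` is complete to `Kc G e S i₀ ∋ e false i₀`, and `e s l ≁ e false i₀` (`LS.nadj`).  `e s l ∉ Wf` (`LS.mem_R`, `S_W0`), and `Mi C ⊆ Wf`, so `ho`. -/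
def S_P0 : Prop := S_W0 → C_Ce → S_Gc → ∀ (V : Type) [Finite V] (G : SimpleGraph V)
  (B b N n₁ q : ℕ) (e : Bool → ℕ → V) (S : Finset ℕ) (i₀ : ℕ) (C : Set V), En G B b N n₁ q →
  LS G e S → n₁ ≤ S.card → i₀ ∈ S → MG G B b n₁ C → Cp G (Kc G e S i₀) C →
  ∀ l ∈ S, l ≠ i₀ → ∀ s, e s l ∉ C ∧ ((∀ y ∈ C, G.Adj y (e s l)) ∨ ∀ y ∈ C, ¬ G.Adj y (e s l))

/-- **P1** (80 lines).  `C` touches many letters, if `i₀` is robust.  (Uses `S_W0`, `C_Ce`, `S_Gc`, `S_Ne`, `S_Mg`.)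

Proof. Suppose `D.card ≤ q`.  `S' = S \ D`, `n₁ ≤ S'.card`, `i₀ ∈ S'`; `i₀` is good for `S'` (`Rb`), so `K' = Kc G e S' i₀` is a good cell; by `S_Mg` `K' ⊆ C''` for a maximal good cell `C''`.  `Kc G e S i₀ ⊆ K'` (`Kc_mono`) is contained in `C₁` and `C''` and is not empty, so `C'' = C₁` (`S_Mg`).  Let `y ∈ C`: `y` touches no letter of `S'`
except perhaps `i₀` (`hD`), so `y ∈ Rr G e S'`, and it is adjacent to `e false i₀ ∈ K'` (`C` is complete to `C₁ ⊇ Kc G e S i₀`), so `y ∈ K' ⊆ C₁` (`Ce.cl`).  As `C` is not empty, `C₁` and `C` are not disjoint: `S_Mg` gives `C = C₁`: contradiction. -/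
def S_P1 : Prop := S_W0 → C_Ce → S_Gc → S_Ne → S_Mg → ∀ (V : Type) [Finite V]
  (G : SimpleGraph V) (B b N n₁ q : ℕ) (e : Bool → ℕ → V) (S D : Finset ℕ) (i₀ : ℕ)
  (C₁ C : Set V), En G B b N n₁ q → LS G e S → n₁ + q ≤ S.card → i₀ ∈ S → Rb G B b q e S i₀ →
  Kc G e S i₀ ⊆ C₁ → MG G B b n₁ C₁ → MG G B b n₁ C → C ≠ C₁ → Cp G C₁ C →
  (∀ l, l ∈ D ↔ l ∈ S ∧ l ≠ i₀ ∧ ∃ y ∈ C, Tc G e y l) → q < D.card

/-- **P2** (60 lines).  The touched letters of two such cells.  (Uses `S_W0`, `C_Ce`, `S_Gc`, `S_P0`, `S_Tr`.)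

Proof. Suppose that there are `a ∈ D \ D'`, `c ∈ D' \ D` and `d ∈ S`, `d ≠ i₀`, `d ∉ D ∪ D'`.  By `S_P0` an element of `C` touches the letter `l ≠ i₀` iff all elements do (`l ∈ D`), the same for `C'` and `D'`.  Let `y ∈ C`, `y' ∈ C'` (`C`, `C'` are not empty, `S_Gc`); both touch `i₀` (`C` is complete to `Kc G e S i₀ ∋ e false i₀`).  `S_Tr` for the
letters `a, i₀, c, d` and `y, y'`: `y` touches `a`, `i₀`, not `c`, `d`; `y'` touches `i₀`, `c`, not `a`, `d`. -/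
def S_P2 : Prop := S_W0 → C_Ce → S_Gc → S_P0 → S_Tr → ∀ (V : Type) [Finite V]
  (G : SimpleGraph V) (B b N n₁ q : ℕ) (e : Bool → ℕ → V) (S D D' : Finset ℕ) (i₀ : ℕ)
  (C C' : Set V), En G B b N n₁ q → LS G e S → n₁ ≤ S.card → i₀ ∈ S → MG G B b n₁ C →
  MG G B b n₁ C' → Cp G (Kc G e S i₀) C → Cp G (Kc G e S i₀) C' →
  (∀ l, l ∈ D ↔ l ∈ S ∧ l ≠ i₀ ∧ ∃ y ∈ C, Tc G e y l) →
  (∀ l, l ∈ D' ↔ l ∈ S ∧ l ≠ i₀ ∧ ∃ y ∈ C', Tc G e y l) → D ⊆ D' ∨ D' ⊆ D ∨
  ∀ l ∈ S, l ≠ i₀ → l ∈ D ∪ D'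

/-- **P3** (120 lines).  Four of the sets have many common elements.  (Uses `W.S_RamC`.)

Proof. `M` = the number of `W.S_RamC` for `8` and `κ = Bool × Bool`, colour of `i < j`: (`D i ⊆ D j`, `D j ⊆ D i`).  So there are `σ 0 < .. < σ 7` with constant colours.  First component true: `D (σ 0) ⊆ D (σ j)` for `j < 4`: `X = D (σ 0)`, `Z = {σ 0, .., σ 3}`.  Second component true: `X = D (σ 3)` (it is contained in `D (σ j)` for `j ≤ 3`).  Otherwise
`U ⊆ D (σ i) ∪ D (σ j)` for all `i < j < 8`, so the eight sets `U \ D (σ i)` are pairwise disjoint subsets of `U`, and the sum of their cardinals is at most `U.card`; so the four for `i < 4` or the four for `4 ≤ i` have a sum `≤ U.card / 2`; `X` = `U` without these four sets has at least `U.card / 2 ≥ q + 1`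
elements. -/
def S_P3 : Prop := W.S_RamC → ∀ q : ℕ, ∃ M : ℕ, ∀ (U : Finset ℕ) (D : ℕ → Finset ℕ),
  (∀ j < M, D j ⊆ U ∧ q < (D j).card) → 2 * q + 2 ≤ U.card →
  (∀ i < M, ∀ j < M, i ≠ j → D i ⊆ D j ∨ D j ⊆ D i ∨ U ⊆ D i ∪ D j) →
  ∃ (σ : ℕ → ℕ) (X : Finset ℕ), (∀ i < 4, σ i < M) ∧ (∀ i < 4, ∀ j < 4, i ≠ j → σ i ≠ σ j) ∧
    q < X.card ∧ ∀ i < 4, X ⊆ D (σ i)

/-- **P4** (100 lines).  A letter on which four cells and four vertices are full.  (Uses `S_W0`, `C_Ce`, `S_Gc`, `S_P0`.)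

Proof. For every `i < 4` at most one letter `l ∈ X` is bad for `C i`, i.e. `C i` is not complete to `{e false l, e true l}`: let `y ∈ C i`; `y` touches `l` (every element of `C i` does: `S_P0`), so `y` is adjacent to exactly one of `e false l`, `e true l` (`S_P0`: the alternatives are the same for all elements of `C i`).  If `l ≠ l'` are bad:
`y ~ e s l`, `y ≁ e (!s) l`, and `y ~ e false i₀` (`C i` is complete to `Kc G e S i₀`): FP for the path `e (!s) l, e s l, y, e false i₀` and the vertex `e t l'` with `y ≁ e t l'` (letters `l, i₀, l'` are different).  For every `i < 4` at most `b` letters `l ∈ X` have `w i ≁ e s l` for some `s`: `w i ∈ Wf`, and the vertices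
`e s l` of different letters are different.  So at most `4 + 4 * b` letters are excluded, `4 * b + 8 ≤ q < X.card`. -/
def S_P4 : Prop := S_W0 → C_Ce → S_Gc → S_P0 → ∀ (V : Type) [Finite V] (G : SimpleGraph V)
  (B b N n₁ q : ℕ) (e : Bool → ℕ → V) (S X : Finset ℕ) (i₀ : ℕ) (C : ℕ → Set V) (w : ℕ → V),
  En G B b N n₁ q → LS G e S → n₁ ≤ S.card → i₀ ∈ S → (∀ i < 4, MG G B b n₁ (C i) ∧
    Cp G (Kc G e S i₀) (C i) ∧ w i ∈ Wf G b) → q < X.card →
  (∀ l ∈ X, l ∈ S ∧ l ≠ i₀ ∧ ∀ i < 4, ∃ y ∈ C i, Tc G e y l) →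
  ∃ l ∈ X, ∀ i < 4, ∀ s, G.Adj (w i) (e s l) ∧ ∀ y ∈ C i, G.Adj y (e s l)

/-- the conclusion of `S_Pc` -/
def C_Pc : Prop := ∀ b q : ℕ, ∃ m : ℕ, ∀ (V : Type) [Finite V] (G : SimpleGraph V)
  (B N n₁ : ℕ) (C : ℕ → Set V) (w : ℕ → V), En G B b N n₁ q →
  (∀ i < m, RC G B b n₁ q (C i) ∧ w i ∈ Mi G (C i)) →
  (∀ i < m, ∀ j < m, i ≠ j → Cp G (C i) (C j) ∧ w i ≠ w j) → False

/-- **Pc** (200 lines).  Statement (PC) of the note.  (Uses all the statements before.)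

Proof. `M` from `S_P3`, `M' = max M 4`, `m = (2 * (2 * b) + 1) * (M' + 1)`.  The cells `C i` are disjoint (an element of `C i ∩ C j` would be adjacent to itself).  (1) `S_Di` for `T = Finset.range m`, `d = 2 * b`, `D i = {j < m | j ≠ i ∧ (w i ≁ w j ∨ ∃ x ∈ C j, w i ≁ x)}`: `D i` has at most `2 * b` elements, since `w i ∈ Wf` (`Mi C ⊆ Wf`,
`S_Gc`) has at most `b` non-neighbours, the `w j` are different, and the `x` for different `j` are different.  So there are `M' + 1` indices, `φ 0, .., φ M'` (enumerate `T'`), with `w i ~ w j` and `w i` complete to `C j` for all `i ≠ j` among them.  (2) `RC` for `C (φ M')`: `e`, `S`, `i₀` robust, `Kc G e S i₀ ⊆ C₁ := C (φ M')`.  For `j < M'`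
`D j = {l ∈ S | l ≠ i₀ ∧ ∃ y ∈ C (φ j), Tc G e y l}`: `q < (D j).card` (`S_P1`; `C (φ j) ≠ C₁` as they are disjoint and not empty), and `S_P2` (`U = S.erase i₀`, `2 * q + 2 ≤ U.card` by `En.h3`).  `S_P3` gives four indices and `X`; `S_P4` gives `l`.  (3) `S_JM` (of SpecA) with the centre `c = e false i₀`, `a = e false l`, `b = e true l`,
`P i = {w (φ (σ i))}`, `Q i = {x i}`, `x i ∈ C (φ (σ i))`, `w (φ (σ i)) ≁ x i` (`Mi`): `c ∈ C₁`; `c, a, b ∉ Wf` (`LS.mem_R`, `S_W0`), so they are different from the `w`'s; `c ∉ C (φ ..)` (disjoint), `a, b ∉ C (φ ..)` (`S_P0`); `x i ∉ Wf` (`S_Gc`); `c ≁ a, b` (`LS.nadj`), `a ~ b`; `w ~ w'`, `w ~ x'`, `x ~ x'` (`Cp`); `c ~ w` (`w` is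
complete to `C₁`), `c ~ x` (`Cp`); `a, b ~ w, x` (`S_P4`).  So `J4` is an induced minor: contradiction to `En.nj`. -/
def S_Pc : Prop := S_W0 → C_Ce → S_Gc → S_Ne → S_Mg → S_Di → S_P0 → S_P1 → S_P2 → S_P3 →
  W.S_RamC → S_P4 → S_Tr → S_JM → C_Pc

/-! ## 6. Removal -/

/-- a family of cells with non-adjacent pairs -/
structure Fy {V : Type} (G : SimpleGraph V) (B b n₁ q n : ℕ) (C : ℕ → Set V) (w y : ℕ → V) :
    Prop where
  rc : ∀ i < n, RC G B b n₁ q (C i)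
  wm : ∀ i < n, w i ∈ Mi G (C i)
  yo : ∀ i < n, y i ∉ C i ∧ y i ∉ Mi G (C i) ∧ ¬ G.Adj (w i) (y i)
  df : ∀ i < n, ∀ j < n, i ≠ j → C i ≠ C j ∧ w i ≠ w j ∧ y i ≠ y j

/-- the conclusion of `S_Fb` -/
def C_Fb : Prop := ∀ b N n₁ q : ℕ, ∃ R₀ : ℕ, ∀ (V : Type) [Finite V] (G : SimpleGraph V)
  (B n : ℕ) (C : ℕ → Set V) (w y : ℕ → V), En G B b N n₁ q → Fy G B b n₁ q n C w y → n < R₀

/-- **Fb** (60 lines).  Families are short.  (Uses `C_Al`, `C_Pc`, `W.S_RamC`, `S_W0`, `C_Ce`, `S_Gc`, `S_Ne`, `S_Mg`.)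

Proof. `m` = the maximum of the numbers of `C_Al` and `C_Pc`; `R₀` = the number of `W.S_RamC` for `m` and `κ = Bool`, colour of `i < j`: `Cp G (C i) (C j)` (`decide`).  If `R₀ ≤ n`: a subsequence `C ∘ σ` of length `m` where the colour is constant for all pairs `k < l < m`.  Colour `true`: `Cp` for all pairs
(`Cp` is symmetric): `C_Pc`.  Colour `false`: the cells are different maximal good cells, so by `S_Mg` they are anticomplete: `C_Al`. -/
def S_Fb : Prop := C_Al → C_Pc → W.S_RamC → S_W0 → C_Ce → S_Gc → S_Ne → S_Mg → C_Fb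

/-- **Ex** (80 lines).  The exceptional vertices and cells.  (Uses `C_Fb`, `S_W0`, `C_Ce`, `S_Gc`, `S_Ne`, `S_Mg`.)

Proof. `R₀` from `C_Fb`.  Choose a family `Fy .. n C w y` with `n` maximum (`n < R₀`; `n = 0` is possible).  `Y = {y i | i < n} ∪ {u | ∃ i < n, ¬ G.Adj (w i) u}`: at most `R₀ * (b + 1)` elements (`w i ∈ Wf`).  `EX = {C i | i < n} ∪ {C | RC C ∧ C ∩ Y ≠ ∅}`: at most `R₀ + R₀ * (b + 1)` elements: the cells are disjoint
(`S_Mg`), so a choice function maps the second part injectively into `Y`.  Let `RC C`, `C ∉ EX`, `w ∈ Mi C`, `w ≁ u`, `u ∉ C`, `u ∉ Mi C`.  If `w = w i` for some `i < n` then `u ∈ Y`.  If `u = y i` then `u ∈ Y`.  Otherwise the family can be extended by `C`, `w`, `u` (`if i < n then .. else ..`): contradiction to the choice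
of `n`. -/
def S_Ex : Prop := C_Fb → S_W0 → C_Ce → S_Gc → S_Ne → S_Mg → ∀ b N n₁ q : ℕ, ∃ R₀ : ℕ,
  ∀ (V : Type) [Finite V] (G : SimpleGraph V) (B : ℕ), En G B b N n₁ q →
  ∃ (Y : Set V) (EX : Set (Set V)), Y.ncard ≤ R₀ * (b + 1) ∧ EX.ncard ≤ R₀ + R₀ * (b + 1) ∧
    (∀ C, RC G B b n₁ q C → C ∉ EX → Disjoint C Y) ∧
    ∀ C, RC G B b n₁ q C → C ∉ EX → ∀ w ∈ Mi G C, ∀ u, ¬ G.Adj w u →
      u ∈ C ∨ u ∈ Mi G C ∨ u ∈ Y

/-- **Dm** (40 lines).  Cells with their mixed vertices are disjoint.  (Uses `S_W0`, `C_Ce`, `S_Gc`, `S_Ne`, `S_Mg`.)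

Proof. `C ∩ C' = ∅` (`S_Mg`), `C ∩ Mi C' = ∅ = C' ∩ Mi C` (`S_Gc`: cells do not meet `Wf`, `Mi ⊆ Wf`).  `w ∈ Mi C ∩ Mi C'`: there is `x' ∈ C'`, `w ≁ x'`; by the third hypothesis for `C` `x' ∈ C ∪ Mi C ∪ Y`: impossible, since `C' ∩ Y = ∅`. -/
def S_Dm : Prop := S_W0 → C_Ce → S_Gc → S_Ne → S_Mg → ∀ (V : Type) [Finite V]
  (G : SimpleGraph V) (B b N n₁ q : ℕ) (Y : Set V) (EX : Set (Set V)), En G B b N n₁ q →
  (∀ C, RC G B b n₁ q C → C ∉ EX → Disjoint C Y) →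
  (∀ C, RC G B b n₁ q C → C ∉ EX → ∀ w ∈ Mi G C, ∀ u, ¬ G.Adj w u →
    u ∈ C ∨ u ∈ Mi G C ∨ u ∈ Y) →
  ∀ C C', RC G B b n₁ q C → RC G B b n₁ q C' → C ∉ EX → C' ∉ EX → C ≠ C' →
    Disjoint (C ∪ Mi G C) (C' ∪ Mi G C')

/-- **Sv** (200 lines).  The set of representatives and the lifting of layouts.  (Uses `S_Ex`, `S_Dm`, `S_Hr` of `P41/Spec.lean` and the statements of `ON`.)

Proof. `Y`, `EX` from `S_Ex`.  For a cell `C` (with `RC C`) let `r C ∈ C`.  `F = {x | ∃ C, RC C ∧ C ∉ EX ∧ x ∈ Mi C} ∪ {x | ∃ C, RC C ∧ C ∈ EX ∧ x ∈ C ∧ x ≠ r C}`.  `π x = r C` if `x ∈ C ∪ Mi C`, `RC C`, `C ∉ EX` (`C` is unique by `S_Dm`) or if `x ∈ C`, `RC C`, `C ∈ EX` (unique by `S_Mg`; the two cases exclude each other, as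
cells are disjoint and do not meet `Wf`), and `π x = x` otherwise.  `S = {x | π x = x}` (see `P41/Lf.lean` for a similar construction).  (1) `π (r C) = r C`, so `π x ∈ S` for all `x`.  (2) `S` and `F` are disjoint: `x ∈ Mi C`, `C ∉ EX`: `π x = r C ∈ C`, `x ∉ C`; `x ∈ C`, `C ∈ EX`, `x ≠ r C`: `π x = r C ≠ x`.
(3) Twins: let `v, u ∉ F`, `π v ≠ π u`.  If `π v = v`: clear.  Otherwise `v ∈ C`, `C ∉ EX` (in the other cases `v ∈ F` or `v = r C`), `π v = r C`, `u ∉ C` (otherwise `π u = π v`), `u ∉ Mi C` (as `u ∉ F`): `ho`.  (4) Rows: `x ∈ Mi C`, `C ∉ EX`, `π x = r C`; `v` with `π v ≠ r C`: `v ∉ C ∪ Mi C`, so `x ~ v` iff `v ∉ {u ∈ Y | ¬ G.Adj x u}`.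
`x ∈ C`, `C ∈ EX`: `ρ = {u | G.Adj x u}`.  So `R = (fun Z => Zᶜ) '' 𝒫 Y ∪ {{u | G.Adj x u} | x ∈ C, C ∈ EX, RC C}` has at most `2 ^ (R₀ * (b + 1)) + (R₀ + R₀ * (b + 1)) * B` elements (`Set.ncard_powerset`; `S_Gc`).  (5) Fibres: `hat S π {v}` is `{v}` or contained in `C ∪ Mi C` (`v = r C`): at most `B + 1` elements (`ON.S_LS`).
`S_Hr`, `ON.S_LX` as in `P41/Lf.lean`.  (6) `x, y ∈ C ∩ S`: `x = π x = r C = π y = y`. -/
def S_Sv : Prop := S_Ex → C_Fb → S_W0 → C_Ce → S_Gc → S_Ne → S_Mg → S_Dm → P41.S_Hr →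
  ON.S_RI → ON.S_LX → ON.S_LS → ∀ b N n₁ q : ℕ, ∃ R₀ : ℕ, ∀ (V : Type) [Finite V]
  (G : SimpleGraph V) (B : ℕ), En G B b N n₁ q → ∃ S : Set V,
    (∀ C, RC G B b n₁ q C → ∀ x ∈ C, ∀ y ∈ C, x ∈ S → y ∈ S → x = y) ∧
    ∀ k₀ : ℕ, Lay (G.induce S) k₀ Set.univ →
      Lay G (2 ^ (k₀ + 2 * (2 ^ (R₀ * (b + 1)) + (R₀ + R₀ * (b + 1)) * B)) + (B + 1)) Set.univ

/-- **Sa** (60 lines).  No large induced matching is left.  (Uses `C_Ce`, `S_Di`, `S_Rn`, `S_W0`, `S_Gc`, `S_Ne`, `S_Mg`.)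

Proof. Let `a`, `b'` be a pattern `TP (G.induce S) n₂ false false false`, `n₂ = max (n₁ + q) ((2 * q + 1) * N)`; `e false i = a i`, `e true i = b' i` (vertices of `G`), `I = Finset.range n₂`: `LS G e I`.  By `S_Rn` not all letters are not robust: there is a robust `i ∈ I`.  `Rb` for `D = ∅` gives that `i` is good for `I`, so `Kc G e I i`
is a good cell, contained in a maximal good cell `C` (`S_Mg`), and `RC C`.  `e false i, e true i ∈ Kc G e I i ⊆ C` (`LS.mem_K`) and both are in `S`: so they are equal, but they are adjacent. -/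
def S_Sa : Prop := C_Ce → S_Di → S_Rn → S_W0 → S_Gc → S_Ne → S_Mg → ∀ (V : Type) [Finite V]
  (G : SimpleGraph V) (B b N n₁ q : ℕ) (S : Set V), En G B b N n₁ q →
  (∀ C, RC G B b n₁ q C → ∀ x ∈ C, ∀ y ∈ C, x ∈ S → y ∈ S → x = y) →
  NoTP (G.induce S) (max (n₁ + q) ((2 * q + 1) * N)) false false false

/-- **Nk** (60 lines).  Theorem N as a reduction.  (Uses the conclusions of `S_Gn`, `S_Sv`, `S_Sa`.)

Proof. `blt_replace` for the type `(false, false, false)` (see `blt3` in `P41/Final.lean`).  `c`, `N`, `m₁` from `C_Gn`; for `β`: `B = β c`, `b = β c + m₁`, `q = 4 * b + 8`, `n₁ = N + (b + 3) + (2 * q + 3)`; `En` holds by `C_Gn` if `Link β c G` (`c₀ = c`; `FP G` by `tFp` of `P41/Fp.lean` from `H41`-freeness).  `R₀` and `S` from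
`S_Sv`; `k'` is the number in `S_Sv`; the new graph is `G.induce S`: `fr_induce`, `noT_induce`, `S_Sa`. -/
def S_Nk : Prop := C_Gn → (∀ b N n₁ q : ℕ, ∃ R₀ : ℕ, ∀ (V : Type) [Finite V]
  (G : SimpleGraph V) (B : ℕ), En G B b N n₁ q → ∃ S : Set V,
    (∀ C, RC G B b n₁ q C → ∀ x ∈ C, ∀ y ∈ C, x ∈ S → y ∈ S → x = y) ∧
    ∀ k₀ : ℕ, Lay (G.induce S) k₀ Set.univ →
      Lay G (2 ^ (k₀ + 2 * (2 ^ (R₀ * (b + 1)) + (R₀ + R₀ * (b + 1)) * B)) + (B + 1))
        Set.univ) →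
  (∀ (V : Type) [Finite V] (G : SimpleGraph V) (B b N n₁ q : ℕ) (S : Set V),
    En G B b N n₁ q → (∀ C, RC G B b n₁ q C → ∀ x ∈ C, ∀ y ∈ C, x ∈ S → y ∈ S → x = y) →
    NoTP (G.induce S) (max (n₁ + q) ((2 * q + 1) * N)) false false false) →
  P41.S_Fp → ∀ T : Set Ty, BLT H41 J4 (insert (false, false, false) T) → BLT H41 J4 T

end Pool.Agent.MPd439b2.P41N
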