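import Pool.Agent.Lib.MP_d439b2_co.P41N.SpecA

/-! # MP_d439b2_co, P41N: Ramsey's theorem for 4-tuples -/

set_option autoImplicit false

namespace Pool.Agent.MPd439b2.P41N

open Pool.Agent.MPd439b2 Pool.Agent.MPd439b2.Rep Pool.Agent.MPd439b2.P41 Pool.Agent.MPd439b2.NK

namespace Srx

/-- an increasing 4-tuple is determined by the set of its elements -/
theorem uniq {a b c d a' b' c' d' : ℕ} (h1 : a < b) (h2 : b < c) (h3 : c < d) (h4 : a' < b')
    (h5 : b' < c') (h6 : c' < d')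
    (h : ({a, b, c, d} : Finset ℕ) = {a', b', c', d'}) :
    a = a' ∧ b = b' ∧ c = c' ∧ d = d' := by
  have k : ∀ x, (x = a ∨ x = b ∨ x = c ∨ x = d) ↔ (x = a' ∨ x = b' ∨ x = c' ∨ x = d') := by
    intro x
    have hx := Finset.ext_iff.1 h x
    simpa using hx
  have a1 : a' ≤ a := by
    rcases (k a).1 (Or.inl rfl) with h' | h' | h' | h' <;> omega
  have a2 : a ≤ a' := by
    rcases (k a').2 (Or.inl rfl) with h' | h' | h' | h' <;> omega
  have b1 : b' ≤ b := by
    rcases (k b).1 (Or.inr (Or.inl rfl)) with h' | h' | h' | h' <;> omega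
  have b2 : b ≤ b' := by
    rcases (k b').2 (Or.inr (Or.inl rfl)) with h' | h' | h' | h' <;> omega
  have c1 : c' ≤ c := by
    rcases (k c).1 (Or.inr (Or.inr (Or.inl rfl))) with h' | h' | h' | h' <;> omega
  have c2 : c ≤ c' := by
    rcases (k c').2 (Or.inr (Or.inr (Or.inl rfl))) with h' | h' | h' | h' <;> omega
  have d1 : d' ≤ d := by
    rcases (k d).1 (Or.inr (Or.inr (Or.inr rfl))) with h' | h' | h' | h' <;> omega
  have d2 : d ≤ d' := by
    rcases (k d').2 (Or.inr (Or.inr (Or.inr rfl))) with h' | h' | h' | h' <;> omega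
  omega

theorem card4 {a b c d : ℕ} (h1 : a < b) (h2 : b < c) (h3 : c < d) :
    ({a, b, c, d} : Finset ℕ).card = 4 := by
  rw [Finset.card_insert_of_notMem, Finset.card_insert_of_notMem, Finset.card_insert_of_notMem,
    Finset.card_singleton]
  · simp only [Finset.mem_singleton]
    omega
  · simp only [Finset.mem_insert, Finset.mem_singleton]
    omega
  · simp only [Finset.mem_insert, Finset.mem_singleton]
    omega

/-- the colour of a set -/
def col {V : Type} (Tr : V → ℕ → Prop) (D : Finset ℕ) : Set (Fin 4 → Bool) :=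
  {A | ∃ (v : V) (a b c d : ℕ), a < b ∧ b < c ∧ c < d ∧ D = {a, b, c, d} ∧
    (Tr v a ↔ A 0 = true) ∧ (Tr v b ↔ A 1 = true) ∧ (Tr v c ↔ A 2 = true) ∧
    (Tr v d ↔ A 3 = true)}

/-- equal colours -/
theorem main {V : Type} {Tr : V → ℕ → Prop} {a b c d a' b' c' d' : ℕ} (h1 : a < b) (h2 : b < c)
    (h3 : c < d) (h4 : a' < b') (h5 : b' < c') (h6 : c' < d')
    (h : col Tr {a, b, c, d} = col Tr {a', b', c', d'}) (v : V) :
    ∃ v' : V, (Tr v' a' ↔ Tr v a) ∧ (Tr v' b' ↔ Tr v b) ∧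
    (Tr v' c' ↔ Tr v c) ∧ (Tr v' d' ↔ Tr v d) := by
  classical
  have h7 : ![decide (Tr v a), decide (Tr v b), decide (Tr v c), decide (Tr v d)] ∈
      col Tr {a, b, c, d} := by
    refine ⟨v, a, b, c, d, h1, h2, h3, rfl, ?_, ?_, ?_, ?_⟩
    · exact (decide_eq_true_iff).symm
    · exact (decide_eq_true_iff).symm
    · exact (decide_eq_true_iff).symm
    · exact (decide_eq_true_iff).symm
  rw [h] at h7
  obtain ⟨v', p, q, r, s, g1, g2, g3, g4, g5, g6, g7, g8⟩ := h7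
  obtain ⟨rfl, rfl, rfl, rfl⟩ := uniq h4 h5 h6 g1 g2 g3 g4
  exact ⟨v', g5.trans decide_eq_true_iff, g6.trans decide_eq_true_iff,
    g7.trans decide_eq_true_iff, g8.trans decide_eq_true_iff⟩

/-- Ramsey's theorem inside a large set -/
theorem ram (k M : ℕ) (C : Type) [Finite C] : ∃ L : ℕ, ∀ (S : Finset ℕ), L ≤ S.card →
    ∀ f : Finset ℕ → C, ∃ H ⊆ S, H.card = M ∧
      ∃ c : C, ∀ D : Finset ℕ, D ⊆ H → D.card = k → f D = c := by
  classical
  obtain ⟨L, hL⟩ := Pool.Agent.Lib.MP_577a3c26_an.ramsey k M C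
  refine ⟨L, fun S hS f => ?_⟩
  obtain ⟨S', hS', hc⟩ := Finset.exists_subset_card_eq hS
  let g : ℕ → ℕ := fun i => if h : i < L then S'.orderEmbOfFin hc ⟨i, h⟩ else 0
  have hg : ∀ i, (h : i < L) → g i = S'.orderEmbOfFin hc ⟨i, h⟩ := fun i h => dif_pos h
  have hgS : ∀ i < L, g i ∈ S' := fun i hi => by
    rw [hg i hi]
    exact Finset.orderEmbOfFin_mem _ _ _
  have hinj : Set.InjOn g (Finset.range L : Set ℕ) := by
    intro i hi j hj hij
    rw [Finset.mem_coe, Finset.mem_range] at hi hj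
    rw [hg i hi, hg j hj] at hij
    have h1 := (S'.orderEmbOfFin hc).injective hij
    exact congrArg Fin.val h1
  obtain ⟨H, hH, hHc, c, hc'⟩ := hL fun D => f (D.image g)
  refine ⟨H.image g, ?_, ?_, c, ?_⟩
  · intro x hx
    obtain ⟨i, hi, rfl⟩ := Finset.mem_image.1 hx
    exact hS' (hgS i (Finset.mem_range.1 (hH hi)))
  · rw [Finset.card_image_of_injOn (hinj.mono (by exact_mod_cast hH)), hHc]
  · intro D hD hDk
    obtain ⟨D', hD', rfl⟩ := Finset.subset_image_iff.1 hD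
    have h1 : Set.InjOn g (D' : Set ℕ) :=
      hinj.mono (by exact_mod_cast (hD'.trans (by exact_mod_cast hH)))
    rw [Finset.card_image_of_injOn h1] at hDk
    exact hc' D' (by exact_mod_cast hD') hDk

end Srx

theorem uSr : S_Sr := by
  intro s
  obtain ⟨N, hN⟩ := Srx.ram 4 s (Set (Fin 4 → Bool))
  refine ⟨N, fun V Tr S hS => ?_⟩
  obtain ⟨H, hHS, hHc, C, hC⟩ := hN S hS (Srx.col Tr)
  refine ⟨H, hHS, hHc, ?_⟩
  intro a ha b hb c hc d hd a' ha' b' hb' c' hc' d' hd' h1 h2 h3 h4 h5 h6 v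
  refine Srx.main h1 h2 h3 h4 h5 h6 ?_ v
  rw [hC {a, b, c, d} (by simp [Finset.insert_subset_iff, ha, hb, hc, hd])
    (Srx.card4 h1 h2 h3), hC {a', b', c', d'}
    (by simp [Finset.insert_subset_iff, ha', hb', hc', hd']) (Srx.card4 h4 h5 h6)]

end Pool.Agent.MPd439b2.P41N
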