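import Pool.Agent.Lib.MP_d439b2_co.P41N.SpecA

/-! # MP_d439b2_co, P41N: an auxiliary lemma for T2 and T3 -/

set_option autoImplicit false

namespace Pool.Agent.MPd439b2.P41N.TAux

open Pool.Agent.MPd439b2 Pool.Agent.MPd439b2.Rep Pool.Agent.MPd439b2.P41 Pool.Agent.MPd439b2.NK

/-- a model of `J4` from single vertices `u i` and pairs `v i, w i` -/
theorem core (hJM : S_JM) {V : Type} {G : SimpleGraph V} {A B : Set V} {c a b : V} {u v w : ℕ → V}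
    (hc : c ∈ A) (ha : a ∈ B) (hb : b ∈ B) (hAB : Disjoint A B)
    (han : ∀ x ∈ A, ∀ y ∈ B, ¬ G.Adj x y) (hab : G.Adj a b)
    (hu : ∀ i < 4, u i ∉ A ∧ u i ∉ B) (hv : ∀ i < 4, v i ∉ A ∧ v i ∉ B)
    (hw : ∀ i < 4, w i ∉ A ∧ w i ∉ B)
    (hvw : ∀ i < 4, G.Adj (v i) (w i))
    (huu : ∀ i < 4, ∀ j < 4, i ≠ j → G.Adj (u i) (u j))
    (hne : ∀ i < 4, ∀ j < 4, u i ≠ v j ∧ u i ≠ w j)
    (hne2 : ∀ i < 4, ∀ j < 4, i ≠ j → v i ≠ v j ∧ v i ≠ w j ∧ w i ≠ w j)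
    (hn : ∀ i < 4, ¬ G.Adj (u i) (v i) ∧ ¬ G.Adj (u i) (w i))
    (huw : ∀ i < 4, ∀ j < 4, i ≠ j → G.Adj (u i) (w j))
    (hQ : ∀ i < 4, ∀ j < 4, i ≠ j → G.Adj (v i) (w j) ∨ G.Adj (w i) (v j))
    (hcu : ∀ i < 4, G.Adj (u i) c ∧ G.Adj (u i) a ∧ G.Adj (u i) b)
    (hcv : ∀ i < 4, G.Adj (v i) c ∧ G.Adj (v i) a ∧ G.Adj (v i) b) : IMS J4 G Set.univ := by
  have hne3 : ∀ x ∈ A, ∀ y ∈ B, x ≠ y := by
    rintro x hx y hy rfl
    exact Set.disjoint_left.1 hAB hx hy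
  have hmem : ∀ z : V, ∀ x ∈ A, z ∉ A → x ≠ z := by
    rintro z x hx hz rfl
    exact hz hx
  have hmem' : ∀ z : V, ∀ x ∈ B, z ∉ B → x ≠ z := by
    rintro z x hx hz rfl
    exact hz hx
  refine hJM V G c a b (fun i => {u i}) (fun i => {v i, w i}) ?_ (hne3 _ hc _ ha) (hne3 _ hc _ hb)
    (han _ hc _ ha) (han _ hc _ hb) hab ?_ ?_ ?_ ?_ ?_ ?_
  · intro i hi
    exact ⟨Conn.singleton G _, Conn.pair (hvw i hi)⟩
  · intro i hi
    have h1 := hu i hi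
    have h2 := hv i hi
    have h3 := hw i hi
    refine ⟨hmem _ _ hc h1.1, hmem' _ _ ha h1.2, hmem' _ _ hb h1.2, ?_, ?_, ?_⟩
    · rintro (h | h)
      · exact hmem _ _ hc h2.1 h
      · exact hmem _ _ hc h3.1 h
    · rintro (h | h)
      · exact hmem' _ _ ha h2.2 h
      · exact hmem' _ _ ha h3.2 h
    · rintro (h | h)
      · exact hmem' _ _ hb h2.2 h
      · exact hmem' _ _ hb h3.2 h
  · intro i hi j hj hij
    refine ⟨Set.disjoint_singleton.2 (huu i hi j hj hij).ne, ?_⟩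
    obtain ⟨h1, h2, h3⟩ := hne2 i hi j hj hij
    obtain ⟨-, h4, -⟩ := hne2 j hj i hi hij.symm
    rw [Set.disjoint_left]
    rintro x (rfl | rfl) (h | h)
    · exact h1 h
    · exact h2 h
    · exact h4 h.symm
    · exact h3 h
  · intro i hi j hj
    rw [Set.disjoint_left]
    rintro x rfl (h | h)
    · exact (hne i hi j hj).1 h
    · exact (hne i hi j hj).2 h
  · rintro i hi ⟨x, rfl, y, (rfl | rfl), h⟩
    · exact (hn i hi).1 h
    · exact (hn i hi).2 h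
  · intro i hi j hj hij
    refine ⟨Tch.of_adj (huu i hi j hj hij) rfl rfl,
      Tch.of_adj (huw i hi j hj hij) rfl (Or.inr rfl), ?_⟩
    rcases hQ i hi j hj hij with h | h
    · exact Tch.of_adj h (Or.inl rfl) (Or.inr rfl)
    · exact Tch.of_adj h (Or.inr rfl) (Or.inl rfl)
  · intro i hi
    obtain ⟨h1, h2, h3⟩ := hcu i hi
    obtain ⟨h4, h5, h6⟩ := hcv i hi
    exact ⟨Tch.of_adj h1.symm rfl rfl, Tch.of_adj h2.symm rfl rfl, Tch.of_adj h3.symm rfl rfl,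
      Tch.of_adj h4.symm rfl (Or.inl rfl), Tch.of_adj h5.symm rfl (Or.inl rfl),
      Tch.of_adj h6.symm rfl (Or.inl rfl)⟩

end Pool.Agent.MPd439b2.P41N.TAux
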